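import Pool.Agent.N62.RK.Stm

/-!
Project RK (helper62), task BOUND (helper531, adapted from N62/RF/BOUND.lean by helper56):
simple modules are bounded (over a commutative ring).
-/

set_option autoImplicit false

namespace Pool.Agent.N62.RK.BOUND

open Module

noncomputable section

/-- the words of `f` -/
def supp {F : Type} [CommRing F] (f : FreeAlgebra F (Fin 3)) : Finset (FreeMonoid (Fin 3)) :=
  ((FreeAlgebra.basisFreeMonoid F (Fin 3)).repr f).support

lemma basis_apply (F : Type) [CommRing F] (w : FreeMonoid (Fin 3)) :
    FreeAlgebra.basisFreeMonoid F (Fin 3) w =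
      ((FreeMonoid.toList w).map (FreeAlgebra.ι F)).prod := by
  unfold FreeAlgebra.basisFreeMonoid
  rw [Basis.map_apply, LinearEquiv.symm_apply_eq, Finsupp.coe_basisSingleOne]
  have h1 : FreeAlgebra.equivMonoidAlgebraFreeMonoid (R := F) (X := Fin 3)
      (((FreeMonoid.toList w).map (FreeAlgebra.ι F)).prod) = MonoidAlgebra.single w 1 := by
    rw [map_list_prod, List.map_map]
    have h1 : ((FreeAlgebra.equivMonoidAlgebraFreeMonoid (R := F) (X := Fin 3)) ∘
        (FreeAlgebra.ι F)) =
        fun x => MonoidAlgebra.of F (FreeMonoid (Fin 3)) (FreeMonoid.of x) := by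
      funext x
      simp [FreeAlgebra.equivMonoidAlgebraFreeMonoid]
    rw [h1]
    have h3 : ((FreeMonoid.toList w).map fun x =>
      MonoidAlgebra.of F (FreeMonoid (Fin 3)) (FreeMonoid.of x)) =
      ((FreeMonoid.toList w).map FreeMonoid.of).map (MonoidAlgebra.of F (FreeMonoid (Fin 3))) := by
      rw [List.map_map]; rfl
    rw [h3, ← map_list_prod]
    clear h3
    have h4 : ((FreeMonoid.toList w).map FreeMonoid.of).prod = w := by
      induction w using FreeMonoid.inductionOn' with
      | one => rfl
      | of_mul x xs ih =>
        rw [FreeMonoid.toList_mul, FreeMonoid.toList_of, List.map_append, List.prod_append, ih]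
        simp
    rw [h4]
    rfl
  have h5 := congrArg (MonoidAlgebra.coeffLinearEquiv F) h1
  exact (h5.trans rfl).symm

lemma ev_eq {F : Type} [CommRing F] {U : Type} [Ring U] [Algebra F U] (x y z : U)
    (f : FreeAlgebra F (Fin 3)) :
    ev x y z f = ∑ w ∈ supp f, (cf f (FreeMonoid.toList w)) •
      ((FreeMonoid.toList w).map ![x, y, z]).prod := by
  conv_lhs => rw [← (FreeAlgebra.basisFreeMonoid F (Fin 3)).linearCombination_repr f]
  rw [Finsupp.linearCombination_apply, Finsupp.sum, map_sum]
  refine Finset.sum_congr rfl fun w _ => ?_
  rw [map_smul, basis_apply, map_list_prod, List.map_map]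
  have h1 : (ev x y z) ∘ (FreeAlgebra.ι F) = ![x, y, z] := by
    funext i
    simp [ev]
  rw [h1]
  rfl

section core

variable {K M F : Type} [Field K] [AddCommGroup M] [Module K M] [Module.Finite K M] [CommRing F]

/-- the identity for the operators on `M` -/
def HH (ι : F →+* K) (f : FreeAlgebra F (Fin 3)) (M : Type) [AddCommGroup M] [Module K M] : Prop :=
  ∀ X Y Z : Module.End K M, ∀ m : M, ∑ w ∈ supp f, ι (cf f (FreeMonoid.toList w)) •
    (((FreeMonoid.toList w).map ![X, Y, Z]).prod m) = 0

lemma letters (l : Fin 3) : l = 0 ∨ l = 1 ∨ l = 2 := by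
  fin_cases l <;> simp

lemma cons_rep (j : ℕ) (k : ℕ) (h : j < k) (w : List (Fin 3)) :
    ((1 : Fin 3) :: w = List.replicate (k - j) 1 ++ [2]) ↔
      w = List.replicate (k - (j + 1)) 1 ++ [2] := by
  have : k - j = (k - (j + 1)) + 1 := by omega
  rw [this, List.replicate_succ, List.cons_append]
  simp

theorem core1 (ι : F →+* K) (f : FreeAlgebra F (Fin 3)) (k : ℕ) (hk : ι (cf f (xyz k)) ≠ 0)
    (H : HH ι f M) : finrank K M ≤ k + 2 := by
  by_contra hn
  rw [not_le] at hn
  let b := Module.finBasis K M
  let ix : ℕ → Fin (finrank K M) := fun i => ⟨min i (k + 2), by omega⟩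
  let X : Module.End K M := (b.coord (ix 1)).smulRight (b (ix 0))
  let Y : Module.End K M := ∑ j : Fin k, (b.coord (ix (j + 2))).smulRight (b (ix (j + 1)))
  let Z : Module.End K M := (b.coord (ix (k + 2))).smulRight (b (ix (k + 1)))
  let co : ℕ → M → K := fun i m => b.repr m (ix i)
  have cX : ∀ i, i ≤ k + 2 → ∀ m, co i (X m) = if i = 0 then co 1 m else 0 := by
    intro i h m
    simp only [co, X, LinearMap.smulRight_apply, map_smul, Finsupp.smul_apply, Basis.repr_self,
      Finsupp.single_apply, Basis.coord_apply, ix, Fin.mk.injEq, smul_eq_mul]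
    split_ifs with h1 h2 h2
    · simp
    · omega
    · omega
    · simp
  have cZ : ∀ i, i ≤ k + 2 → ∀ m, co i (Z m) = if i = k + 1 then co (k + 2) m else 0 := by
    intro i h m
    simp only [co, Z, LinearMap.smulRight_apply, map_smul, Finsupp.smul_apply, Basis.repr_self,
      Finsupp.single_apply, Basis.coord_apply, ix, Fin.mk.injEq, smul_eq_mul]
    split_ifs with h1 h2 h2
    · simp
    · omega
    · omega
    · simp
  have cY : ∀ i, i ≤ k + 2 → ∀ m, co i (Y m) = if 1 ≤ i ∧ i ≤ k then co (i + 1) m else 0 := by
    intro i h m
    simp only [co, Y, LinearMap.sum_apply, map_sum, Finsupp.finsetSum_apply,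
      LinearMap.smulRight_apply, map_smul, Finsupp.smul_apply, Basis.repr_self,
      Finsupp.single_apply, Basis.coord_apply, ix, Fin.mk.injEq, smul_eq_mul]
    split_ifs with h1
    · rw [Finset.sum_eq_single (⟨i - 1, by omega⟩ : Fin k)]
      · simp only
        rw [if_pos (by omega), mul_one]
        congr 2
        omega
      · intro j _ hj
        rw [if_neg, mul_zero]
        intro h2
        apply hj
        apply Fin.ext
        simp only
        have := j.2
        omega
      · intro h2; exact absurd (Finset.mem_univ _) h2
    · apply Finset.sum_eq_zero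
      intro j _
      rw [if_neg, mul_zero]
      have := j.2
      omega
  set v : M := b (ix (k + 2)) with hv
  have c0 : ∀ i, i ≤ k + 2 → co i v = if i = k + 2 then 1 else 0 := by
    intro i h
    simp only [co, hv, Basis.repr_self, Finsupp.single_apply, ix, Fin.mk.injEq]
    split_ifs with h1 h2 h2
    · rfl
    · omega
    · omega
    · rfl
  let act : List (Fin 3) → M := fun w => (w.map ![X, Y, Z]).prod v
  have act_nil : act [] = v := rfl
  have act0 : ∀ w : List (Fin 3), act (0 :: w) = X (act w) := fun w => by
    simp only [act, List.map_cons, List.prod_cons, Module.End.mul_apply]; rfl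
  have act1 : ∀ w : List (Fin 3), act (1 :: w) = Y (act w) := fun w => by
    simp only [act, List.map_cons, List.prod_cons, Module.End.mul_apply]; rfl
  have act2 : ∀ w : List (Fin 3), act (2 :: w) = Z (act w) := fun w => by
    simp only [act, List.map_cons, List.prod_cons, Module.End.mul_apply]; rfl
  have hlast : ∀ w : List (Fin 3), co (k + 2) (act w) = if w = [] then 1 else 0 := by
    intro w
    cases w with
    | nil => rw [act_nil, c0 (k + 2) le_rfl, if_pos rfl, if_pos rfl]
    | cons l w =>
      rw [if_neg (by simp : ¬ (l :: w = []))]
      rcases letters l with rfl | rfl | rfl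
      · rw [act0, cX (k + 2) le_rfl, if_neg (by omega)]
      · rw [act1, cY (k + 2) le_rfl, if_neg (by omega)]
      · rw [act2, cZ (k + 2) le_rfl, if_neg (by omega)]
  have hmid : ∀ (w : List (Fin 3)) (j : ℕ) (hj : j ≤ k), co (j + 1) (act w) =
      if w = List.replicate (k - j) 1 ++ [2] then 1 else 0 := by
    intro w
    induction w with
    | nil =>
      intro j hj
      rw [act_nil, c0 (j + 1) (by omega), if_neg (by omega), if_neg (by simp)]
    | cons l w ih =>
      intro j hj
      rcases letters l with rfl | rfl | rfl
      · rw [act0, cX (j + 1) (by omega), if_neg (by omega), if_neg]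
        intro h
        rcases Nat.eq_zero_or_pos (k - j) with h0 | h0
        · rw [h0] at h; simp at h
        · obtain ⟨m, hm⟩ := Nat.exists_eq_succ_of_ne_zero h0.ne'
          rw [hm, List.replicate_succ] at h; simp at h
      · rw [act1, cY (j + 1) (by omega)]
        by_cases hjk : j < k
        · rw [if_pos (by omega), ih (j + 1) (by omega)]
          simp only [cons_rep j k hjk]
        · have hjk' : j = k := by omega
          subst hjk'
          rw [if_neg (by omega), if_neg (by simp)]
      · rw [act2, cZ (j + 1) (by omega)]
        by_cases hjk : j = k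
        · subst hjk
          rw [if_pos rfl, hlast]
          simp
        · rw [if_neg (by omega), if_neg]
          intro h
          obtain ⟨m, hm⟩ := Nat.exists_eq_succ_of_ne_zero (show k - j ≠ 0 by omega)
          rw [hm, List.replicate_succ] at h; simp at h
  have hfirst : ∀ w : List (Fin 3), co 0 (act w) = if w = xyz k then 1 else 0 := by
    intro w
    cases w with
    | nil => rw [act_nil, c0 0 (by omega), if_neg (by omega), if_neg (by simp [xyz])]
    | cons l w =>
      rcases letters l with rfl | rfl | rfl
      · rw [act0, cX 0 (by omega), if_pos rfl]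
        have := hmid w 0 (by omega)
        rw [zero_add] at this
        rw [this]
        simp [xyz]
      · rw [act1, cY 0 (by omega), if_neg (by omega), if_neg (by simp [xyz])]
      · rw [act2, cZ 0 (by omega), if_neg (by omega), if_neg (by simp [xyz])]
  have h1 := congrArg (co 0) (H X Y Z v)
  have h2 : co 0 (∑ w ∈ supp f, ι (cf f (FreeMonoid.toList w)) •
    (((FreeMonoid.toList w).map ![X, Y, Z]).prod v)) =
      ∑ w ∈ supp f, ι (cf f (FreeMonoid.toList w)) * co 0 (act (FreeMonoid.toList w)) := by
    simp only [co, map_sum, map_smul, Finsupp.finsetSum_apply, Finsupp.smul_apply, smul_eq_mul, act]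
  rw [h2] at h1
  simp only [hfirst] at h1
  rw [Finset.sum_eq_single (FreeMonoid.ofList (xyz k))] at h1
  · rw [if_pos (by simp), mul_one] at h1
    have h3 : co 0 (0 : M) = 0 := by simp [co]
    rw [h3] at h1
    exact hk h1
  · intro w _ hw
    rw [if_neg, mul_zero]
    intro h
    exact hw (by rw [← h]; simp)
  · intro h
    have h4 : cf f (xyz k) = 0 := by
      unfold supp at h
      rw [Finsupp.notMem_support_iff] at h
      exact h
    exact absurd (by rw [h4, map_zero]) hk

/-- the two coordinates of a word in the operators of step 3 -/
def ab (t : K) : List (Fin 3) → K × K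
  | [] => (1, 0)
  | l :: w => if l = 0 then ((ab t w).2, 0) else if l = 1 then (0, t * (ab t w).2)
      else (0, (ab t w).1)

lemma ab_zero (t : K) (w : List (Fin 3)) (hw : w.count 0 = 0) :
    (ab t w).1 = (if w = [] then 1 else 0) ∧
      (ab t w).2 = if w = List.replicate (w.length - 1) 1 ++ [2] then t ^ (w.length - 1) else 0 := by
  induction w with
  | nil => simp [ab]
  | cons l w ih =>
    fin_cases l
    · simp at hw
    · have hw' : w.count 0 = 0 := by simpa using hw
      obtain ⟨h1, h2⟩ := ih hw'
      refine ⟨by simp [ab], ?_⟩
      simp only [ab, Fin.mk_one, Fin.isValue, one_ne_zero, if_false, if_true, h2, List.length_cons,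
        Nat.add_sub_cancel]
      cases w with
      | nil => simp
      | cons a w =>
        have e : (a :: w).length = ((a :: w).length - 1) + 1 := by simp
        have e2 : ((1 : Fin 3) :: a :: w = List.replicate (a :: w).length 1 ++ [2]) ↔
            (a :: w = List.replicate ((a :: w).length - 1) 1 ++ [2]) := by
          conv_lhs => rw [e, List.replicate_succ, List.cons_append]
          simp
        simp only [e2]
        split_ifs with h3
        · conv_rhs => rw [e, pow_succ, mul_comm]
        · simp
    · have hw' : w.count 0 = 0 := by simpa using hw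
      obtain ⟨h1, h2⟩ := ih hw'
      refine ⟨by simp [ab], ?_⟩
      simp only [ab, Fin.reduceFinMk, Fin.isValue, List.length_cons, Nat.add_sub_cancel]
      rw [if_neg (by decide), if_neg (by decide)]
      simp only [h1]
      cases w with
      | nil => simp
      | cons a w =>
        rw [if_neg (by simp), if_neg]
        intro h
        rw [List.length_cons, List.replicate_succ] at h
        simp at h

lemma ab_one (t : K) (w : List (Fin 3)) (hw : w.count 0 = 1) :
    (ab t w).1 = if w = xyz (w.length - 2) then t ^ (w.length - 2) else 0 := by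
  cases w with
  | nil => simp at hw
  | cons l w =>
    fin_cases l
    · have hw' : w.count 0 = 0 := by simpa using hw
      simp only [ab, Fin.zero_eta, if_true, (ab_zero t w hw').2, List.length_cons]
      have e : w.length + 1 - 2 = w.length - 1 := by omega
      rw [e]
      simp [xyz]
    · rw [if_neg (by simp [xyz])]
      simp [ab]
    · rw [if_neg (by simp [xyz])]
      simp only [ab, Fin.reduceFinMk]
      rw [if_neg (by decide), if_neg (by decide)]

theorem core3 [Finite K] (ι : F →+* K) (f : FreeAlgebra F (Fin 3)) (k : ℕ)
    (hk : ι (cf f (xyz k)) ≠ 0) (H : HH ι f M) (hn : 2 ≤ finrank K M) :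
    Nat.card K ≤ (supp f).sup fun w => (FreeMonoid.toList w).length := by
  by_contra hcard
  rw [not_le] at hcard
  set D := (supp f).sup fun w => (FreeMonoid.toList w).length with hD
  have hlen : ∀ w ∈ supp f, (FreeMonoid.toList w).length ≤ D := fun w hw =>
    Finset.le_sup (f := fun w => (FreeMonoid.toList w).length) hw
  let b := Module.finBasis K M
  let i0 : Fin (finrank K M) := ⟨0, by omega⟩
  let i1 : Fin (finrank K M) := ⟨1, by omega⟩
  have h01 : i0 ≠ i1 := by simp [i0, i1]
  have key : ∀ lam t : K, ∑ w ∈ supp f, ι (cf f (FreeMonoid.toList w)) *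
      (lam ^ (FreeMonoid.toList w).count 0 * (ab t (FreeMonoid.toList w)).1) = 0 := by
    intro lam t
    let X : Module.End K M := (b.coord i1).smulRight (lam • b i0)
    let Y : Module.End K M := (b.coord i1).smulRight (t • b i1)
    let Z : Module.End K M := (b.coord i0).smulRight (b i1)
    have hact : ∀ w : List (Fin 3),
        b.repr ((w.map ![X, Y, Z]).prod (b i0)) i0 = lam ^ w.count 0 * (ab t w).1 ∧
        b.repr ((w.map ![X, Y, Z]).prod (b i0)) i1 = lam ^ w.count 0 * (ab t w).2 := by
      intro w
      induction w with
      | nil => simp [ab, h01, h01.symm, Finsupp.single_apply]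
      | cons l w ih =>
        obtain ⟨h1, h2⟩ := ih
        simp only [List.map_cons, List.prod_cons, Module.End.mul_apply]
        rcases letters l with rfl | rfl | rfl
        · have eX : (![X, Y, Z] : Fin 3 → Module.End K M) 0 = X := rfl
          rw [eX]
          simp only [X, LinearMap.smulRight_apply, map_smul,
            Finsupp.smul_apply, Basis.repr_self, Finsupp.single_apply, Basis.coord_apply, h2,
            smul_eq_mul, h01, h01.symm, if_true, if_false, ab, List.count_cons_self]
          constructor
          · ring
          · ring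
        · have eY : (![X, Y, Z] : Fin 3 → Module.End K M) 1 = Y := rfl
          rw [eY]
          simp only [Y, LinearMap.smulRight_apply, map_smul,
            Finsupp.smul_apply, Basis.repr_self, Finsupp.single_apply, Basis.coord_apply, h2,
            smul_eq_mul, h01, h01.symm, if_true, if_false, ab]
          have e : ((1 : Fin 3) :: w).count 0 = w.count 0 := by simp
          rw [e]
          simp only [Fin.isValue, one_ne_zero, if_false]
          constructor
          · ring
          · ring
        · have eZ : (![X, Y, Z] : Fin 3 → Module.End K M) 2 = Z := rfl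
          rw [eZ]
          simp only [Z, LinearMap.smulRight_apply, map_smul,
            Finsupp.smul_apply, Basis.repr_self, Finsupp.single_apply, Basis.coord_apply, h1,
            smul_eq_mul, h01, h01.symm, if_true, if_false, ab]
          have e : ((2 : Fin 3) :: w).count 0 = w.count 0 := by simp
          rw [e, if_neg (by decide), if_neg (by decide)]
          constructor
          · ring
          · ring
    have h1 := congrArg (fun m => b.repr m i0) (H X Y Z (b i0))
    simp only [map_sum, map_smul, Finsupp.finsetSum_apply, Finsupp.smul_apply, smul_eq_mul,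
      map_zero, Finsupp.zero_apply, (hact _).1] at h1
    exact h1
  -- the coefficient of `lam`
  have hfin := Fintype.ofFinite K
  have hcardK : D < Fintype.card K := by rwa [← Nat.card_eq_fintype_card]
  have step1 : ∀ t : K, ∑ w ∈ supp f, (if (FreeMonoid.toList w).count 0 = 1 then
      ι (cf f (FreeMonoid.toList w)) * (ab t (FreeMonoid.toList w)).1 else 0) = 0 := by
    intro t
    let P : Polynomial K := ∑ w ∈ supp f, Polynomial.monomial ((FreeMonoid.toList w).count 0)
      (ι (cf f (FreeMonoid.toList w)) * (ab t (FreeMonoid.toList w)).1)
    have hP : P = 0 := by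
      apply Polynomial.eq_zero_of_natDegree_lt_card_of_eval_eq_zero P
        (f := (id : K → K)) Function.injective_id
      · intro lam
        simp only [P, Polynomial.eval_finsetSum, Polynomial.eval_monomial, id]
        rw [← key lam t]
        refine Finset.sum_congr rfl fun w _ => ?_
        ring
      · refine lt_of_le_of_lt ?_ hcardK
        apply Polynomial.natDegree_sum_le_of_forall_le
        intro w hw
        exact (Polynomial.natDegree_monomial_le _).trans ((List.count_le_length).trans (hlen w hw))
    have h1 := congrArg (fun p => Polynomial.coeff p 1) hP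
    simp only [P, Polynomial.finsetSum_coeff, Polynomial.coeff_monomial, Polynomial.coeff_zero] at h1
    exact h1
  let Q : Polynomial K := ∑ w ∈ supp f,
    if (FreeMonoid.toList w) = xyz ((FreeMonoid.toList w).length - 2) then
      Polynomial.monomial ((FreeMonoid.toList w).length - 2) (ι (cf f (FreeMonoid.toList w))) else 0
  have hQ : Q = 0 := by
    apply Polynomial.eq_zero_of_natDegree_lt_card_of_eval_eq_zero Q
      (f := (id : K → K)) Function.injective_id
    · intro t
      simp only [Q, Polynomial.eval_finsetSum, id]
      rw [← step1 t]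
      refine Finset.sum_congr rfl fun w _ => ?_
      by_cases hc : (FreeMonoid.toList w).count 0 = 1
      · rw [if_pos hc, ab_one t _ hc]
        split_ifs with h
        · rw [Polynomial.eval_monomial]
        · simp
      · rw [if_neg hc, if_neg]
        · simp
        · intro h
          apply hc
          rw [h]
          simp [xyz, List.count_replicate]
    · refine lt_of_le_of_lt ?_ hcardK
      apply Polynomial.natDegree_sum_le_of_forall_le
      intro w hw
      split_ifs
      · refine (Polynomial.natDegree_monomial_le _).trans ?_
        have := hlen w hw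
        omega
      · simp
  have h1 := congrArg (fun p => Polynomial.coeff p k) hQ
  simp only [Q, Polynomial.finsetSum_coeff, Polynomial.coeff_zero] at h1
  rw [Finset.sum_eq_single (FreeMonoid.ofList (xyz k))] at h1
  · have e : (xyz k).length - 2 = k := by simp [xyz]
    simp only [FreeMonoid.toList_ofList, e, if_true, Polynomial.coeff_monomial] at h1
    exact hk h1
  · intro w _ hw
    split_ifs with h
    · rw [Polynomial.coeff_monomial, if_neg]
      intro h2
      apply hw
      rw [← h2, ← h]
      simp
    · simp
  · intro h
    have h4 : cf f (xyz k) = 0 := by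
      unfold supp at h
      rw [Finsupp.notMem_support_iff] at h
      exact h
    exact absurd (by rw [h4, map_zero]) hk

end core

section main

variable {F : Type} [CommRing F] {U : Type} [Ring U] [Algebra F U] {M : Type} [AddCommGroup M]
  [Module U M]

/-- the field acts by endomorphisms of `M` -/
def iot (F : Type) [CommRing F] (U : Type) [Ring U] [Algebra F U] (M : Type) [AddCommGroup M]
    [Module U M] : F →+* Module.End U M where
  toFun c :=
    { toFun := fun m => algebraMap F U c • m
      map_add' := fun m n => smul_add _ _ _
      map_smul' := fun u m => by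
        rw [RingHom.id_apply, ← mul_smul, ← mul_smul, Algebra.commutes] }
  map_one' := by ext m; simp
  map_mul' a b := by
    ext m
    change algebraMap F U (a * b) • m = algebraMap F U a • algebraMap F U b • m
    rw [map_mul, mul_smul]
  map_zero' := by ext m; simp
  map_add' a b := by ext m; simp [add_smul]

/-- density for the ideal `A` -/
lemma dens [Finite M] [IsSimpleModule U M] (K : Type) [Field K] [Module K M]
    (e : K ≃+* Module.End U M) (he : ∀ (c : K) (m : M), c • m = e c m) [Module.Finite K M]
    (A : Submodule F U) (hA : Idl A) (a0 : U) (ha0 : a0 ∈ A) (v0 : M) (hv0 : a0 • v0 ≠ 0)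
    (g : Module.End K M) : ∃ a ∈ A, ∀ m : M, a • m = g m := by
  classical
  have hcomm : ∀ (u : U) (c : K) (m : M), u • c • m = c • u • m := by
    intro u c m
    rw [he, he, map_smul]
  -- density for `U`
  have hdens : ∀ g : Module.End K M, ∃ u : U, ∀ m : M, u • m = g m := by
    intro g
    have hfin := Fintype.ofFinite M
    let g' : Module.End (Module.End U M) M :=
      { toFun := g
        map_add' := g.map_add
        map_smul' := fun φ m => by
          have h1 : φ • m = (e.symm φ) • m := by rw [he, RingEquiv.apply_symm_apply]; rfl
          have h2 : φ • (g m) = (e.symm φ) • (g m) := by rw [he, RingEquiv.apply_symm_apply]; rfl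
          rw [RingHom.id_apply, h1, h2, map_smul] }
    obtain ⟨u, hu⟩ := jacobson_density (R := U) g' Finset.univ
    exact ⟨u, fun m => (hu m (Finset.mem_univ m)).symm⟩
  obtain ⟨φ, hφ⟩ : ∃ φ : Module.Dual K M, φ (a0 • v0) = 1 := by
    by_contra hcon
    apply hv0
    rw [← Module.forall_dual_apply_eq_zero_iff K]
    intro φ
    by_contra h
    exact hcon ⟨(φ (a0 • v0))⁻¹ • φ, by simp [h]⟩
  let b := Module.finBasis K M
  choose u hu using fun i => hdens ((b.coord i).smulRight v0)
  choose u' hu' using fun i => hdens (φ.smulRight (g (b i)))
  refine ⟨∑ i, u' i * a0 * u i, A.sum_mem fun i _ => (hA (u i) _ (hA (u' i) a0 ha0).1).2, ?_⟩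
  intro m
  rw [Finset.sum_smul]
  conv_rhs => rw [← b.sum_repr m, map_sum]
  refine Finset.sum_congr rfl fun i _ => ?_
  rw [mul_smul, mul_smul, hu, LinearMap.smulRight_apply, hcomm, hcomm, hu',
    LinearMap.smulRight_apply, hφ, one_smul, map_smul, Basis.coord_apply]

end main

theorem t : S_BOUND := by
  intro F _ f hf
  refine ⟨((supp f).sup (fun w => (FreeMonoid.toList w).length) + 1) ^
    ((supp f).sup (fun w => (FreeMonoid.toList w).length)), ?_⟩
  intro U _ _ A hA hOn M _ _ _ _ hnc
  classical
  obtain ⟨a, ha, b, hb, v0, hv0⟩ := hnc
  have hKfin : Finite (Module.End U M) :=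
    Finite.of_injective (fun φ : Module.End U M => (φ : M → M)) DFunLike.coe_injective
  let K := Module.End U M
  let fK : Field K := littleWedderburn K
  let mK : Module K M :=
    { smul := fun c m => (c : Module.End U M) m
      one_smul := fun m => rfl
      mul_smul := fun c d m => rfl
      smul_zero := fun c => map_zero (c : Module.End U M)
      smul_add := fun c m n => map_add (c : Module.End U M) m n
      add_smul := fun c d m => rfl
      zero_smul := fun m => rfl }
  let e : K ≃+* Module.End U M := RingEquiv.refl _
  have he : ∀ (c : K) (m : M), c • m = e c m := fun c m => rfl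
  have hMfin : Module.Finite K M := Module.Finite.of_finite
  have hmem : a * b - b * a ∈ A := A.sub_mem (hA a b hb).1 (hA b a ha).1
  have hD := dens K e he A hA _ hmem v0 hv0
  have hcomm : ∀ (u : U) (c : K) (m : M), u • c • m = c • u • m := by
    intro u c m
    rw [he, he, map_smul]
  have H : HH (iot F U M : F →+* K) f M := by
    intro X Y Z m
    obtain ⟨x, hx, hx'⟩ := hD X
    obtain ⟨y, hy, hy'⟩ := hD Y
    obtain ⟨z, hz, hz'⟩ := hD Z
    have h1 := hOn x hx y hy z hz
    rw [ev_eq] at h1
    have h2 := congrArg (fun u : U => u • m) h1
    simp only [Finset.sum_smul, zero_smul] at h2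
    rw [← h2]
    refine Finset.sum_congr rfl fun w _ => ?_
    have h3 : ∀ w : List (Fin 3), (w.map ![X, Y, Z]).prod m = (w.map ![x, y, z]).prod • m := by
      intro w
      induction w with
      | nil => simp
      | cons l w ih =>
        simp only [List.map_cons, List.prod_cons, Module.End.mul_apply, mul_smul]
        rw [ih]
        rcases letters l with rfl | rfl | rfl
        · exact (hx' _).symm
        · exact (hy' _).symm
        · exact (hz' _).symm
    rw [h3, Algebra.smul_def, mul_smul]
    rfl
  obtain ⟨k, hk⟩ : ∃ k, (iot F U M : F →+* K) (cf f (xyz k)) ≠ 0 := by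
    by_contra hcon
    push Not at hcon
    have hle : Ideal.span (Set.range fun k : ℕ => cf f (xyz k)) ≤
        RingHom.ker (iot F U M : F →+* K) := by
      rw [Ideal.span_le]
      rintro _ ⟨k, rfl⟩
      exact hcon k
    have h1 : (1 : F) ∈ RingHom.ker (iot F U M : F →+* K) := by
      apply hle
      rw [hf]
      trivial
    rw [RingHom.mem_ker, map_one] at h1
    exact one_ne_zero h1
  have hk2 : k + 2 ≤ (supp f).sup (fun w => (FreeMonoid.toList w).length) := by
    have hmem' : (FreeMonoid.ofList (xyz k)) ∈ supp f := by
      unfold supp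
      rw [Finsupp.mem_support_iff]
      intro h0
      apply hk
      have : cf f (xyz k) = 0 := h0
      rw [this, map_zero]
    have := Finset.le_sup (f := fun w : FreeMonoid (Fin 3) => (FreeMonoid.toList w).length) hmem'
    refine le_trans (le_of_eq ?_) this
    simp [xyz]
  have h1 : finrank K M ≤ k + 2 := core1 _ f k hk H
  have h2 : 2 ≤ finrank K M := by
    by_contra hlt
    apply hv0
    -- a one-dimensional space
    by_cases h0 : ∀ m : M, m = 0
    · exact h0 _
    · push Not at h0
      obtain ⟨m0, hm0⟩ := h0
      have hone : finrank K M = 1 := by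
        have : 0 < finrank K M := by
          have : Nontrivial M := ⟨⟨m0, 0, hm0⟩⟩
          exact Module.finrank_pos
        omega
      obtain ⟨c, hc⟩ := (finrank_eq_one_iff_of_nonzero' m0 hm0).1 hone (a • m0)
      obtain ⟨d, hd⟩ := (finrank_eq_one_iff_of_nonzero' m0 hm0).1 hone (b • m0)
      obtain ⟨r, hr⟩ := (finrank_eq_one_iff_of_nonzero' m0 hm0).1 hone v0
      rw [← hr, sub_smul, mul_smul, mul_smul, hcomm b, hcomm a, hcomm a, hcomm b, ← hd, ← hc,
        hcomm a, hcomm b, ← hc, ← hd, smul_smul d c, smul_smul c d, mul_comm d c, sub_self]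
  have h3 : Nat.card K ≤ (supp f).sup (fun w => (FreeMonoid.toList w).length) :=
    core3 _ f k hk H h2
  have h4 : Nat.card M = Nat.card K ^ finrank K M := Module.natCard_eq_pow_finrank
  rw [h4]
  calc Nat.card K ^ finrank K M
      ≤ ((supp f).sup (fun w => (FreeMonoid.toList w).length) + 1) ^ finrank K M :=
        Nat.pow_le_pow_left (by omega) _
    _ ≤ _ := Nat.pow_le_pow_right (by omega) (h1.trans hk2)

end

end Pool.Agent.N62.RK.BOUND
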