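import Pool.Agent.N62.RK.Defs

/-!
Locally residually finite varieties: basic lemmas about ideals, powers of ideals, values of words.
-/

set_option autoImplicit false

namespace Pool.Agent.N62.RK

open MvPolynomial

section

variable {F : Type} [CommRing F] {U : Type} [Ring U] [Algebra F U]

/-! ### ideals -/

theorem idl_bot : Idl (⊥ : Submodule F U) := by
  intro u x hx
  rw [Submodule.mem_bot] at hx
  subst hx
  simp

theorem idl_top : Idl (⊤ : Submodule F U) := fun _ _ _ => ⟨trivial, trivial⟩

theorem Idl.sup {I J : Submodule F U} (hI : Idl I) (hJ : Idl J) : Idl (I ⊔ J) := by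
  intro u x hx
  obtain ⟨a, ha, b, hb, rfl⟩ := Submodule.mem_sup.1 hx
  rw [mul_add, add_mul]
  exact ⟨Submodule.add_mem_sup (hI u a ha).1 (hJ u b hb).1,
    Submodule.add_mem_sup (hI u a ha).2 (hJ u b hb).2⟩

theorem Idl.mul {I J : Submodule F U} (hI : Idl I) (hJ : Idl J) : Idl (I * J) := by
  intro u x hx
  induction hx using Submodule.mul_induction_on' with
  | mem_mul_mem a ha b hb =>
    constructor
    · rw [← mul_assoc]
      exact Submodule.mul_mem_mul (hI u a ha).1 hb
    · rw [mul_assoc]
      exact Submodule.mul_mem_mul ha (hJ u b hb).2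
  | add a _ b _ ha hb =>
    rw [mul_add, add_mul]
    exact ⟨add_mem ha.1 hb.1, add_mem ha.2 hb.2⟩

theorem idl_ip {I : Submodule F U} (hI : Idl I) (n : ℕ) : Idl (ip I n) := by
  induction n with
  | zero => exact idl_top
  | succ n ih => exact ih.mul hI

theorem Idl.top_mul {I : Submodule F U} (hI : Idl I) : ⊤ * I = I := by
  apply le_antisymm
  · rw [Submodule.mul_le]
    intro u _ x hx
    exact (hI u x hx).1
  · intro x hx
    rw [← one_mul x]
    exact Submodule.mul_mem_mul trivial hx

theorem Idl.mul_top {I : Submodule F U} (hI : Idl I) : I * ⊤ = I := by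
  apply le_antisymm
  · rw [Submodule.mul_le]
    intro x hx u _
    exact (hI u x hx).2
  · intro x hx
    rw [← mul_one x]
    exact Submodule.mul_mem_mul hx trivial

theorem ip_zero (I : Submodule F U) : ip I 0 = ⊤ := rfl

theorem ip_succ (I : Submodule F U) (n : ℕ) : ip I (n + 1) = ip I n * I := rfl

theorem ip_one {I : Submodule F U} (hI : Idl I) : ip I 1 = I := hI.top_mul

theorem ip_mul {I : Submodule F U} (hI : Idl I) (i j : ℕ) : ip I i * ip I j = ip I (i + j) := by
  induction j with
  | zero => exact (idl_ip hI i).mul_top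
  | succ j ih => rw [ip_succ, ← mul_assoc, ih, ← ip_succ, add_assoc]

theorem mul_mem_ip {I : Submodule F U} (hI : Idl I) {i j : ℕ} {x y : U} (hx : x ∈ ip I i)
    (hy : y ∈ ip I j) : x * y ∈ ip I (i + j) := by
  rw [← ip_mul hI]
  exact Submodule.mul_mem_mul hx hy

theorem ip_le {I : Submodule F U} (hI : Idl I) {m n : ℕ} (h : m ≤ n) : ip I n ≤ ip I m := by
  obtain ⟨k, rfl⟩ := Nat.exists_eq_add_of_le h
  rw [← ip_mul hI, Submodule.mul_le]
  intro x hx u _
  exact (idl_ip hI m u x hx).2

theorem ip_le_self {I : Submodule F U} (hI : Idl I) {n : ℕ} (h : 1 ≤ n) : ip I n ≤ I := by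
  have := ip_le hI h
  rwa [ip_one hI] at this

theorem ip_mono {I J : Submodule F U} (h : I ≤ J) (n : ℕ) : ip I n ≤ ip J n := by
  induction n with
  | zero => exact le_rfl
  | succ n ih => exact mul_le_mul' ih h

/-! ### ideals generated by sets -/

theorem subset_idg (S : Set U) : S ⊆ idg F S := by
  intro s hs
  exact Submodule.subset_span ⟨1, 1, s, hs, by rw [one_mul, mul_one]⟩

theorem mul_mem_idg {S : Set U} (u v : U) {s : U} (hs : s ∈ S) : u * s * v ∈ idg F S :=
  Submodule.subset_span ⟨u, v, s, hs, rfl⟩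

theorem idl_idg (S : Set U) : Idl (idg F S) := by
  intro u x hx
  induction hx using Submodule.span_induction with
  | mem x h =>
    obtain ⟨a, b, s, hs, rfl⟩ := h
    constructor
    · have : u * (a * s * b) = (u * a) * s * b := by noncomm_ring
      rw [this]
      exact mul_mem_idg _ _ hs
    · have : (a * s * b) * u = a * s * (b * u) := by noncomm_ring
      rw [this]
      exact mul_mem_idg _ _ hs
  | zero => simp
  | add x y _ _ hx hy =>
    rw [mul_add, add_mul]
    exact ⟨add_mem hx.1 hy.1, add_mem hx.2 hy.2⟩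
  | smul a x _ hx =>
    rw [mul_smul_comm, smul_mul_assoc]
    exact ⟨Submodule.smul_mem _ _ hx.1, Submodule.smul_mem _ _ hx.2⟩

theorem idg_le {S : Set U} {I : Submodule F U} (hI : Idl I) (h : S ⊆ I) : idg F S ≤ I := by
  rw [idg, Submodule.span_le]
  rintro t ⟨u, v, s, hs, rfl⟩
  exact (hI v _ (hI u s (h hs)).1).2

theorem idg_mono {S T : Set U} (h : S ⊆ T) : idg F S ≤ idg F T :=
  idg_le (idl_idg T) (h.trans (subset_idg T))

/-! ### products in an ideal -/

theorem Idl.prod_mem {A : Submodule F U} (hA : Idl A) {l : List U} (hne : l ≠ [])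
    (hl : ∀ a ∈ l, a ∈ A) : l.prod ∈ A := by
  cases l with
  | nil => exact absurd rfl hne
  | cons a l =>
    rw [List.prod_cons]
    exact (hA _ a (hl a (List.mem_cons_self ..))).2

theorem Idl.pow_mem {A : Submodule F U} (hA : Idl A) {x : U} (hx : x ∈ A) {n : ℕ} (hn : 1 ≤ n) :
    x ^ n ∈ A := by
  obtain ⟨k, rfl⟩ := Nat.exists_eq_add_of_le' hn
  rw [pow_succ]
  exact (hA _ x hx).1

/-- polynomials without constant term -/
theorem Idl.aeval_mem {A : Submodule F U} (hA : Idl A) {c : U} (hc : c ∈ A) {p : Polynomial F}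
    (hp : p.coeff 0 = 0) : Polynomial.aeval c p ∈ A := by
  obtain ⟨q, rfl⟩ := Polynomial.X_dvd_iff.2 hp
  rw [map_mul, Polynomial.aeval_X]
  exact (hA _ c hc).2

/-- every element is a linear combination of values of words -/
theorem mem_span_words {s : ℕ} {g : Fin s → U} (hg : Algebra.adjoin F (Set.range g) = ⊤) (u : U) :
    u ∈ Submodule.span F {t | ∃ w : List (Fin s), t = (w.map g).prod} := by
  have hu : u ∈ Algebra.adjoin F (Set.range g) := by rw [hg]; trivial
  induction hu using Algebra.adjoin_induction with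
  | mem x hx =>
    obtain ⟨i, rfl⟩ := hx
    exact Submodule.subset_span ⟨[i], by simp⟩
  | algebraMap r =>
    rw [Algebra.algebraMap_eq_smul_one]
    exact Submodule.smul_mem _ _ (Submodule.subset_span ⟨[], by simp⟩)
  | add x y _ _ hx hy => exact add_mem hx hy
  | mul x y _ _ hx hy =>
    have h := Submodule.mul_mem_mul hx hy
    rw [Submodule.span_mul_span] at h
    refine Submodule.span_mono ?_ h
    rintro _ ⟨_, ⟨w, rfl⟩, _, ⟨w', rfl⟩, rfl⟩
    exact ⟨w ++ w', by simp⟩

/-! ### coefficients and values -/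

@[simp] theorem cf_zero (w : List (Fin 3)) : cf (0 : FreeAlgebra F (Fin 3)) w = 0 := by
  simp [cf]

@[simp] theorem cf_add (f g : FreeAlgebra F (Fin 3)) (w : List (Fin 3)) :
    cf (f + g) w = cf f w + cf g w := by simp [cf]

@[simp] theorem cf_smul (a : F) (f : FreeAlgebra F (Fin 3)) (w : List (Fin 3)) :
    cf (a • f) w = a * cf f w := by simp [cf]

@[simp] theorem cf_sub (f g : FreeAlgebra F (Fin 3)) (w : List (Fin 3)) :
    cf (f - g) w = cf f w - cf g w := by simp [cf]

/-- the element of the free algebra given by a word -/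
noncomputable def wd (F : Type) [CommRing F] (w : List (Fin 3)) : FreeAlgebra F (Fin 3) :=
  (w.map (FreeAlgebra.ι F)).prod

theorem wd_append (w w' : List (Fin 3)) : wd F (w ++ w') = wd F w * wd F w' := by
  simp [wd]

theorem basis_eq_wd (w : FreeMonoid (Fin 3)) :
    FreeAlgebra.basisFreeMonoid F (Fin 3) w = wd F w.toList := by
  have h1 : FreeAlgebra.basisFreeMonoid F (Fin 3) w =
      FreeAlgebra.equivMonoidAlgebraFreeMonoid.symm
        (MonoidAlgebra.of F (FreeMonoid (Fin 3)) w) := by
    rfl
  rw [h1]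
  induction w using FreeMonoid.recOn with
  | one => rw [map_one, map_one]; simp [wd]
  | of_mul a w ih =>
    have h3 : wd F (FreeMonoid.of a * w).toList = FreeAlgebra.ι F a * wd F w.toList := by
      simp [wd]
    rw [h3, map_mul, map_mul, ih rfl]
    congr 1
    rw [AlgEquiv.symm_apply_eq]
    simp [FreeAlgebra.equivMonoidAlgebraFreeMonoid]

theorem cf_wd (w w' : List (Fin 3)) : cf (wd F w) w' = if w = w' then 1 else 0 := by
  classical
  have h : wd F w = FreeAlgebra.basisFreeMonoid F (Fin 3) (FreeMonoid.ofList w) := by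
    rw [basis_eq_wd]; rfl
  rw [cf, h, Module.Basis.repr_self, Finsupp.single_apply]
  by_cases hw : w = w'
  · rw [if_pos hw, if_pos (by rw [hw])]
  · rw [if_neg hw, if_neg (fun h' => hw (FreeMonoid.ofList.injective h'))]

/-- the support of an element of the free algebra -/
noncomputable def supp (f : FreeAlgebra F (Fin 3)) : Finset (List (Fin 3)) :=
  ((FreeAlgebra.basisFreeMonoid F (Fin 3)).repr f).support

theorem mem_supp {f : FreeAlgebra F (Fin 3)} {w : List (Fin 3)} : w ∈ supp f ↔ cf f w ≠ 0 :=
  Finsupp.mem_support_iff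

theorem eq_sum_wd (f : FreeAlgebra F (Fin 3)) : f = ∑ w ∈ supp f, cf f w • wd F w := by
  have h := (FreeAlgebra.basisFreeMonoid F (Fin 3)).linearCombination_repr f
  rw [Finsupp.linearCombination_apply, Finsupp.sum] at h
  refine h.symm.trans ?_
  refine Finset.sum_congr rfl fun w _ => ?_
  exact congrArg _ (basis_eq_wd w)

theorem cf_ext {f g : FreeAlgebra F (Fin 3)} (h : ∀ w, cf f w = cf g w) : f = g := by
  apply (FreeAlgebra.basisFreeMonoid F (Fin 3)).repr.injective
  ext w
  exact h w

theorem ev_wd (x y z : U) (w : List (Fin 3)) :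
    ev x y z (wd F w) = (w.map ![x, y, z]).prod := by
  rw [ev, wd, map_list_prod, List.map_map]
  congr 1
  apply List.map_congr_left
  intro i _
  simp

theorem ev_eq_sum (x y z : U) (f : FreeAlgebra F (Fin 3)) :
    ev x y z f = ∑ w ∈ supp f, cf f w • (w.map ![x, y, z]).prod := by
  conv_lhs => rw [eq_sum_wd f]
  rw [map_sum]
  apply Finset.sum_congr rfl
  intro w _
  rw [map_smul, ev_wd]

theorem tri_monomial (c x z : U) (m : Fin 3 →₀ ℕ) (a : F) :
    tri c x z (monomial m a) = a • (c ^ m 1 * x * c ^ m 0 * z * c ^ m 2) := by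
  have h : (monomial m a : MvPolynomial (Fin 3) F) = a • (basisMonomials (Fin 3) F) m := by
    rw [coe_basisMonomials, smul_monomial, smul_eq_mul, mul_one]
  rw [tri, h, map_smul, Module.Basis.constr_basis]

theorem tri_eq_sum (c x z : U) (P : MvPolynomial (Fin 3) F) :
    tri c x z P = ∑ m ∈ P.support, coeff m P • (c ^ m 1 * x * c ^ m 0 * z * c ^ m 2) := by
  conv_lhs => rw [P.as_sum]
  rw [map_sum]
  exact Finset.sum_congr rfl fun m _ => tri_monomial _ _ _ _ _

/-! ### values of words in powers of ideals -/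

theorem word_mem {I : Submodule F U} (hI : Idl I) {i j : ℕ} {x z : U} (y : U)
    (hx : x ∈ ip I i) (hz : z ∈ ip I j) (w : List (Fin 3)) :
    (w.map ![x, y, z]).prod ∈ ip I (w.count 0 * i + w.count 2 * j) := by
  induction w with
  | nil => simp [ip]
  | cons a w ih =>
    rw [List.map_cons, List.prod_cons]
    fin_cases a
    · have h := mul_mem_ip hI hx ih
      have e : i + (w.count 0 * i + w.count 2 * j) =
          (List.count 0 (0 :: w)) * i + (List.count 2 (0 :: w)) * j := by
        rw [List.count_cons_self, List.count_cons_of_ne (by decide)]; ring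
      change x * _ ∈ ip I ((List.count 0 (0 :: w)) * i + (List.count 2 (0 :: w)) * j)
      rw [← e]; exact h
    · have e : (w.count 0 * i + w.count 2 * j) =
          (List.count 0 (1 :: w)) * i + (List.count 2 (1 :: w)) * j := by
        rw [List.count_cons_of_ne (by decide), List.count_cons_of_ne (by decide)]
      change y * _ ∈ ip I ((List.count 0 (1 :: w)) * i + (List.count 2 (1 :: w)) * j)
      rw [← e]
      exact (idl_ip hI _ y _ ih).1
    · have h := mul_mem_ip hI hz ih
      have e : j + (w.count 0 * i + w.count 2 * j) =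
          (List.count 0 (2 :: w)) * i + (List.count 2 (2 :: w)) * j := by
        rw [List.count_cons_self, List.count_cons_of_ne (by decide)]; ring
      change z * _ ∈ ip I ((List.count 0 (2 :: w)) * i + (List.count 2 (2 :: w)) * j)
      rw [← e]; exact h

theorem ev_err_mem {e : FreeAlgebra F (Fin 3)} (he : Err e) {I : Submodule F U} (hI : Idl I)
    {i j : ℕ} (hi : 1 ≤ i) (hj : 1 ≤ j) {x z : U} (y : U) (hx : x ∈ ip I i) (hz : z ∈ ip I j) :
    ev x y z e ∈ ip I (i + j + 1) := by
  rw [ev_eq_sum]
  refine Submodule.sum_mem _ fun w hw => Submodule.smul_mem _ _ ?_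
  obtain ⟨h1, h2, h3⟩ := he w (mem_supp.1 hw)
  refine ip_le hI ?_ (word_mem hI y hx hz w)
  rcases Nat.lt_or_ge 1 (w.count 0) with h | h
  · have a1 : 2 * i ≤ w.count 0 * i := Nat.mul_le_mul_right _ h
    have a2 : 1 * j ≤ w.count 2 * j := Nat.mul_le_mul_right _ h2
    omega
  · have h4 : 2 ≤ w.count 2 := by omega
    have a1 : 1 * i ≤ w.count 0 * i := Nat.mul_le_mul_right _ h1
    have a2 : 2 * j ≤ w.count 2 * j := Nat.mul_le_mul_right _ h4
    omega

end

end Pool.Agent.N62.RK
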