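import Pool.Agent.N62.RK.Stm

/-!
Task COMB (project RK of helper62): one law for all primes. By helper401.
-/

set_option autoImplicit false

namespace Pool.Agent.N62.RK.COMB

section

variable {F : Type} [CommRing F] {U : Type} [Ring U] [Algebra F U]

/-- the word as an element of the free algebra -/
noncomputable def wd (w : List (Fin 3)) : FreeAlgebra F (Fin 3) := (w.map (FreeAlgebra.ι F)).prod

theorem basis_eq (w : FreeMonoid (Fin 3)) :
    FreeAlgebra.basisFreeMonoid F (Fin 3) w = wd w.toList := by
  have h : FreeAlgebra.basisFreeMonoid F (Fin 3) w =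
      FreeAlgebra.equivMonoidAlgebraFreeMonoid.symm (MonoidAlgebra.single w (1 : F)) := by
    rfl
  rw [h]
  have h2 : FreeAlgebra.equivMonoidAlgebraFreeMonoid.symm (MonoidAlgebra.single w (1 : F)) =
      MonoidAlgebra.lift F (FreeAlgebra F (Fin 3)) (FreeMonoid (Fin 3))
        (FreeMonoid.lift (FreeAlgebra.ι F)) (MonoidAlgebra.single w (1 : F)) := rfl
  rw [h2, MonoidAlgebra.lift_single, one_smul, FreeMonoid.lift_apply]
  rfl

theorem ev_wd (x y z : U) (w : List (Fin 3)) :
    ev x y z (wd w : FreeAlgebra F (Fin 3)) = (w.map ![x, y, z]).prod := by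
  unfold ev wd
  rw [map_list_prod, List.map_map]
  congr 1
  apply List.map_congr_left
  intro a _
  simp

theorem cf_wd (w w' : List (Fin 3)) :
    cf (wd w : FreeAlgebra F (Fin 3)) w' = if w = w' then 1 else 0 := by
  have h : (wd w : FreeAlgebra F (Fin 3)) =
      FreeAlgebra.basisFreeMonoid F (Fin 3) (FreeMonoid.ofList w) := by
    rw [basis_eq]; rfl
  unfold cf
  rw [h, Module.Basis.repr_self]
  by_cases hw : w = w'
  · rw [if_pos hw, hw]
    exact Finsupp.single_eq_same
  · rw [if_neg hw]
    exact Finsupp.single_eq_of_ne (fun h => hw h.symm)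

/-- a linear map is determined by its values at words -/
theorem ext_wd {V : Type} [AddCommGroup V] [Module F V] {φ ψ : FreeAlgebra F (Fin 3) →ₗ[F] V}
    (h : ∀ w, φ (wd w) = ψ (wd w)) : φ = ψ := by
  apply (FreeAlgebra.basisFreeMonoid F (Fin 3)).ext
  intro w
  rw [basis_eq]
  exact h _

/-- coefficients as linear maps -/
noncomputable def cfl (w : List (Fin 3)) : FreeAlgebra F (Fin 3) →ₗ[F] F :=
  (FreeAlgebra.basisFreeMonoid F (Fin 3)).coord (FreeMonoid.ofList w)

theorem cfl_apply (w : List (Fin 3)) (f : FreeAlgebra F (Fin 3)) : cfl w f = cf f w := rfl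

theorem cf_add (f g : FreeAlgebra F (Fin 3)) (w : List (Fin 3)) :
    cf (f + g) w = cf f w + cf g w := by
  rw [← cfl_apply, map_add]; rfl

/-- the substitution `x ↦ x y^N` on words -/
def sw (N : ℕ) (w : List (Fin 3)) : List (Fin 3) :=
  w.flatMap fun a => if a = 0 then 0 :: List.replicate N 1 else [a]

theorem sw_cons (N : ℕ) (a : Fin 3) (w : List (Fin 3)) :
    sw N (a :: w) = (if a = 0 then 0 :: List.replicate N 1 else [a]) ++ sw N w := by
  simp [sw]

theorem count_sw (N : ℕ) (w : List (Fin 3)) : (sw N w).count 0 = w.count 0 := by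
  induction w with
  | nil => simp [sw]
  | cons a w ih =>
    rw [sw_cons, List.count_append, ih]
    fin_cases a
    · have h : (List.replicate N (1 : Fin 3)).count 0 = 0 := by
        rw [List.count_replicate]; simp
      simp [h, add_comm]
    · simp
    · simp

theorem sw_of_count (N : ℕ) {w : List (Fin 3)} (h : w.count 0 = 0) : sw N w = w := by
  induction w with
  | nil => simp [sw]
  | cons a w ih =>
    rw [List.count_cons] at h
    have ha : a ≠ 0 := by
      intro ha
      subst ha
      simp at h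
    rw [sw_cons, if_neg ha, ih (by omega)]
    rfl

theorem prod_sw (x y z : U) (N : ℕ) (w : List (Fin 3)) :
    ((sw N w).map ![x, y, z]).prod = (w.map ![x * y ^ N, y, z]).prod := by
  induction w with
  | nil => simp [sw]
  | cons a w ih =>
    rw [sw_cons, List.map_append, List.prod_append, ih, List.map_cons, List.prod_cons]
    fin_cases a <;> simp

theorem rep_app (N k : ℕ) (v : List (Fin 3))
    (h : List.replicate N (1 : Fin 3) ++ v = List.replicate k 1 ++ [2]) :
    N ≤ k ∧ v = List.replicate (k - N) 1 ++ [2] := by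
  induction N generalizing k with
  | zero => simpa using h
  | succ N ih =>
    cases k with
    | zero =>
      rw [List.replicate_succ, List.cons_append] at h
      simp at h
    | succ k =>
      rw [List.replicate_succ, List.replicate_succ, List.cons_append, List.cons_append,
        List.cons.injEq] at h
      obtain ⟨h1, h2⟩ := ih k h.2
      refine ⟨by omega, ?_⟩
      rw [h2]
      congr 2
      omega

theorem sw_xyz (N k : ℕ) (w : List (Fin 3)) :
    sw N w = xyz k ↔ N ≤ k ∧ w = xyz (k - N) := by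
  constructor
  · intro h
    cases w with
    | nil => simp [sw, xyz] at h
    | cons a w =>
      rw [sw_cons] at h
      by_cases ha : a = 0
      · subst ha
        rw [if_pos rfl] at h
        unfold xyz at h
        rw [List.cons_append, List.cons.injEq] at h
        have h1 := h.2
        have hc : (sw N w).count 0 = 0 := by
          have := congrArg (List.count 0) h1
          rw [List.count_append, List.count_append] at this
          have h3 : (List.replicate k (1 : Fin 3)).count 0 = 0 := by
            rw [List.count_replicate]; simp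
          have h4 : ([2] : List (Fin 3)).count 0 = 0 := by simp
          rw [h3, h4] at this
          omega
        rw [count_sw] at hc
        rw [sw_of_count N hc] at h1
        obtain ⟨h5, h6⟩ := rep_app N k w h1
        refine ⟨h5, ?_⟩
        rw [h6]
        rfl
      · rw [if_neg ha] at h
        unfold xyz at h
        rw [List.singleton_append, List.cons.injEq] at h
        exact absurd h.1 ha
  · rintro ⟨h1, rfl⟩
    unfold xyz
    rw [sw_cons, if_pos rfl]
    have h3 : (List.replicate (k - N) (1 : Fin 3) ++ [2]).count 0 = 0 := by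
      rw [List.count_append, List.count_replicate]; simp
    rw [sw_of_count N h3, List.cons_append, ← List.append_assoc, List.replicate_append_replicate]
    congr 3
    omega

/-- the substitution `x ↦ x y^N` -/
noncomputable def sh (N : ℕ) : FreeAlgebra F (Fin 3) →ₐ[F] FreeAlgebra F (Fin 3) :=
  ev (FreeAlgebra.ι F 0 * FreeAlgebra.ι F 1 ^ N) (FreeAlgebra.ι F 1) (FreeAlgebra.ι F 2)

theorem sh_wd (N : ℕ) (w : List (Fin 3)) : sh N (wd w : FreeAlgebra F (Fin 3)) = wd (sw N w) := by
  unfold sh
  rw [ev_wd, ← prod_sw]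
  unfold wd
  congr 1
  apply List.map_congr_left
  intro a _
  fin_cases a <;> rfl

theorem cf_sh (N k : ℕ) (f : FreeAlgebra F (Fin 3)) :
    cf (sh N f) (xyz k) = if N ≤ k then cf f (xyz (k - N)) else 0 := by
  have h : (cfl (xyz k)).comp (sh N : FreeAlgebra F (Fin 3) →ₐ[F] _).toLinearMap =
      if N ≤ k then cfl (xyz (k - N)) else (0 : FreeAlgebra F (Fin 3) →ₗ[F] F) := by
    apply ext_wd
    intro w
    rw [LinearMap.comp_apply, AlgHom.toLinearMap_apply, sh_wd, cfl_apply, cf_wd]
    by_cases hN : N ≤ k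
    · rw [if_pos hN, cfl_apply, cf_wd]
      by_cases hw : w = xyz (k - N)
      · rw [if_pos hw, if_pos ((sw_xyz N k w).2 ⟨hN, hw⟩)]
      · rw [if_neg hw, if_neg fun h => hw ((sw_xyz N k w).1 h).2]
    · rw [if_neg hN, if_neg fun h => hN ((sw_xyz N k w).1 h).1]
      rfl
  have h1 := congrArg (fun φ : FreeAlgebra F (Fin 3) →ₗ[F] F => φ f) h
  simp only [LinearMap.comp_apply, AlgHom.toLinearMap_apply, cfl_apply] at h1
  rw [h1]
  split_ifs
  · rfl
  · rfl

theorem ev_sh (x y z : U) (N : ℕ) (f : FreeAlgebra F (Fin 3)) :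
    ev x y z (sh N f) = ev (x * y ^ N) y z f := by
  have h : (ev x y z : FreeAlgebra F (Fin 3) →ₐ[F] U).toLinearMap.comp (sh N).toLinearMap =
      (ev (x * y ^ N) y z : FreeAlgebra F (Fin 3) →ₐ[F] U).toLinearMap := by
    apply ext_wd
    intro w
    rw [LinearMap.comp_apply, AlgHom.toLinearMap_apply, AlgHom.toLinearMap_apply,
      AlgHom.toLinearMap_apply, sh_wd, ev_wd, ev_wd, prod_sw]
  exact congrArg (fun φ : FreeAlgebra F (Fin 3) →ₗ[F] U => φ f) h

theorem xyz_inj : Function.Injective xyz := by
  intro k l h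
  have := congrArg List.length h
  simpa [xyz] using this

/-- the coefficients vanish for long words -/
theorem exists_bound (f : FreeAlgebra F (Fin 3)) : ∃ N : ℕ, ∀ k, N ≤ k → cf f (xyz k) = 0 := by
  have hfin : {k : ℕ | cf f (xyz k) ≠ 0}.Finite := by
    refine Set.Finite.of_finite_image (f := fun k => FreeMonoid.ofList (xyz k))
      (((FreeAlgebra.basisFreeMonoid F (Fin 3)).repr f).support.finite_toSet.subset ?_) ?_
    · rintro w ⟨k, hk, rfl⟩
      rw [Finset.mem_coe, Finsupp.mem_support_iff]
      exact hk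
    · intro k _ l _ h
      exact xyz_inj (FreeMonoid.ofList.injective h)
  obtain ⟨B, hB⟩ := hfin.bddAbove
  refine ⟨B + 1, fun k hk => ?_⟩
  by_contra h
  have := hB h
  omega

/-- the ideal of the coefficients of the words `x y^k z` -/
noncomputable def cI (f : FreeAlgebra F (Fin 3)) : Ideal F :=
  Ideal.span (Set.range fun k : ℕ => cf f (xyz k))

theorem cI_sum (f g : FreeAlgebra F (Fin 3)) : ∃ N, cI f ⊔ cI g ≤ cI (f + sh N g) := by
  obtain ⟨N, hN⟩ := exists_bound f
  refine ⟨N, sup_le ?_ ?_⟩
  · unfold cI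
    rw [Ideal.span_le]
    rintro _ ⟨k, rfl⟩
    by_cases hk : N ≤ k
    · simp only [hN k hk]
      exact zero_mem _
    · apply Ideal.subset_span
      refine ⟨k, ?_⟩
      simp only
      rw [cf_add, cf_sh, if_neg hk, add_zero]
  · unfold cI
    rw [Ideal.span_le]
    rintro _ ⟨k, rfl⟩
    apply Ideal.subset_span
    refine ⟨k + N, ?_⟩
    simp only
    rw [cf_add, cf_sh, if_pos (by omega), hN _ (by omega), zero_add, Nat.add_sub_cancel]

end

theorem inr_mul_pow (R : Type) [NonUnitalRing R] (x y : R) (N : ℕ) :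
    ∃ r : R, (x : Unitization ℤ R) * (y : Unitization ℤ R) ^ N = (r : Unitization ℤ R) := by
  induction N with
  | zero => exact ⟨x, by rw [pow_zero, mul_one]⟩
  | succ N ih =>
    obtain ⟨r, hr⟩ := ih
    exact ⟨r * y, by rw [pow_succ, ← mul_assoc, hr, Unitization.inr_mul]⟩

theorem t : S_COMB := by
  intro E hE
  let Good : FreeAlgebra ℤ (Fin 3) → Prop := fun f =>
    ∀ (R : Type) [NonUnitalRing R], (∀ g ∈ E, Sat R g) → Law3 ℤ R f
  have hadd : ∀ f g, Good f → Good g → Good (f + g) := by
    intro f g hf hg R _ hR x y z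
    rw [map_add, hf R hR x y z, hg R hR x y z, add_zero]
  have hsh : ∀ N f, Good f → Good (sh N f) := by
    intro N f hf R _ hR x y z
    rw [ev_sh]
    obtain ⟨r, hr⟩ := inr_mul_pow R x y N
    rw [hr]
    exact hf R hR r y z
  let S : Set (Ideal ℤ) := {I | ∃ f, Good f ∧ cI f = I}
  have hS : S.Nonempty := by
    refine ⟨_, 0, ?_, rfl⟩
    intro R _ _ x y z
    rw [map_zero]
  obtain ⟨I, ⟨f, hf, rfl⟩, hmax⟩ :=
    WellFounded.has_min (wellFounded_gt : WellFounded ((· > ·) : Ideal ℤ → Ideal ℤ → Prop)) S hS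
  refine ⟨f, ?_, hf⟩
  by_contra hne
  obtain ⟨m, hm, hle⟩ := Ideal.exists_le_maximal (cI f) hne
  have hbot : m ≠ ⊥ := Ring.ne_bot_of_isMaximal_of_not_isField hm Int.not_isField
  have hpr := Submodule.IsPrincipal.prime_generator_of_isPrime m hbot
  have hp := Int.prime_iff_natAbs_prime.1 hpr
  obtain ⟨g, k, hk, hg⟩ := hE _ hp
  rw [Int.natAbs_dvd, ← Submodule.IsPrincipal.mem_iff_generator_dvd] at hk
  obtain ⟨N, hN⟩ := cI_sum f g
  apply hmax (cI (f + sh N g)) ⟨_, hadd _ _ hf (hsh N g hg), rfl⟩
  refine lt_of_le_of_ne (le_sup_left.trans hN) fun h => hk ?_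
  apply hle
  rw [h]
  apply hN
  apply Ideal.mem_sup_right
  exact Ideal.subset_span ⟨k, rfl⟩

end Pool.Agent.N62.RK.COMB
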