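import Pool.Agent.N62.RK.Stm

/-!
Locally residually finite varieties of rings, task FI (helper152): ideals of finite index of a
finitely generated ring are finitely generated rings.
-/

set_option autoImplicit false

namespace Pool.Agent.N62.RK.FI

variable {A : Type} [NonUnitalRing A]

/-- multiplication from the left by an optional element -/
def lm {V : Set A} (o : Option V) (a : A) : A := match o with
  | none => a
  | some v => v.1 * a

/-- multiplication from the right by an optional element -/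
def rm {V : Set A} (a : A) (o : Option V) : A := match o with
  | none => a
  | some v => a * v.1

theorem rm_add {V : Set A} (a b : A) (o : Option V) : rm (a + b) o = rm a o + rm b o := by
  cases o with
  | none => rfl
  | some v => exact add_mul _ _ _

theorem rm_mul {V : Set A} (a b : A) (o : Option V) : rm (a * b) o = a * rm b o := by
  cases o with
  | none => rfl
  | some v => exact mul_assoc _ _ _

theorem t : S_FI := by
  intro F _ hF A _ _ _ _ hA B hB hfin
  classical
  obtain ⟨S, hS⟩ := hA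
  -- representatives of the cosets
  obtain ⟨s, hs0, hs⟩ : ∃ s : (A ⧸ B.toSubmodule) → A, s 0 = 0 ∧
      ∀ q, B.toSubmodule.mkQ (s q) = q := by
    obtain ⟨g, hg⟩ := B.toSubmodule.mkQ_surjective.hasRightInverse
    refine ⟨fun q => g q - g 0, sub_self _, fun q => ?_⟩
    show B.toSubmodule.mkQ (g q - g 0) = q
    rw [map_sub, hg q, hg 0, sub_zero]
  obtain ⟨V, hV⟩ : ∃ V : Set A, V = Set.range s := ⟨_, rfl⟩
  have hVfin : Finite V := by
    rw [hV]
    exact (Set.finite_range s).to_subtype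
  have hV0 : (0 : A) ∈ V := by
    rw [hV]
    exact ⟨0, hs0⟩
  have hVB : ∀ v ∈ V, v ∈ B → v = 0 := by
    intro v hv hvB
    rw [hV] at hv
    obtain ⟨q, rfl⟩ := hv
    have h1 : B.toSubmodule.mkQ (s q) = 0 := by
      rw [Submodule.mkQ_apply, Submodule.Quotient.mk_eq_zero]
      exact hvB
    rw [hs q] at h1
    rw [h1, hs0]
  have hdec : ∀ a : A, ∃ b ∈ B, ∃ v ∈ V, b + v = a := by
    intro a
    refine ⟨a - s (B.toSubmodule.mkQ a), ?_, s (B.toSubmodule.mkQ a), ?_, sub_add_cancel _ _⟩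
    · show a - s (B.toSubmodule.mkQ a) ∈ B.toSubmodule
      rw [← Submodule.Quotient.mk_eq_zero, ← Submodule.mkQ_apply, map_sub, hs, sub_self]
    · rw [hV]
      exact ⟨_, rfl⟩
  choose pB hpB pV hpV hp using hdec
  -- the generators
  set B1 : Set A := (Set.range (fun q : V × V => pB (q.1.1 * q.2.1)) ∪
    Set.range (fun q : V × V => pB (q.1.1 + q.2.1))) ∪
    (Set.range (fun q : V => pB (-q.1)) ∪ pB '' (S : Set A)) with hB1
  have hB1fin : B1.Finite := ((Set.finite_range _).union (Set.finite_range _)).union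
    ((Set.finite_range _).union (S.finite_toSet.image _))
  have hB1B : ∀ b ∈ B1, b ∈ B := by
    rintro b ((⟨q, rfl⟩ | ⟨q, rfl⟩) | (⟨q, rfl⟩ | ⟨x, -, rfl⟩))
    · exact hpB _
    · exact hpB _
    · exact hpB _
    · exact hpB _
  have : Finite B1 := hB1fin
  set T : Set A := Set.range (fun q : B1 × Option V × Option V =>
    rm (lm q.2.1 q.1.1) q.2.2) with hT
  have hTfin : T.Finite := Set.finite_range _
  have hTm : ∀ b ∈ B1, ∀ o o' : Option V, rm (lm o b) o' ∈ T := fun b hb o o' =>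
    ⟨(⟨b, hb⟩, o, o'), rfl⟩
  have hTB : T ⊆ B := by
    rintro _ ⟨⟨b, o, o'⟩, rfl⟩
    have h1 : lm o b.1 ∈ B := by
      cases o with
      | none => exact hB1B _ b.2
      | some v => exact (hB v.1 _ (hB1B _ b.2)).1
    cases o' with
    | none => exact h1
    | some v => exact (hB v.1 _ h1).2
  set C : NonUnitalSubalgebra F A := NonUnitalAlgebra.adjoin F T with hC
  have hTC : T ⊆ C := NonUnitalAlgebra.subset_adjoin F
  have hCB : C ≤ B := NonUnitalAlgebra.adjoin_le hTB
  have hB1T : ∀ b ∈ B1, b ∈ C := fun b hb => hTC (hTm b hb none none)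
  have hmulB : ∀ v ∈ V, ∀ v' ∈ V, pB (v * v') ∈ B1 := fun v hv v' hv' =>
    Or.inl (Or.inl ⟨(⟨v, hv⟩, ⟨v', hv'⟩), rfl⟩)
  have haddB : ∀ v ∈ V, ∀ v' ∈ V, pB (v + v') ∈ B1 := fun v hv v' hv' =>
    Or.inl (Or.inr ⟨(⟨v, hv⟩, ⟨v', hv'⟩), rfl⟩)
  have hnegB : ∀ v ∈ V, pB (-v) ∈ B1 := fun v hv => Or.inr (Or.inl ⟨⟨v, hv⟩, rfl⟩)
  -- V C and C V
  have hVC : ∀ v ∈ V, ∀ a ∈ C, v * a ∈ C := by
    intro v hv a ha
    induction ha using NonUnitalAlgebra.adjoin_induction with
    | mem x hx =>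
      obtain ⟨⟨b, o, o'⟩, rfl⟩ := hx
      simp only
      rw [← rm_mul]
      cases o with
      | none => exact hTC (hTm b.1 b.2 (some ⟨v, hv⟩) o')
      | some v1 =>
        have e : v * lm (some v1) b.1 = pB (v * v1.1) * b.1 + lm (some ⟨pV (v * v1.1), hpV _⟩) b.1 := by
          show v * (v1.1 * b.1) = pB (v * v1.1) * b.1 + pV (v * v1.1) * b.1
          rw [← add_mul, hp, mul_assoc]
        rw [e, rm_add, rm_mul]
        exact C.add_mem (C.mul_mem (hB1T _ (hmulB v hv v1.1 v1.2)) (hTC (hTm b.1 b.2 none o')))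
          (hTC (hTm b.1 b.2 (some ⟨pV (v * v1.1), hpV _⟩) o'))
    | add x y _ _ hx hy => rw [mul_add]; exact C.add_mem hx hy
    | zero => rw [mul_zero]; exact C.zero_mem
    | mul x y _ hy hx _ => rw [← mul_assoc]; exact C.mul_mem hx hy
    | smul r x _ hx => rw [mul_smul_comm]; exact C.toSubmodule.smul_mem r hx
  have hCV : ∀ v ∈ V, ∀ a ∈ C, a * v ∈ C := by
    intro v hv a ha
    induction ha using NonUnitalAlgebra.adjoin_induction with
    | mem x hx =>
      obtain ⟨⟨b, o, o'⟩, rfl⟩ := hx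
      simp only
      cases o' with
      | none => exact hTC (hTm b.1 b.2 o (some ⟨v, hv⟩))
      | some v1 =>
        have e : rm (lm o b.1) (some v1) * v =
            lm o b.1 * pB (v1.1 * v) + rm (lm o b.1) (some ⟨pV (v1.1 * v), hpV _⟩) := by
          show lm o b.1 * v1.1 * v = lm o b.1 * pB (v1.1 * v) + lm o b.1 * pV (v1.1 * v)
          rw [← mul_add, hp, mul_assoc]
        rw [e]
        exact C.add_mem (C.mul_mem (hTC (hTm b.1 b.2 o none)) (hB1T _ (hmulB v1.1 v1.2 v hv)))
          (hTC (hTm b.1 b.2 o (some ⟨pV (v1.1 * v), hpV _⟩)))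
    | add x y _ _ hx hy => rw [add_mul]; exact C.add_mem hx hy
    | zero => rw [zero_mul]; exact C.zero_mem
    | mul x y hx _ _ hy => rw [mul_assoc]; exact C.mul_mem hx hy
    | smul r x _ hx => rw [smul_mul_assoc]; exact C.toSubmodule.smul_mem r hx
  -- V + C is closed under addition and negation
  have hPadd : ∀ a b : A, (∃ v ∈ V, ∃ c ∈ C, v + c = a) → (∃ v ∈ V, ∃ c ∈ C, v + c = b) →
      ∃ v ∈ V, ∃ c ∈ C, v + c = a + b := by
    rintro _ _ ⟨v, hv, c, hc, rfl⟩ ⟨v', hv', c', hc', rfl⟩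
    refine ⟨pV (v + v'), hpV _, pB (v + v') + (c + c'),
      C.add_mem (hB1T _ (haddB v hv v' hv')) (C.add_mem hc hc'), ?_⟩
    have h1 := hp (v + v')
    calc pV (v + v') + (pB (v + v') + (c + c')) = (pB (v + v') + pV (v + v')) + (c + c') := by abel
      _ = (v + v') + (c + c') := by rw [h1]
      _ = v + c + (v' + c') := by abel
  have hPneg : ∀ a : A, (∃ v ∈ V, ∃ c ∈ C, v + c = a) → ∃ v ∈ V, ∃ c ∈ C, v + c = -a := by
    rintro _ ⟨v, hv, c, hc, rfl⟩
    refine ⟨pV (-v), hpV _, pB (-v) + -c, C.add_mem (hB1T _ (hnegB v hv)) (C.neg_mem hc), ?_⟩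
    have h1 := hp (-v)
    calc pV (-v) + (pB (-v) + -c) = (pB (-v) + pV (-v)) + -c := by abel
      _ = -v + -c := by rw [h1]
      _ = -(v + c) := by abel
  have hP0 : ∃ v ∈ V, ∃ c ∈ C, v + c = (0 : A) := ⟨0, hV0, 0, C.zero_mem, by rw [add_zero]⟩
  have hPz : ∀ (n : ℤ) (a : A), (∃ v ∈ V, ∃ c ∈ C, v + c = a) →
      ∃ v ∈ V, ∃ c ∈ C, v + c = n • a := by
    intro n a ha
    induction n using Int.induction_on with
    | zero => rw [zero_smul]; exact hP0
    | succ n ih => rw [add_smul, one_smul]; exact hPadd _ _ ih ha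
    | pred n ih =>
      rw [sub_smul, one_smul, sub_eq_add_neg]
      exact hPadd _ _ ih (hPneg _ ha)
  -- every element is in V + C
  have hall : ∀ a : A, ∃ v ∈ V, ∃ c ∈ C, v + c = a := by
    intro a
    have ha : a ∈ NonUnitalAlgebra.adjoin F (S : Set A) := by rw [hS]; trivial
    induction ha using NonUnitalAlgebra.adjoin_induction with
    | mem x hx =>
      exact ⟨pV x, hpV x, pB x, hB1T _ (Or.inr (Or.inr ⟨x, hx, rfl⟩)), by rw [add_comm, hp]⟩
    | add x y _ _ hx hy => exact hPadd _ _ hx hy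
    | zero => exact hP0
    | mul x y _ _ hx hy =>
      obtain ⟨v, hv, c, hc, rfl⟩ := hx
      obtain ⟨v', hv', c', hc', rfl⟩ := hy
      refine ⟨pV (v * v'), hpV _, pB (v * v') + (v * c' + (c * v' + c * c')),
        C.add_mem (hB1T _ (hmulB v hv v' hv'))
          (C.add_mem (hVC v hv c' hc') (C.add_mem (hCV v' hv' c hc) (C.mul_mem hc hc'))), ?_⟩
      have h1 := hp (v * v')
      calc pV (v * v') + (pB (v * v') + (v * c' + (c * v' + c * c')))
          = (pB (v * v') + pV (v * v')) + (v * c' + (c * v' + c * c')) := by abel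
        _ = v * v' + (v * c' + (c * v' + c * c')) := by rw [h1]
        _ = (v + c) * (v' + c') := by
          rw [add_mul, mul_add, mul_add]
          abel
    | smul r x _ hx =>
      obtain ⟨n, hn⟩ := hF r
      have h1 : r • x = n • x := by
        rw [← hn]
        show ((n : F)) • x = n • x
        exact Int.cast_smul_eq_zsmul F n x
      rw [h1]
      exact hPz n x hx
  have hBC : ∀ b ∈ B, b ∈ C := by
    intro b hb
    obtain ⟨v, hv, c, hc, h⟩ := hall b
    have hvB : v ∈ B.toSubmodule := by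
      have : v = b - c := by rw [← h]; abel
      rw [this]
      exact B.toSubmodule.sub_mem hb (hCB hc)
    have hv0 := hVB v hv hvB
    rw [← h, hv0, zero_add]; exact hc
  -- generators of B
  have hT'fin : (Subtype.val ⁻¹' T : Set B).Finite :=
    hTfin.preimage Subtype.val_injective.injOn
  refine ⟨hT'fin.toFinset, ?_⟩
  rw [Set.Finite.coe_toFinset]
  rw [eq_top_iff]
  rintro ⟨b, hb⟩ -
  have key : ∀ a ∈ C, ∃ h : a ∈ B, (⟨a, h⟩ : B) ∈
      NonUnitalAlgebra.adjoin F (Subtype.val ⁻¹' T : Set B) := by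
    intro a ha
    induction ha using NonUnitalAlgebra.adjoin_induction with
    | mem x hx => exact ⟨hTB hx, NonUnitalAlgebra.subset_adjoin F hx⟩
    | add x y _ _ hx hy =>
      obtain ⟨h1, h1'⟩ := hx
      obtain ⟨h2, h2'⟩ := hy
      exact ⟨B.add_mem h1 h2, add_mem h1' h2'⟩
    | zero => exact ⟨B.zero_mem, zero_mem _⟩
    | mul x y _ _ hx hy =>
      obtain ⟨h1, h1'⟩ := hx
      obtain ⟨h2, h2'⟩ := hy
      exact ⟨B.mul_mem h1 h2, mul_mem h1' h2'⟩
    | smul r x _ hx =>
      obtain ⟨h1, h1'⟩ := hx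
      exact ⟨B.toSubmodule.smul_mem r h1, SMulMemClass.smul_mem r h1'⟩
  obtain ⟨h1, h2⟩ := key b (hBC b hb)
  exact h2

end Pool.Agent.N62.RK.FI
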