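import Pool.Agent.N62.RK.Stm

/-!
Task FININT: only finitely many ideals of bounded index.  Adapted from `Pool/Agent/N62/RF/FININT.lean`
(helper73) by helper395.
-/

set_option autoImplicit false

namespace Pool.Agent.N62.RK.FININT

theorem table {A B : Type} (q : A → B) (op : A → A → A)
    (h : ∀ a a' b b', q a = q a' → q b = q b' → q (op a b) = q (op a' b')) :
    ∃ T : B → B → B, ∀ a b, q (op a b) = T (q a) (q b) := by
  classical
  refine ⟨fun x y => if h : ∃ a b, q a = x ∧ q b = y then
    q (op h.choose h.choose_spec.choose) else x, fun a b => ?_⟩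
  have hex : ∃ a' b', q a' = q a ∧ q b' = q b := ⟨a, b, rfl, rfl⟩
  beta_reduce
  rw [dif_pos hex]
  exact h _ _ _ _ hex.choose_spec.choose_spec.1.symm hex.choose_spec.choose_spec.2.symm

theorem table1 {A B C : Type} (q : A → B) (op : C → A → A)
    (h : ∀ c a a', q a = q a' → q (op c a) = q (op c a')) :
    ∃ T : C → B → B, ∀ c a, q (op c a) = T c (q a) := by
  classical
  refine ⟨fun c x => if h : ∃ a, q a = x then q (op c h.choose) else x, fun c a => ?_⟩
  have hex : ∃ a', q a' = q a := ⟨a, rfl⟩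
  beta_reduce
  rw [dif_pos hex]
  exact h _ _ _ hex.choose_spec.symm

theorem t : S_FININT := by
  intro F _ hF A _ _ _ _ hA n
  obtain ⟨S, hS⟩ := hA
  let 𝒥 : Set (Submodule F A) := {J' | NIdl F A J' ∧ Finite (A ⧸ J') ∧ Nat.card (A ⧸ J') ≤ n}
  have key : ∀ J' : 𝒥, ∃ (d : Fin n × (Fin n → Fin n → Fin n) × (Fin n → Fin n → Fin n) ×
      (Unit → Fin n → Fin n) × (S → Fin n)) (q : A → Fin n), q 0 = d.1 ∧
      (∀ a b, q (a + b) = d.2.1 (q a) (q b)) ∧ (∀ a b, q (a * b) = d.2.2.1 (q a) (q b)) ∧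
      (∀ (c : Unit) a, q (-a) = d.2.2.2.1 c (q a)) ∧ (∀ s : S, q s = d.2.2.2.2 s) ∧
      ∀ a, a ∈ J'.1 ↔ q a = d.1 := by
    rintro ⟨J', hJ, hfin, hcard⟩
    have hcard' : Nat.card (A ⧸ J') ≤ n := hcard
    let ι : A ⧸ J' → Fin n := fun x => Fin.castLE hcard' (Finite.equivFin (A ⧸ J') x)
    have hι : Function.Injective ι := fun x y h =>
      (Finite.equivFin (A ⧸ J')).injective (Fin.castLE_injective hcard' h)
    let q : A → Fin n := fun a => ι (Submodule.Quotient.mk a)
    have hq : ∀ a b, q a = q b ↔ a - b ∈ J' := by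
      intro a b
      rw [← Submodule.Quotient.eq]
      exact ⟨fun h => hι h, fun h => congrArg ι h⟩
    obtain ⟨T1, hT1⟩ := table q (· + ·) (fun a a' b b' h1 h2 => by
      rw [hq] at h1 h2 ⊢
      have e : a + b - (a' + b') = (a - a') + (b - b') := by abel
      rw [e]
      exact J'.add_mem h1 h2)
    obtain ⟨T2, hT2⟩ := table q (· * ·) (fun a a' b b' h1 h2 => by
      rw [hq] at h1 h2 ⊢
      have e : a * b - a' * b' = (a - a') * b + a' * (b - b') := by
        rw [sub_mul, mul_sub]
        abel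
      rw [e]
      exact J'.add_mem (hJ b _ h1).2 (hJ a' _ h2).1)
    obtain ⟨T3, hT3⟩ := table1 q (fun (_ : Unit) (a : A) => -a) (fun c a a' h1 => by
      rw [hq] at h1 ⊢
      have e : -a - -a' = -(a - a') := by abel
      rw [e]
      exact J'.neg_mem h1)
    refine ⟨(q 0, T1, T2, T3, fun s => q s), q, rfl, hT1, hT2, hT3, fun s => rfl, fun a => ?_⟩
    rw [hq, sub_zero]
  choose d q hq using key
  have hinj : Function.Injective d := by
    intro J1 J2 h
    have heq : ∀ a : A, q J1 a = q J2 a := by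
      intro a
      have ha : a ∈ NonUnitalAlgebra.adjoin F (S : Set A) := by
        rw [hS]
        trivial
      obtain ⟨h1, h2, h3, h4, h5, -⟩ := hq J1
      obtain ⟨k1, k2, k3, k4, k5, -⟩ := hq J2
      induction ha using NonUnitalAlgebra.adjoin_induction with
      | mem x hx => rw [h5 ⟨x, hx⟩, k5 ⟨x, hx⟩, h]
      | add x y _ _ hx hy => rw [h2, k2, hx, hy, h]
      | zero => rw [h1, k1, h]
      | mul x y _ _ hx hy => rw [h3, k3, hx, hy, h]
      | smul r x _ hx =>
        obtain ⟨z, rfl⟩ := hF r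
        rw [eq_intCast, Int.cast_smul_eq_zsmul]
        induction z using Int.induction_on with
        | zero => rw [zero_smul, h1, k1, h]
        | succ i ih => rw [add_smul, one_smul, h2, k2, ih, hx, h]
        | pred i ih => rw [sub_smul, one_smul, sub_eq_add_neg, h2, k2, h4 (), k4 (), ih, hx, h]
    refine Subtype.ext (SetLike.ext fun a => ?_)
    rw [(hq J1).2.2.2.2.2 a, (hq J2).2.2.2.2.2 a, heq, h]
  have hfin : Finite 𝒥 := Finite.of_injective d hinj
  refine ⟨sInf 𝒥, ?_, ?_, fun J' h1 h2 h3 => sInf_le ⟨h1, h2, h3⟩⟩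
  · intro u x hx
    rw [Submodule.mem_sInf] at hx
    constructor
    · rw [Submodule.mem_sInf]
      intro J' hJ'
      exact (hJ'.1 u x (hx J' hJ')).1
    · rw [Submodule.mem_sInf]
      intro J' hJ'
      exact (hJ'.1 u x (hx J' hJ')).2
  · have hfin2 : ∀ J' : 𝒥, Finite (A ⧸ J'.1) := fun J' => J'.2.2.1
    let Φ : (A ⧸ sInf 𝒥) → ((J' : 𝒥) → A ⧸ J'.1) := fun x J' =>
      Submodule.mapQ (sInf 𝒥) J'.1 LinearMap.id
        (by rw [Submodule.comap_id]; exact sInf_le J'.2) x
    refine Finite.of_injective Φ ?_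
    intro x y hxy
    induction x using Submodule.Quotient.induction_on with
    | H a =>
      induction y using Submodule.Quotient.induction_on with
      | H b =>
        rw [Submodule.Quotient.eq, Submodule.mem_sInf]
        intro J' hJ'
        have h1 := congrFun hxy ⟨J', hJ'⟩
        exact (Submodule.Quotient.eq J').1 h1

end Pool.Agent.N62.RK.FININT
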