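import Pool.Agent.N62.RK.Stm

/-!
Task FINU: a torsion ring which is generated by finitely many integral elements, with a nilpotent
ideal `D` containing the commutators, is finite.
-/

set_option autoImplicit false

namespace Pool.Agent.N62.RK.FINU

open Pool.Agent.N62.RK

section

variable {F : Type} [CommRing F] {U : Type} [Ring U] [Algebra F U]

lemma mul_mem_sup (A E D : Submodule F U) (hD : Idl D) {a w : U} (ha : a ∈ A) (hw : w ∈ E ⊔ D) :
    a * w ∈ A * E ⊔ D := by
  obtain ⟨e, he, d, hd, rfl⟩ := Submodule.mem_sup.1 hw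
  rw [mul_add]
  exact Submodule.add_mem _ (Submodule.mem_sup_left (Submodule.mul_mem_mul ha he))
    (Submodule.mem_sup_right (hD a d hd).1)

/-- the product of the algebras `F[g i]` for `i` in a list -/
noncomputable def EL {s : ℕ} (g : Fin s → U) (L : List (Fin s)) : Submodule F U :=
  (L.map fun i => Subalgebra.toSubmodule (Algebra.adjoin F {g i})).prod

lemma EL_cons {s : ℕ} (g : Fin s → U) (i : Fin s) (L : List (Fin s)) :
    EL (F := F) g (i :: L) = Subalgebra.toSubmodule (Algebra.adjoin F {g i}) * EL g L := by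
  unfold EL
  rw [List.map_cons, List.prod_cons]

lemma EL_one {s : ℕ} (g : Fin s → U) (L : List (Fin s)) : (1 : U) ∈ EL (F := F) g L := by
  induction L with
  | nil =>
    unfold EL
    simp only [List.map_nil, List.prod_nil]
    exact Submodule.one_le.1 le_rfl
  | cons i L ih =>
    rw [EL_cons]
    have h := Submodule.mul_mem_mul (M := Subalgebra.toSubmodule (Algebra.adjoin F {g i}))
      (Subalgebra.one_mem (Algebra.adjoin F {g i})) ih
    rwa [one_mul] at h

lemma EL_mul {s : ℕ} (D : Submodule F U) (hD : Idl D) (hc : ∀ u v : U, u * v - v * u ∈ D)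
    (g : Fin s → U) (j : Fin s) (L : List (Fin s)) (hj : j ∈ L) :
    ∀ w ∈ EL (F := F) g L, g j * w ∈ EL g L ⊔ D := by
  induction L with
  | nil => simp at hj
  | cons i L ih =>
    intro w hw
    rw [EL_cons] at hw ⊢
    refine Submodule.mul_induction_on hw ?_ ?_
    · intro a ha e he
      by_cases h : j = i
      · subst h
        refine Submodule.mem_sup_left ?_
        rw [← mul_assoc]
        refine Submodule.mul_mem_mul ?_ he
        exact Subalgebra.mul_mem _ (Algebra.subset_adjoin rfl) ha
      · have hjL : j ∈ L := by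
          rcases List.mem_cons.1 hj with h' | h'
          · exact absurd h' h
          · exact h'
        have e1 : g j * (a * e) = a * (g j * e) + (g j * a - a * g j) * e := by
          noncomm_ring
        rw [e1]
        exact Submodule.add_mem _ (mul_mem_sup _ _ D hD ha (ih hjL e he))
          (Submodule.mem_sup_right (hD e _ (hc _ _)).2)
    · intro x y hx hy
      rw [mul_add]
      exact Submodule.add_mem _ hx hy

/-- `U` is finite modulo `D` -/
lemma top_le {s : ℕ} (D : Submodule F U) (hD : Idl D) (hc : ∀ u v : U, u * v - v * u ∈ D)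
    (g : Fin s → U) (hg : Algebra.adjoin F (Set.range g) = ⊤)
    (hi : ∀ i, ∃ ψ : Polynomial F, ψ.Monic ∧ Polynomial.aeval (g i) ψ = 0) :
    ∃ E : Submodule F U, E.FG ∧ ∀ u : U, u ∈ E ⊔ D := by
  refine ⟨EL g (List.finRange s), ?_, ?_⟩
  · unfold EL
    have hfg : ∀ L : List (Fin s),
        ((L.map fun i => Subalgebra.toSubmodule (Algebra.adjoin F {g i})).prod).FG := by
      intro L
      induction L with
      | nil =>
        simp only [List.map_nil, List.prod_nil]
        rw [Submodule.one_eq_span]
        exact Submodule.fg_span_singleton _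
      | cons i L ih =>
        rw [List.map_cons, List.prod_cons]
        refine Submodule.FG.mul ?_ ih
        refine IsIntegral.fg_adjoin_singleton ?_
        obtain ⟨ψ, h1, h2⟩ := hi i
        exact ⟨ψ, h1, by rwa [← Polynomial.aeval_def]⟩
    exact hfg _
  · have key : ∀ u ∈ Algebra.adjoin F (Set.range g),
        ∀ w ∈ EL (F := F) g (List.finRange s) ⊔ D, u * w ∈ EL g (List.finRange s) ⊔ D := by
      intro u hu
      induction hu using Algebra.adjoin_induction with
      | mem x hx =>
        obtain ⟨j, rfl⟩ := hx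
        intro w hw
        obtain ⟨e, he, d, hd, rfl⟩ := Submodule.mem_sup.1 hw
        rw [mul_add]
        exact Submodule.add_mem _ (EL_mul D hD hc g j _ (List.mem_finRange j) e he)
          (Submodule.mem_sup_right (hD _ d hd).1)
      | algebraMap r =>
        intro w hw
        rw [← Algebra.smul_def]
        exact Submodule.smul_mem _ r hw
      | add x y _ _ hx hy =>
        intro w hw
        rw [add_mul]
        exact Submodule.add_mem _ (hx w hw) (hy w hw)
      | mul x y _ _ hx hy =>
        intro w hw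
        rw [mul_assoc]
        exact hx _ (hy w hw)
    intro u
    have h1 := key u (by rw [hg]; exact Algebra.mem_top) 1
      (Submodule.mem_sup_left (EL_one g _))
    rwa [mul_one] at h1

lemma ip_one (D : Submodule F U) (hD : Idl D) : ip D 1 = D := by
  change ⊤ * D = D
  apply le_antisymm
  · rw [Submodule.mul_le]
    intro m _ n hn
    exact (hD m n hn).1
  · intro d hd
    have := Submodule.mul_mem_mul (M := (⊤ : Submodule F U)) (N := D) (m := 1) (n := d)
      Submodule.mem_top hd
    rwa [one_mul] at this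

lemma ip_pow (D : Submodule F U) (hD : Idl D) (n : ℕ) : ip D (n + 1) = D ^ (n + 1) := by
  induction n with
  | zero => rw [zero_add, ip_one D hD, pow_one]
  | succ n ih =>
    change ip D (n + 1) * D = D ^ (n + 1 + 1)
    rw [ih, pow_succ D (n + 1)]

lemma ip_right (D : Submodule F U) (hD : Idl D) (n : ℕ) {x v : U} (hx : x ∈ ip D (n + 1)) :
    x * v ∈ ip D (n + 1) := by
  change x ∈ ip D n * D at hx
  change x * v ∈ ip D n * D
  refine Submodule.mul_induction_on hx ?_ ?_
  · intro a ha d hd
    rw [mul_assoc]
    exact Submodule.mul_mem_mul ha (hD v d hd).2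
  · intro x y hx hy
    rw [add_mul]
    exact Submodule.add_mem _ hx hy

lemma ip_left (D : Submodule F U) (hD : Idl D) (n : ℕ) {x v : U} (hx : x ∈ ip D (n + 1)) :
    v * x ∈ ip D (n + 1) := by
  rw [ip_pow D hD, pow_succ'] at hx ⊢
  refine Submodule.mul_induction_on hx ?_ ?_
  · intro d hd a ha
    rw [← mul_assoc]
    exact Submodule.mul_mem_mul (hD v d hd).1 ha
  · intro x y hx hy
    rw [mul_add]
    exact Submodule.add_mem _ hx hy

end

theorem t : S_FINU := by
  intro F _ hF U _ _ D s g hD hg hc hnil hG htor hi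
  obtain ⟨E, hE, hED⟩ := top_le D hD hc g hg hi
  -- one step
  have step : ∀ n, ∃ E' : Submodule F U, E'.FG ∧ ip D n ≤ E' ⊔ ip D (n + 1) := by
    intro n
    rcases Nat.eq_zero_or_pos n with rfl | hn
    · refine ⟨E, hE, fun u _ => ?_⟩
      rw [zero_add, ip_one D hD]
      exact hED u
    · obtain ⟨m, rfl⟩ : ∃ m, n = m + 1 := ⟨n - 1, by omega⟩
      obtain ⟨G, hGs, hGi⟩ := hG (m + 1) hn
      refine ⟨E * Submodule.span F (G : Set U) * E,
        (hE.mul (Submodule.fg_span G.finite_toSet)).mul hE, ?_⟩
      refine hGi.trans (sup_le ?_ le_sup_right)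
      unfold idg
      rw [Submodule.span_le]
      rintro _ ⟨u, v, x, hx, rfl⟩
      have hxn : x ∈ ip D (m + 1) := hGs hx
      obtain ⟨e, he, d, hd, rfl⟩ := Submodule.mem_sup.1 (hED u)
      obtain ⟨e', he', d', hd', rfl⟩ := Submodule.mem_sup.1 (hED v)
      have e1 : (e + d) * x * (e' + d') = e * x * e' + (e * x * d' + d * x * (e' + d')) := by
        noncomm_ring
      rw [SetLike.mem_coe, e1]
      refine Submodule.add_mem _ (Submodule.mem_sup_left ?_) (Submodule.mem_sup_right ?_)
      · exact Submodule.mul_mem_mul (Submodule.mul_mem_mul he (Submodule.subset_span hx)) he'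
      · refine Submodule.add_mem _ ?_ ?_
        · change e * x * d' ∈ ip D (m + 1) * D
          exact Submodule.mul_mem_mul (ip_left D hD m hxn) hd'
        · refine ip_right D hD (m + 1) ?_
          rw [ip_pow D hD, pow_succ']
          rw [ip_pow D hD] at hxn
          exact Submodule.mul_mem_mul hd hxn
  have all : ∀ n, ∃ E' : Submodule F U, E'.FG ∧ ⊤ ≤ E' ⊔ ip D n := by
    intro n
    induction n with
    | zero => exact ⟨⊥, Submodule.fg_bot, le_sup_right⟩
    | succ n ih =>
      obtain ⟨E1, h1, h2⟩ := ih
      obtain ⟨E2, h3, h4⟩ := step n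
      refine ⟨E1 ⊔ E2, h1.sup h3, h2.trans ?_⟩
      rw [sup_assoc]
      exact sup_le_sup le_rfl h4
  obtain ⟨n, hn⟩ := hnil
  obtain ⟨E', h1, h2⟩ := all n
  rw [hn, sup_bot_eq, top_le_iff] at h2
  rw [h2] at h1
  have hfin : Module.Finite F U := ⟨h1⟩
  have hfin2 : Module.Finite ℤ F := by
    have hs : Function.Surjective (algebraMap ℤ F) := hF
    exact Module.Finite.of_surjective (Algebra.linearMap ℤ F) hs
  have hfin3 : Module.Finite ℤ U := Module.Finite.trans F U
  apply Module.finite_of_fg_torsion
  obtain ⟨k, hk, hk1⟩ := htor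
  intro u
  refine ⟨⟨(k : ℤ), mem_nonZeroDivisors_of_ne_zero (by omega)⟩, ?_⟩
  change (k : ℤ) • u = 0
  rw [natCast_zsmul, ← mul_one u, ← mul_smul_comm, hk1, mul_zero]

end Pool.Agent.N62.RK.FINU
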