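import Pool.Agent.N62.RK.NilCase

/-!
Locally residually finite varieties of rings: the main theorem from the tasks.
-/

set_option autoImplicit false

namespace Pool.Agent.N62.RK

open MvPolynomial

/-- `R` satisfies all identities of `E` -/
def InVar (E : Set FreeR) (R : Type) [NonUnitalRing R] : Prop := ∀ f ∈ E, Sat R f

/-- the variety defined by `E` is locally residually finite -/
def LocRF (E : Set FreeR) : Prop :=
  ∀ (R : Type) [NonUnitalRing R], InVar E R → FGR R → RFR R

/-- ring homomorphisms are `ℤ`-linear -/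
def toAlg {A B : Type} [NonUnitalRing A] [NonUnitalRing B] (φ : A →ₙ+* B) : A →ₙₐ[ℤ] B :=
  { φ with map_smul' := fun n a => map_zsmul φ n a }

theorem free_ext {A : Type} [NonUnitalRing A] {φ₁ φ₂ : FreeR →ₙ+* A}
    (h : ∀ i : ℕ, φ₁ (MonoidAlgebra.single (FreeSemigroup.of i) 1) =
      φ₂ (MonoidAlgebra.single (FreeSemigroup.of i) 1)) : φ₁ = φ₂ := by
  have h2 : toAlg φ₁ = toAlg φ₂ := by
    refine MonoidAlgebra.nonUnitalAlgHom_ext ℤ fun x => ?_
    induction x using FreeSemigroup.recOnMul with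
    | ih1 x => exact h x
    | ih2 x y h1 h2 =>
      have e : (MonoidAlgebra.single (FreeSemigroup.of x * y) 1 : FreeR) =
          MonoidAlgebra.single (FreeSemigroup.of x) 1 * MonoidAlgebra.single y 1 := by
        rw [MonoidAlgebra.single_mul_single, mul_one]
      rw [e, map_mul, map_mul, h1, h2]
  ext x
  exact congrArg (fun ψ : FreeR →ₙₐ[ℤ] A => ψ x) h2

theorem Sat.of_surjective {A B : Type} [NonUnitalRing A] [NonUnitalRing B] {f : FreeR}
    (φ : A →ₙ+* B) (hφ : Function.Surjective φ) (h : Sat A f) : Sat B f := by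
  intro ψ
  choose b hb using fun n : ℕ => hφ (ψ (MonoidAlgebra.single (FreeSemigroup.of n) 1))
  let θ : FreeR →ₙₐ[ℤ] A := MonoidAlgebra.liftMagma ℤ (FreeSemigroup.lift b)
  let θ' : FreeR →ₙ+* A := (θ : FreeR →ₙ+* A)
  have hθ : ∀ i, θ' (MonoidAlgebra.single (FreeSemigroup.of i) 1) = b i := by
    intro i
    change θ (MonoidAlgebra.single (FreeSemigroup.of i) 1) = b i
    simp [θ, MonoidAlgebra.liftMagma_apply_apply]
  have h1 : ψ = φ.comp θ' := by
    apply free_ext
    intro i
    change ψ (MonoidAlgebra.single (FreeSemigroup.of i) 1) =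
      φ (θ' (MonoidAlgebra.single (FreeSemigroup.of i) 1))
    rw [hθ, hb]
  rw [h1]
  change φ (θ' f) = 0
  rw [h, map_zero]

section

variable {F : Type} [CommRing F]

theorem exists_incl {A : Type} [NonUnitalRing A] [Module F A] [IsScalarTower F A A]
    [SMulCommClass F A A] (B : NonUnitalSubalgebra F A) :
    ∃ j : Unitization F B →ₐ[F] Unitization F A, Function.Injective j ∧
      ∀ b : B, j (Unitization.inr b) = Unitization.inr (b : A) := by
  let j : Unitization F B →ₐ[F] Unitization F A :=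
    Unitization.lift ((Unitization.inrNonUnitalAlgHom F A).comp (NonUnitalSubalgebraClass.subtype B))
  have hj : ∀ b : B, j (Unitization.inr b) = Unitization.inr (b : A) := by
    intro b
    simp [j]
  refine ⟨j, ?_, hj⟩
  intro u v huv
  induction u using Unitization.ind with
  | inl_add_inr r a =>
    induction v using Unitization.ind with
    | inl_add_inr s b =>
      rw [map_add, map_add, hj, hj] at huv
      have h1 : ∀ t : F, j (Unitization.inl t) = Unitization.inl t := fun t =>
        AlgHom.commutes j t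
      rw [h1, h1] at huv
      have e1 : r = s := by
        have := congrArg (fun w : Unitization F A => w.fst) huv
        simpa using this
      have e2 : (a : A) = b := by
        have := congrArg (fun w : Unitization F A => w.snd) huv
        simpa using this
      rw [e1, Subtype.ext e2]

theorem Law3.sub {A : Type} [NonUnitalRing A] [Module F A] [IsScalarTower F A A]
    [SMulCommClass F A A] {f : FreeAlgebra F (Fin 3)} (h : Law3 F A f)
    (B : NonUnitalSubalgebra F A) : Law3 F B f := by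
  intro x y z
  obtain ⟨j, hinj, hj⟩ := exists_incl B
  apply hinj
  rw [map_zero, ← h x y z, ev_eq_sum, ev_eq_sum, map_sum]
  refine Finset.sum_congr rfl fun w _ => ?_
  rw [map_smul, map_list_prod, List.map_map]
  congr 3
  funext i
  fin_cases i <;> simp [hj]

/-- the case of algebras over a quotient of `ℤ`, in terms of ideals -/
theorem rfi_of (hInt : S_INT) (hLE : S_LAWEXT) (hMpi : S_MPI) (hGen : S_GEN) (hLay : S_LAYER)
    (hX : S_ARPX) (hNil : S_NILP) (hCl : S_CLAIM) (hH : S_HFIN) (hFin : S_FINU)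
    (hMaxl : S_MAXL) (hFI : S_FI) (hUp : S_UP) (hF : Cyc F) {f : FreeAlgebra F (Fin 3)}
    (hf : PrimF f) {A : Type} [NonUnitalRing A] [Module F A] [IsScalarTower F A A]
    [SMulCommClass F A A] (hfg : FGA F A) (hlaw : Law3 F A f) : RFi F A := by
  obtain ⟨J, hJ, hJf, hJn⟩ := hMaxl F hF f hf A hfg hlaw
  let B : NonUnitalSubalgebra F A :=
    { carrier := J
      add_mem' := fun h h' => J.add_mem h h'
      zero_mem' := J.zero_mem
      mul_mem' := fun {a b} _ h' => (hJ a b h').1
      smul_mem' := fun c x hx => J.smul_mem c hx }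
  have hBJ : B.toSubmodule = J := by
    ext x
    rfl
  have hB : NIdl F A B.toSubmodule := by rw [hBJ]; exact hJ
  have hBf : Finite (A ⧸ B.toSubmodule) := by rw [hBJ]; exact hJf
  apply hUp F A B hB hBf
  refine nilCase hInt hLE hMpi hGen hLay hX hNil hCl hH hFin F hF f hf B
    (hFI F hF A hfg B hB hBf) (hlaw.sub B) ?_
  intro δ hδ
  have h2 : InD F A (δ : A) := by
    intro J' hJ' hc
    have := hδ (J'.comap (NonUnitalSubalgebraClass.subtype B : B →ₗ[F] A)) (by
        intro u x hx
        exact ⟨(hJ' u x hx).1, (hJ' u x hx).2⟩) (by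
        intro x y
        exact hc x y)
    exact this
  obtain ⟨n, hn⟩ := hJn δ δ.2 h2
  obtain ⟨j, hinj, hj⟩ := exists_incl B
  refine ⟨n, hinj ?_⟩
  rw [map_pow, map_zero, hj]
  exact hn

end

theorem fga_of_fgr {R : Type} [NonUnitalRing R] (h : FGR R) : FGA ℤ R := by
  obtain ⟨S, hS⟩ := h
  refine ⟨S, ?_⟩
  rw [NonUnitalAlgebra.eq_top_iff]
  intro x
  have hx : x ∈ NonUnitalSubring.closure (S : Set R) := by rw [hS]; trivial
  induction hx using NonUnitalSubring.closure_induction with
  | mem x hx => exact NonUnitalAlgebra.subset_adjoin ℤ hx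
  | zero => exact zero_mem _
  | add x y _ _ hx hy => exact add_mem hx hy
  | neg x _ hx => exact neg_mem hx
  | mul x y _ _ hx hy => exact mul_mem hx hy

theorem main_of (hInt : S_INT) (hLE : S_LAWEXT) (hMpi : S_MPI) (hGen : S_GEN) (hLay : S_LAYER)
    (hX : S_ARPX) (hNil : S_NILP) (hCl : S_CLAIM) (hH : S_HFIN) (hFin : S_FINU)
    (hMaxl : S_MAXL) (hFI : S_FI) (hUp : S_UP) (hQ : S_QUOT) (h0 : S_LAW0) (hComb : S_COMB)
    (h1 : S_LAW1) (hConv : S_CONV) (E : Set FreeR) :
    [LocRF E,
      ∀ p : ℕ, p.Prime → ∃ f ∈ E, ¬ Sat (B0 p) f,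
      ∃ f : FreeAlgebra ℤ (Fin 3), PrimF f ∧
        ∀ (R : Type) [NonUnitalRing R], InVar E R → Law3 ℤ R f].TFAE := by
  tfae_have 1 → 2 := by
    intro h p hp
    by_contra hcon
    push Not at hcon
    obtain ⟨C, i1, φ, hφ, hC, hnot⟩ := hConv p hp
    exact hnot (h C (fun f hf => Sat.of_surjective φ hφ (hcon f hf)) hC)
  tfae_have 2 → 3 := by
    intro h
    apply hComb E
    intro p hp
    obtain ⟨f0, hf0, hne⟩ := h p hp
    obtain ⟨f, k, hk, hf⟩ := h0 p hp f0 hne
    exact ⟨f, k, hk, fun R _ hR => hf R (hR f0 hf0)⟩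
  tfae_have 3 → 1 := by
    rintro ⟨f, hk, hf⟩
    intro R _ hR hfg
    apply hQ R
    exact rfi_of hInt hLE hMpi hGen hLay hX hNil hCl hH hFin hMaxl hFI hUp
      (fun x => ⟨x, by simp⟩) hk (fga_of_fgr hfg) (hf R hR)
  tfae_have 3 → 2 := by
    rintro ⟨f, hk, hf⟩ p hp
    by_contra hcon
    push Not at hcon
    exact h1 p hp f hk (hf (B0 p) (fun f hf => hcon f hf))
  tfae_finish

end Pool.Agent.N62.RK
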