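import Pool.Agent.N62.RK.Stm

/-! Task HFIN (helper99, helper618): the minimal ideal is finite. `jac_int` and `residue_finite` are
copied from `H854R3/NE/Gen.lean`. -/

set_option autoImplicit false

namespace Pool.Agent.N62.RK.HFIN

theorem jac_int : IsJacobsonRing ℤ := by
  rw [isJacobsonRing_iff_prime_eq]
  intro P hP
  by_cases h : P = ⊥
  · subst h
    rw [eq_bot_iff]
    intro x hx
    rw [Ideal.mem_jacobson_bot] at hx
    have h1 := hx x
    rw [Int.isUnit_iff] at h1
    rw [Ideal.mem_bot]
    rcases h1 with h1 | h1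
    · have : x * x = 0 := by linarith
      exact mul_self_eq_zero.1 this
    · exfalso
      nlinarith [mul_self_nonneg x]
  · have : P.IsMaximal := IsPrime.to_maximal_ideal h
    exact Ideal.jacobson_eq_self_of_isMaximal

/-- fields which are finitely generated rings are finite -/
theorem field_finite (K : Type) [Field K] [h0 : Algebra.FiniteType ℤ K] : Finite K := by
  have hJ : IsJacobsonRing ℤ := jac_int
  have h1 : Module.Finite ℤ K := finite_of_finite_type_of_isJacobsonRing ℤ K
  obtain ⟨p, hp⟩ := CharP.exists K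
  rcases Nat.eq_zero_or_pos p with h2 | h2
  · exfalso
    subst h2
    have hc : CharZero K := CharP.charP_to_charZero K
    have h3 : Function.Injective (algebraMap ℤ K) := by
      have : (algebraMap ℤ K) = Int.castRingHom K := RingHom.ext_int _ _
      rw [this]
      exact RingHom.injective_int _
    have hi : Algebra.IsIntegral ℤ K := Algebra.IsIntegral.of_finite ℤ K
    have h4 : IsField ℤ := isField_of_isIntegral_of_isField h3 (Field.toIsField _)
    exact Int.not_isField h4
  · apply Module.finite_of_fg_torsion K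
    intro x
    refine ⟨⟨(p : ℤ), ?_⟩, ?_⟩
    · rw [mem_nonZeroDivisors_iff_ne_zero]
      exact_mod_cast h2.ne'
    · change (p : ℤ) • x = 0
      rw [zsmul_eq_mul]
      simp

theorem cyc_finiteType {F : Type} [CommRing F] (hc : Cyc F) : Algebra.FiniteType ℤ F := by
  refine Algebra.FiniteType.of_surjective (R := ℤ) (A := ℤ) (B := F) (Algebra.ofId ℤ F) ?_
  have : (Algebra.ofId ℤ F : ℤ → F) = Int.castRingHom F := by
    ext n
    simp [Algebra.ofId_apply]
  rw [this]
  exact hc

/-- Zariski's lemma for a commutative algebra of operators which is a field -/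
theorem fin_of_field {F : Type} [CommRing F] (hF0 : Cyc F) {E : Type} [Ring E] [Algebra F E]
    (S : Set E)
    (hS : S.Finite) (hc : ∀ a ∈ S, ∀ b ∈ S, a * b = b * a)
    (hinv : ∀ r ∈ Algebra.adjoin F S, r ≠ 0 → ∃ r' ∈ Algebra.adjoin F S, r * r' = 1)
    (hnt : (1 : E) ≠ 0) : Finite (Algebra.adjoin F S) := by
  let _ : CommRing (Algebra.adjoin F S) := Algebra.adjoinCommRingOfComm F hc
  have hF : IsField (Algebra.adjoin F S) := by
    refine ⟨⟨0, 1, fun h => hnt (congrArg Subtype.val h).symm⟩, mul_comm, fun {a} ha => ?_⟩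
    obtain ⟨r', hr', h⟩ := hinv a.1 a.2 fun h => ha (Subtype.ext h)
    exact ⟨⟨r', hr'⟩, Subtype.ext h⟩
  let _ : Field (Algebra.adjoin F S) := hF.toField
  have h1 : Algebra.FiniteType F (Algebra.adjoin F S) := by
    rw [← Subalgebra.fg_iff_finiteType]
    exact ⟨hS.toFinset, by rw [Set.Finite.coe_toFinset]⟩
  have h2 : Algebra.FiniteType ℤ F := cyc_finiteType hF0
  have h3 : Algebra.FiniteType ℤ (Algebra.adjoin F S) := Algebra.FiniteType.trans h2 h1
  exact field_finite (Algebra.adjoin F S)

theorem adjoin_comm {F : Type} [CommRing F] {E : Type} [Ring E] [Algebra F E] (S : Set E)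
    (hc : ∀ a ∈ S, ∀ b ∈ S, a * b = b * a) {r r' : E} (hr : r ∈ Algebra.adjoin F S)
    (hr' : r' ∈ Algebra.adjoin F S) : r * r' = r' * r := by
  let _ : CommRing (Algebra.adjoin F S) := Algebra.adjoinCommRingOfComm F hc
  exact congrArg Subtype.val (mul_comm (⟨r, hr⟩ : Algebra.adjoin F S) ⟨r', hr'⟩)

section

variable {F : Type} [CommRing F] {U : Type} [Ring U] [Algebra F U]

theorem idg_idl (S : Set U) : Idl (idg F S) := by
  intro u x hx
  constructor
  · induction hx using Submodule.span_induction with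
    | mem t ht =>
      obtain ⟨a, b, s, hs, rfl⟩ := ht
      exact Submodule.subset_span ⟨u * a, b, s, hs, by simp only [mul_assoc]⟩
    | zero => rw [mul_zero]; exact zero_mem _
    | add x y _ _ h1 h2 => rw [mul_add]; exact add_mem h1 h2
    | smul c x _ h => rw [mul_smul_comm]; exact Submodule.smul_mem _ _ h
  · induction hx using Submodule.span_induction with
    | mem t ht =>
      obtain ⟨a, b, s, hs, rfl⟩ := ht
      exact Submodule.subset_span ⟨a, b * u, s, hs, by simp only [mul_assoc]⟩
    | zero => rw [zero_mul]; exact zero_mem _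
    | add x y _ _ h1 h2 => rw [add_mul]; exact add_mem h1 h2
    | smul c x _ h => rw [smul_mul_assoc]; exact Submodule.smul_mem _ _ h

theorem mul_idl {I J : Submodule F U} (hI : Idl I) (hJ : Idl J) : Idl (I * J) := by
  intro u x hx
  constructor
  · refine Submodule.mul_induction_on hx (fun a ha b hb => ?_) fun a b ha hb => ?_
    · rw [← mul_assoc]
      exact Submodule.mul_mem_mul (hI u a ha).1 hb
    · rw [mul_add]
      exact add_mem ha hb
  · refine Submodule.mul_induction_on hx (fun a ha b hb => ?_) fun a b ha hb => ?_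
    · rw [mul_assoc]
      exact Submodule.mul_mem_mul ha (hJ u b hb).2
    · rw [add_mul]
      exact add_mem ha hb

theorem DH {D H : Submodule F U} (hD : Idl D) (hH : Idl H) (hn : ∃ n, ip D n = ⊥)
    (hmin : ∀ I : Submodule F U, Idl I → I ≠ ⊥ → H ≤ I) (hH0 : H ≠ ⊥) : D * H = ⊥ := by
  by_contra h
  have h1 : H ≤ D * H := hmin _ (mul_idl hD hH) h
  have h2 : ∀ n, H ≤ ip D n * H := by
    intro n
    induction n with
    | zero =>
      intro x hx
      have := Submodule.mul_mem_mul (show (1 : U) ∈ ip D 0 from Submodule.mem_top) hx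
      rwa [one_mul] at this
    | succ n ih =>
      refine ih.trans ?_
      change ip D n * H ≤ ip D n * D * H
      rw [mul_assoc]
      exact mul_le_mul' le_rfl h1
  obtain ⟨n, hn⟩ := hn
  have h3 := h2 n
  rw [hn, Submodule.bot_mul] at h3
  exact hH0 (le_bot_iff.1 h3)

theorem HD {D H : Submodule F U} (hD : Idl D) (hH : Idl H) (hn : ∃ n, ip D n = ⊥)
    (hmin : ∀ I : Submodule F U, Idl I → I ≠ ⊥ → H ≤ I) (hH0 : H ≠ ⊥) : H * D = ⊥ := by
  by_contra h
  have h1 : H ≤ H * D := hmin _ (mul_idl hH hD) h
  have h2 : ∀ n, H ≤ H * ip D n := by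
    intro n
    induction n with
    | zero =>
      intro x hx
      have := Submodule.mul_mem_mul hx (show (1 : U) ∈ ip D 0 from Submodule.mem_top)
      rwa [mul_one] at this
    | succ n ih =>
      refine h1.trans ?_
      change H * D ≤ H * (ip D n * D)
      rw [← mul_assoc]
      exact mul_le_mul' ih le_rfl
  obtain ⟨n, hn⟩ := hn
  have h3 := h2 n
  rw [hn, Submodule.mul_bot] at h3
  exact hH0 (le_bot_iff.1 h3)

/-- left multiplication -/
def lam {H : Submodule F U} (hH : Idl H) (u : U) : Module.End F H :=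
  (LinearMap.mulLeft F u).restrict fun x hx => (hH u x hx).1

/-- right multiplication -/
def rho {H : Submodule F U} (hH : Idl H) (u : U) : Module.End F H :=
  (LinearMap.mulRight F u).restrict fun x hx => (hH u x hx).2

theorem lam_apply {H : Submodule F U} (hH : Idl H) (u : U) (h : H) :
    ((lam hH u h : H) : U) = u * h := rfl

theorem rho_apply {H : Submodule F U} (hH : Idl H) (u : U) (h : H) :
    ((rho hH u h : H) : U) = h * u := rfl

end

theorem t : S_HFIN := by
  intro F _ hcyc U _ _ D s g hD hg hcomm hn w hw hmin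
  obtain ⟨H, hHd⟩ : ∃ H : Submodule F U, H = idg F {w} := ⟨_, rfl⟩
  have hH : Idl H := by rw [hHd]; exact idg_idl _
  have hwH : w ∈ H := by
    rw [hHd]
    exact Submodule.subset_span ⟨1, 1, w, rfl, by rw [one_mul, mul_one]⟩
  have hmin' : ∀ I : Submodule F U, Idl I → I ≠ ⊥ → H ≤ I := by
    intro I hI h0
    rw [hHd]
    refine Submodule.span_le.2 ?_
    rintro t ⟨u, v, s, hs, rfl⟩
    rw [Set.mem_singleton_iff] at hs
    subst hs
    exact (hI v _ (hI u _ (hmin I hI h0)).1).2
  have hH0 : H ≠ ⊥ := fun h => hw (by rw [h, Submodule.mem_bot] at hwH; exact hwH)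
  have hDH := DH hD hH hn hmin' hH0
  have hHD := HD hD hH hn hmin' hH0
  have d1 : ∀ d ∈ D, ∀ h ∈ H, d * h = 0 := by
    intro d hd h hh
    have := Submodule.mul_mem_mul hd hh
    rwa [hDH, Submodule.mem_bot] at this
  have d2 : ∀ d ∈ D, ∀ h ∈ H, h * d = 0 := by
    intro d hd h hh
    have := Submodule.mul_mem_mul hh hd
    rwa [hHD, Submodule.mem_bot] at this
  have c1 : ∀ u v, lam hH u * lam hH v = lam hH v * lam hH u := by
    intro u v
    ext h
    change u * (v * (h : U)) = v * (u * (h : U))
    have := d1 _ (hcomm u v) h h.2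
    rw [sub_mul, sub_eq_zero] at this
    rw [← mul_assoc, ← mul_assoc]
    exact this
  have c2 : ∀ u v, rho hH u * rho hH v = rho hH v * rho hH u := by
    intro u v
    ext h
    change ((h : U) * v) * u = ((h : U) * u) * v
    have := d2 _ (hcomm v u) h h.2
    rw [mul_sub, sub_eq_zero] at this
    rw [mul_assoc, mul_assoc]
    exact this
  have c3 : ∀ u v, lam hH u * rho hH v = rho hH v * lam hH u := by
    intro u v
    ext h
    change u * ((h : U) * v) = (u * (h : U)) * v
    rw [mul_assoc]
  obtain ⟨S, hS⟩ : ∃ S : Set (Module.End F H),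
      S = Set.range (fun i => lam hH (g i)) ∪ Set.range (fun i => rho hH (g i)) := ⟨_, rfl⟩
  have hSf : S.Finite := by
    rw [hS]
    exact (Set.finite_range _).union (Set.finite_range _)
  have hSc : ∀ x ∈ S, ∀ y ∈ S, x * y = y * x := by
    intro x hx y hy
    rw [hS] at hx hy
    rcases hx with ⟨i, rfl⟩ | ⟨i, rfl⟩ <;> rcases hy with ⟨j, rfl⟩ | ⟨j, rfl⟩
    · exact c1 _ _
    · exact c3 _ _
    · exact (c3 _ _).symm
    · exact c2 _ _
  obtain ⟨R, hR⟩ : ∃ R : Subalgebra F (Module.End F H), R = Algebra.adjoin F S := ⟨_, rfl⟩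
  have hRc : ∀ r ∈ R, ∀ r' ∈ R, r * r' = r' * r := by
    intro r hr r' hr'
    rw [hR] at hr hr'
    exact adjoin_comm S hSc hr hr'
  have hlam : ∀ u, lam hH u ∈ R := by
    intro u
    have hu : u ∈ Algebra.adjoin F (Set.range g) := by rw [hg]; exact Algebra.mem_top
    induction hu using Algebra.adjoin_induction with
    | mem x hx =>
      obtain ⟨i, rfl⟩ := hx
      rw [hR]
      exact Algebra.subset_adjoin (by rw [hS]; exact Or.inl ⟨i, rfl⟩)
    | algebraMap r =>
      have : lam hH (algebraMap F U r) = algebraMap F _ r := by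
        ext h
        change algebraMap F U r * (h : U) = r • (h : U)
        rw [Algebra.smul_def]
      rw [this]
      exact R.algebraMap_mem r
    | add x y _ _ h1 h2 =>
      have : lam hH (x + y) = lam hH x + lam hH y := by
        ext h
        change (x + y) * (h : U) = x * h + y * h
        rw [add_mul]
      rw [this]
      exact add_mem h1 h2
    | mul x y _ _ h1 h2 =>
      have : lam hH (x * y) = lam hH x * lam hH y := by
        ext h
        change (x * y) * (h : U) = x * (y * h)
        rw [mul_assoc]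
      rw [this]
      exact mul_mem h1 h2
  have hrho : ∀ u, rho hH u ∈ R := by
    intro u
    have hu : u ∈ Algebra.adjoin F (Set.range g) := by rw [hg]; exact Algebra.mem_top
    induction hu using Algebra.adjoin_induction with
    | mem x hx =>
      obtain ⟨i, rfl⟩ := hx
      rw [hR]
      exact Algebra.subset_adjoin (by rw [hS]; exact Or.inr ⟨i, rfl⟩)
    | algebraMap r =>
      have : rho hH (algebraMap F U r) = algebraMap F _ r := by
        ext h
        change (h : U) * algebraMap F U r = r • (h : U)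
        rw [Algebra.smul_def, Algebra.commutes]
      rw [this]
      exact R.algebraMap_mem r
    | add x y _ _ h1 h2 =>
      have : rho hH (x + y) = rho hH x + rho hH y := by
        ext h
        change (h : U) * (x + y) = h * x + h * y
        rw [mul_add]
      rw [this]
      exact add_mem h1 h2
    | mul x y _ _ h1 h2 =>
      have : rho hH (x * y) = rho hH y * rho hH x := by
        ext h
        change (h : U) * (x * y) = (h * x) * y
        rw [mul_assoc]
      rw [this]
      exact mul_mem h2 h1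
  obtain ⟨w', hw'⟩ : ∃ w' : H, w' = ⟨w, hwH⟩ := ⟨_, rfl⟩
  have hw'0 : w' ≠ 0 := by
    rw [hw']
    intro h
    exact hw (congrArg Subtype.val h)
  have cyc : ∀ h : H, ∃ r ∈ R, r w' = h := by
    rintro ⟨h, hh⟩
    have hh' := hh
    rw [hHd] at hh'
    have key : ∃ r ∈ R, ((r w' : H) : U) = h := by
      clear hh
      induction hh' using Submodule.span_induction with
      | mem t ht =>
        obtain ⟨u, v, s, hs, rfl⟩ := ht
        rw [Set.mem_singleton_iff] at hs
        subst hs
        refine ⟨rho hH v * lam hH u, mul_mem (hrho v) (hlam u), ?_⟩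
        rw [hw']
        rfl
      | zero => exact ⟨0, zero_mem _, rfl⟩
      | add x y _ _ h1 h2 =>
        obtain ⟨r, hr, e⟩ := h1
        obtain ⟨r', hr', e'⟩ := h2
        refine ⟨r + r', add_mem hr hr', ?_⟩
        rw [← e, ← e']
        rfl
      | smul c x _ h1 =>
        obtain ⟨r, hr, e⟩ := h1
        refine ⟨c • r, R.smul_mem hr c, ?_⟩
        rw [← e]
        rfl
    obtain ⟨r, hr, e⟩ := key
    exact ⟨r, hr, Subtype.ext e⟩
  have hinv : ∀ r ∈ R, r ≠ 0 → ∃ r' ∈ R, r * r' = 1 := by
    intro r hr hr0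
    obtain ⟨I, hI⟩ : ∃ I : Submodule F U, I = (LinearMap.range r).map H.subtype := ⟨_, rfl⟩
    have hmem : ∀ x, x ∈ I ↔ ∃ h : H, ((r h : H) : U) = x := by
      intro x
      rw [hI, Submodule.mem_map]
      constructor
      · rintro ⟨y, ⟨h, rfl⟩, rfl⟩
        exact ⟨h, rfl⟩
      · rintro ⟨h, rfl⟩
        exact ⟨r h, ⟨h, rfl⟩, rfl⟩
    have hIi : Idl I := by
      intro u x hx
      obtain ⟨h, rfl⟩ := (hmem x).1 hx
      constructor
      · rw [hmem]
        refine ⟨lam hH u h, ?_⟩
        have := LinearMap.congr_fun (hRc r hr _ (hlam u)) h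
        exact congrArg Subtype.val this
      · rw [hmem]
        refine ⟨rho hH u h, ?_⟩
        have := LinearMap.congr_fun (hRc r hr _ (hrho u)) h
        exact congrArg Subtype.val this
    have hI0 : I ≠ ⊥ := by
      intro h0
      apply hr0
      ext h
      have : ((r h : H) : U) ∈ I := (hmem _).2 ⟨h, rfl⟩
      rw [h0, Submodule.mem_bot] at this
      exact this
    obtain ⟨h₀, hh₀⟩ := (hmem w).1 (hmin I hIi hI0)
    obtain ⟨r', hr', e⟩ := cyc h₀
    refine ⟨r', hr', ?_⟩
    have e1 : (r * r') w' = w' := by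
      rw [Module.End.mul_apply, e]
      exact Subtype.ext (by rw [hh₀, hw'])
    refine LinearMap.ext fun h => ?_
    obtain ⟨r'', hr'', rfl⟩ := cyc h
    have h5 := LinearMap.congr_fun (hRc (r * r') (mul_mem hr hr') r'' hr'') w'
    have h6 : (r * r') (r'' w') = r'' ((r * r') w') := h5
    rw [h6, e1]
    rfl
  have hnt : (1 : Module.End F H) ≠ 0 := by
    intro h
    exact hw'0 (LinearMap.congr_fun h w')
  have hRf : Finite R := by
    subst hR
    exact fin_of_field hcyc S hSf hSc hinv hnt
  have hHf : Finite H := by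
    refine Finite.of_surjective (fun r : R => (r : Module.End F H) w') fun h => ?_
    obtain ⟨r, hr, e⟩ := cyc h
    exact ⟨⟨r, hr⟩, e⟩
  constructor
  · have : Fintype H := Fintype.ofFinite H
    refine ⟨Fintype.card H, Fintype.card_pos_iff.2 ⟨w'⟩, ?_⟩
    have h1 : Fintype.card H • w' = 0 := card_nsmul_eq_zero
    have h2 := congrArg Subtype.val h1
    rw [hw'] at h2
    exact h2
  intro a
  -- two powers of `a` act in the same way on `w`
  obtain ⟨i, j, hij, e⟩ := Finite.exists_ne_map_eq_of_infinite
    (fun i : ℕ => ((⟨a ^ (i + 1) * w, (hH _ w hwH).1⟩ : H), (⟨w * a ^ (i + 1), (hH _ w hwH).2⟩ : H)))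
  have hU : Nontrivial U := ⟨⟨w, 0, hw⟩⟩
  have hF1 : Nontrivial F := by
    by_contra h
    rw [not_nontrivial_iff_subsingleton] at h
    apply hw
    have : (1 : U) = 0 := by
      rw [← map_one (algebraMap F U), Subsingleton.elim (1 : F) 0, map_zero]
    rw [← one_mul w, this, zero_mul]
  -- the case `i < j`
  have main : ∀ i j : ℕ, i < j →
      ((⟨a ^ (i + 1) * w, (hH _ w hwH).1⟩ : H), (⟨w * a ^ (i + 1), (hH _ w hwH).2⟩ : H)) =
      ((⟨a ^ (j + 1) * w, (hH _ w hwH).1⟩ : H), (⟨w * a ^ (j + 1), (hH _ w hwH).2⟩ : H)) →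
      ∃ ψ : Polynomial F, ψ.Monic ∧ ψ.coeff 0 = 0 ∧ Polynomial.aeval a ψ * w = 0 ∧
        w * Polynomial.aeval a ψ = 0 := by
    intro i j hij e
    rw [Prod.mk.injEq] at e
    have e1 : a ^ (i + 1) * w = a ^ (j + 1) * w := congrArg Subtype.val e.1
    have e2 : w * a ^ (i + 1) = w * a ^ (j + 1) := congrArg Subtype.val e.2
    refine ⟨Polynomial.X ^ (j + 1) - Polynomial.X ^ (i + 1), ?_, ?_, ?_, ?_⟩
    · refine (Polynomial.monic_X_pow (j + 1)).sub_of_left ?_
      rw [Polynomial.degree_X_pow, Polynomial.degree_X_pow]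
      exact_mod_cast (by omega : i + 1 < j + 1)
    · rw [Polynomial.coeff_sub, Polynomial.coeff_X_pow, Polynomial.coeff_X_pow]
      simp
    · simp only [map_sub, map_pow, Polynomial.aeval_X]
      rw [sub_mul, e1, sub_self]
    · simp only [map_sub, map_pow, Polynomial.aeval_X]
      rw [mul_sub, e2, sub_self]
  rcases lt_or_gt_of_ne hij with h | h
  · exact main i j h e
  · exact main j i h e.symm

end Pool.Agent.N62.RK.HFIN
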