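import Pool.Agent.N62.RK.Stm
import Pool.Agent.H854R3.NE.Gen

/-!
# Task INT: a monic polynomial in the ideal generated by all `Φ(p(M), p(L), p(R))` (helper607; adapted to
rings of coefficients by helper383)
-/

set_option autoImplicit false

namespace Pool.Agent.N62.RK.INT

open MvPolynomial

section ord

variable {Γ : Type} [LinearOrderedCommGroupWithZero Γ]

lemma ord_core {mu lam rho : Γ} (hmu : 1 < mu) (hl : lam < 1) (hr : rho < 1) (j0 c0 i k b b' : ℕ)
    (hb : 1 ≤ b) (hbb : b < b') (hc : ¬ (c0 = j0 ∧ i = 0 ∧ k = 0))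
    (h : (mu ^ b) ^ j0 = (mu ^ b) ^ c0 * lam ^ i * rho ^ k)
    (h' : (mu ^ b') ^ j0 = (mu ^ b') ^ c0 * lam ^ i * rho ^ k) : False := by
  have hmu0 : mu ≠ 0 := (zero_lt_one.trans hmu).ne'
  have hmub : 1 < mu ^ b := one_lt_pow₀ hmu (by omega)
  have hτ1 : lam ^ i * rho ^ k ≤ 1 := mul_le_one' (pow_le_one' hl.le _) (pow_le_one' hr.le _)
  rw [mul_assoc] at h h'
  have hτ0 : lam ^ i * rho ^ k ≠ 0 := by
    intro h0
    rw [h0, mul_zero] at h
    exact pow_ne_zero _ (pow_ne_zero _ hmu0) h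
  rcases lt_trichotomy c0 j0 with hlt | heq | hgt
  · have h1 : (mu ^ b) ^ c0 < (mu ^ b) ^ j0 := pow_lt_pow_right₀ hmub hlt
    have h2 : (mu ^ b) ^ c0 * (lam ^ i * rho ^ k) ≤ (mu ^ b) ^ c0 := mul_le_of_le_one_right' hτ1
    rw [← h] at h2
    exact absurd h1 (not_lt.2 h2)
  · subst heq
    have h1 : lam ^ i * rho ^ k = 1 := by
      have h2 : (mu ^ b) ^ c0 * 1 = (mu ^ b) ^ c0 * (lam ^ i * rho ^ k) := by rw [mul_one]; exact h
      exact (mul_left_cancel₀ (pow_ne_zero _ (pow_ne_zero _ hmu0)) h2).symm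
    have h3 : lam ^ i * rho ^ k < 1 := by
      by_cases hi : i = 0
      · have hk : k ≠ 0 := fun hk => hc ⟨rfl, hi, hk⟩
        rw [hi, pow_zero, one_mul]
        exact pow_lt_one' hr hk
      · calc lam ^ i * rho ^ k ≤ lam ^ i * 1 := mul_le_mul_right (pow_le_one' hr.le _) _
          _ = lam ^ i := mul_one _
          _ < 1 := pow_lt_one' hl hi
    exact h3.ne h1
  · obtain ⟨e, rfl⟩ := Nat.exists_eq_add_of_lt hgt
    have key : ∀ B : ℕ, (mu ^ B) ^ j0 = (mu ^ B) ^ (j0 + e + 1) * (lam ^ i * rho ^ k) →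
        mu ^ (B * (e + 1)) * (lam ^ i * rho ^ k) = 1 := by
      intro B hB
      have h2 : (mu ^ B) ^ j0 * (mu ^ (B * (e + 1)) * (lam ^ i * rho ^ k)) = (mu ^ B) ^ j0 * 1 := by
        rw [mul_one]
        conv_rhs => rw [hB]
        rw [← mul_assoc, ← pow_mul, ← pow_add, ← pow_mul]
        congr 2
        ring
      exact mul_left_cancel₀ (pow_ne_zero _ (pow_ne_zero _ hmu0)) h2
    have h1 := key b h
    have h2 := key b' h'
    have h3 : mu ^ (b * (e + 1)) = mu ^ (b' * (e + 1)) := mul_right_cancel₀ hτ0 (h1.trans h2.symm)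
    have h4 : mu ^ (b * (e + 1)) < mu ^ (b' * (e + 1)) :=
      pow_lt_pow_right₀ hmu (Nat.mul_lt_mul_of_pos_right hbb (by omega))
    exact h4.ne h3

end ord

section vals

variable {F : Type} [CommRing F] {K : Type} [Field K] [Algebra F K]
variable {Γ : Type} [LinearOrderedCommGroupWithZero Γ]

lemma val_u_m (v : Valuation K Γ) {m : K} (hm : 1 < v m) {q : ℕ} (hq : 2 ≤ q) :
    1 < v (m ^ q - m) := by
  have h1 : v m < v (m ^ q) := by
    rw [map_pow]
    conv_lhs => rw [← pow_one (v m)]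
    exact pow_lt_pow_right₀ hm (by omega)
  rw [Valuation.map_sub_eq_of_lt_left v h1, map_pow]
  exact one_lt_pow₀ hm (by omega)

lemma val_g_m (v : Valuation K Γ) {z : K} (hz : 1 < v z) {b : ℕ} (hb : 2 ≤ b) :
    v (z + z ^ b) = v z ^ b := by
  have h1 : v z < v (z ^ b) := by
    rw [map_pow]
    conv_lhs => rw [← pow_one (v z)]
    exact pow_lt_pow_right₀ hz (by omega)
  rw [Valuation.map_add_eq_of_lt_right v h1, map_pow]

lemma val_g_l (v : Valuation K Γ) {z : K} (hz : v z < 1) {b : ℕ} (hb : 2 ≤ b) :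
    v (z + z ^ b) = v z := by
  by_cases h0 : z = 0
  · subst h0
    rw [zero_pow (by omega), add_zero]
  · have hv : v z ≠ 0 := (Valuation.ne_zero_iff v).2 h0
    have h1 : v (z ^ b) < v z := by
      rw [map_pow]
      obtain ⟨k, rfl⟩ := Nat.exists_eq_add_of_le hb
      have h2 : v z ^ (2 + k) = v z ^ (1 + k) * v z := by
        rw [← pow_succ]
        congr 1
        omega
      rw [h2]
      calc v z ^ (1 + k) * v z < 1 * v z :=
            mul_lt_mul_of_pos_right (pow_lt_one' hz (by omega)) (zero_lt_iff.2 hv)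
        _ = v z := one_mul _
    rw [Valuation.map_add_eq_of_lt_left v h1]

open Finset in
/-- the combination of the relations -/
lemma coinc (Φ : MvPolynomial (Fin 3) F) (x : Fin 3 → K)
    (hz : ∀ p : Polynomial F, p.coeff 0 = 0 → aeval (fun i => Polynomial.aeval (x i) p) Φ = 0)
    (g : Polynomial F) (hg : g.coeff 0 = 0) (c₀ : Fin 3 →₀ ℕ) (hc₀ : c₀ ∈ Φ.support)
    (hc₀' : algebraMap F K (coeff c₀ Φ) ≠ 0)
    (h0 : ∏ i, Polynomial.aeval (x i) g ^ c₀ i ≠ 0) :
    ∃ c ∈ Φ.support, c ≠ c₀ ∧ ∏ i, Polynomial.aeval (x i) g ^ c i =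
      ∏ i, Polynomial.aeval (x i) g ^ c₀ i := by
  classical
  by_contra hcon
  push Not at hcon
  set V : (Fin 3 →₀ ℕ) → K := fun c => ∏ i, Polynomial.aeval (x i) g ^ c i with hV
  have hrel : ∀ n : ℕ, 1 ≤ n → ∑ c ∈ Φ.support, algebraMap F K (coeff c Φ) * V c ^ n = 0 := by
    intro n hn
    have h1 := hz (g ^ n) (by
      rw [Polynomial.coeff_zero_eq_eval_zero] at hg ⊢
      rw [Polynomial.eval_pow, hg, zero_pow (by omega)])
    rw [aeval_def, eval₂_eq'] at h1
    rw [← h1]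
    refine sum_congr rfl fun c _ => ?_
    congr 1
    rw [hV]
    simp only
    rw [← prod_pow]
    refine prod_congr rfl fun i _ => ?_
    rw [map_pow, ← pow_mul, ← pow_mul, mul_comm]
  set T : Polynomial K := Polynomial.X * ∏ c ∈ Φ.support.erase c₀, (Polynomial.X - Polynomial.C (V c))
    with hT
  have hT0 : T.coeff 0 = 0 := by
    rw [hT, Polynomial.mul_coeff_zero, Polynomial.coeff_X_zero, zero_mul]
  have h1 : ∑ c ∈ Φ.support, algebraMap F K (coeff c Φ) * T.eval (V c) = 0 := by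
    simp only [Polynomial.eval_eq_sum_range, mul_sum]
    rw [sum_comm]
    refine sum_eq_zero fun n _ => ?_
    rcases Nat.eq_zero_or_pos n with rfl | hn
    · refine sum_eq_zero fun c _ => ?_
      rw [hT0, zero_mul, mul_zero]
    · have h2 := hrel n hn
      have h3 : ∑ c ∈ Φ.support, algebraMap F K (coeff c Φ) * (T.coeff n * V c ^ n) =
          T.coeff n * ∑ c ∈ Φ.support, algebraMap F K (coeff c Φ) * V c ^ n := by
        rw [mul_sum]
        refine sum_congr rfl fun c _ => ?_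
        ring
      rw [h3, h2, mul_zero]
  rw [sum_eq_single c₀] at h1
  · rcases mul_eq_zero.1 h1 with h2 | h2
    · exact hc₀' h2
    · rw [hT, Polynomial.eval_mul, Polynomial.eval_X, Polynomial.eval_prod] at h2
      rcases mul_eq_zero.1 h2 with h3 | h3
      · exact h0 h3
      · obtain ⟨c, hc, h4⟩ := prod_eq_zero_iff.1 h3
        rw [Polynomial.eval_sub, Polynomial.eval_X, Polynomial.eval_C, sub_eq_zero] at h4
        rw [mem_erase] at hc
        exact hcon c hc.2 hc.1 h4.symm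
  · intro c hc hne
    have : T.eval (V c) = 0 := by
      rw [hT, Polynomial.eval_mul, Polynomial.eval_prod]
      rw [prod_eq_zero (mem_erase.2 ⟨hne, hc⟩), mul_zero]
      rw [Polynomial.eval_sub, Polynomial.eval_X, Polynomial.eval_C, sub_self]
    rw [this, mul_zero]
  · intro h
    exact absurd hc₀ h

lemma exists_c0 (Φ : MvPolynomial (Fin 3) F) (h : (mid Φ).map (algebraMap F K) ≠ 0) :
    ∃ c ∈ Φ.support, algebraMap F K (coeff c Φ) ≠ 0 ∧ c 1 = 0 ∧ c 2 = 0 := by
  by_contra hcon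
  push Not at hcon
  apply h
  unfold mid
  rw [aeval_def, eval₂_eq', Polynomial.map_sum]
  refine Finset.sum_eq_zero fun c hc => ?_
  rw [Fin.prod_univ_three]
  by_cases h0 : algebraMap F K (coeff c Φ) = 0
  · rw [Polynomial.map_mul, Polynomial.algebraMap_eq, Polynomial.map_C, h0, Polynomial.C_0,
      zero_mul]
  by_cases h1 : c 1 = 0
  · have h2 := hcon c hc h0 h1
    simp [zero_pow h2]
  · simp [zero_pow h1]

theorem val_core (v : Valuation K Γ) (m l r : K) (q : ℕ) (hq : 2 ≤ q) (hm : 1 < v m)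
    (hl : v (l ^ q - l) < 1) (hr : v (r ^ q - r) < 1) (Φ : MvPolynomial (Fin 3) F)
    (hΦ : (mid Φ).map (algebraMap F K) ≠ 0)
    (hz : ∀ p : Polynomial F, p.coeff 0 = 0 →
      aeval (fun i => Polynomial.aeval ((![m, l, r] : Fin 3 → K) i) p) Φ = 0) : False := by
  obtain ⟨c₀, hc₀, hc₀', hc1, hc2⟩ := exists_c0 (K := K) Φ hΦ
  set u : Polynomial F := Polynomial.X ^ q - Polynomial.X with hu
  have hu0 : u.coeff 0 = 0 := by
    rw [hu, Polynomial.coeff_sub, Polynomial.coeff_X_zero, Polynomial.coeff_X_pow, if_neg (by omega),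
      sub_zero]
  have hux : ∀ x : K, Polynomial.aeval x u = x ^ q - x := by
    intro x
    rw [hu, map_sub, map_pow, Polynomial.aeval_X]
  have hg0 : ∀ b : ℕ, (u + u ^ (b + 2)).coeff 0 = 0 := by
    intro b
    rw [Polynomial.coeff_zero_eq_eval_zero] at hu0 ⊢
    rw [Polynomial.eval_add, Polynomial.eval_pow, hu0, zero_pow (by omega), add_zero]
  have hgx : ∀ (b : ℕ) (x : K), Polynomial.aeval x (u + u ^ (b + 2)) =
      (x ^ q - x) + (x ^ q - x) ^ (b + 2) := by
    intro b x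
    rw [map_add, map_pow, hux]
  set mu := v (m ^ q - m) with hmu
  have hmu1 : 1 < mu := val_u_m v hm hq
  have hVal : ∀ (b : ℕ) (c : Fin 3 →₀ ℕ),
      v (∏ i, Polynomial.aeval ((![m, l, r] : Fin 3 → K) i) (u + u ^ (b + 2)) ^ c i) =
        (mu ^ (b + 2)) ^ c 0 * v (l ^ q - l) ^ c 1 * v (r ^ q - r) ^ c 2 := by
    intro b c
    rw [Fin.prod_univ_three, map_mul, map_mul, map_pow, map_pow, map_pow]
    simp only [Matrix.cons_val_zero, Matrix.cons_val_one, Matrix.cons_val]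
    rw [hgx, hgx, hgx, val_g_m v hmu1 (by omega), val_g_l v hl (by omega), val_g_l v hr (by omega)]
  have hex : ∀ b : ℕ, ∃ c : Φ.support, c.1 ≠ c₀ ∧
      (mu ^ (b + 2)) ^ c₀ 0 = (mu ^ (b + 2)) ^ c.1 0 * v (l ^ q - l) ^ c.1 1 *
        v (r ^ q - r) ^ c.1 2 := by
    intro b
    have hne : ∏ i, Polynomial.aeval ((![m, l, r] : Fin 3 → K) i) (u + u ^ (b + 2)) ^ c₀ i ≠ 0 := by
      rw [← Valuation.ne_zero_iff v, hVal, hc1, hc2, pow_zero, pow_zero, mul_one, mul_one]
      exact pow_ne_zero _ (pow_ne_zero _ (zero_lt_one.trans hmu1).ne')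
    obtain ⟨c, hc, hcc, he⟩ := coinc Φ _ hz (u + u ^ (b + 2)) (hg0 b) c₀ hc₀ hc₀' hne
    refine ⟨⟨c, hc⟩, hcc, ?_⟩
    have h1 := congrArg v he
    rw [hVal, hVal, hc1, hc2, pow_zero, pow_zero, mul_one, mul_one] at h1
    exact h1.symm
  choose fc hfc1 hfc2 using hex
  obtain ⟨b, b', hbb, he⟩ := Finite.exists_ne_map_eq_of_infinite fc
  have hfin : ∀ b b' : ℕ, b < b' → fc b = fc b' → False := by
    intro b b' hlt he
    have h1 := hfc2 b
    have h2 := hfc2 b'
    rw [← he] at h2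
    refine ord_core hmu1 hl hr (c₀ 0) ((fc b).1 0) ((fc b).1 1) ((fc b).1 2) (b + 2) (b' + 2)
      (by omega) (by omega) ?_ h1 h2
    rintro ⟨e1, e2, e3⟩
    apply hfc1 b
    ext i
    fin_cases i
    · exact e1
    · exact e2.trans hc1.symm
    · exact e3.trans hc2.symm
  rcases Nat.lt_or_gt_of_ne hbb with hlt | hlt
  · exact hfin b b' hlt he
  · exact hfin b' b hlt he.symm

end vals

section monic

variable {F : Type} [CommRing F]

/-- the degree in `M` is at most `n` -/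
def dg (n : ℕ) (P : MvPolynomial (Fin 3) F) : Prop := ∀ m, coeff m P ≠ 0 → m 0 ≤ n

lemma dg_add {n : ℕ} {P Q : MvPolynomial (Fin 3) F} (hP : dg n P) (hQ : dg n Q) :
    dg n (P + Q) := by
  intro m hm
  rw [coeff_add] at hm
  by_cases h : coeff m P = 0
  · rw [h, zero_add] at hm
    exact hQ m hm
  · exact hP m h

lemma dg_mul {n k : ℕ} {P Q : MvPolynomial (Fin 3) F} (hP : dg n P) (hQ : dg k Q) :
    dg (n + k) (P * Q) := by
  classical
  intro m hm
  have h := support_mul P Q (mem_support_iff.2 hm)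
  obtain ⟨a, ha, b, hb, rfl⟩ := Finset.mem_add.1 h
  have h1 := hP a (mem_support_iff.1 ha)
  have h2 := hQ b (mem_support_iff.1 hb)
  rw [Finsupp.add_apply]
  omega

lemma dg_pow (n : ℕ) : dg n ((X 0 : MvPolynomial (Fin 3) F) ^ n) := by
  classical
  intro m hm
  rw [coeff_X_pow] at hm
  split_ifs at hm with h
  · rw [← h]; simp
  · exact absurd rfl hm

lemma dg_mono {n k : ℕ} (h : n ≤ k) {P : MvPolynomial (Fin 3) F} (hP : dg n P) : dg k P :=
  fun m hm => (hP m hm).trans h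

lemma dg_C (c : F) : dg 0 (C c : MvPolynomial (Fin 3) F) := by
  classical
  intro m hm
  rw [coeff_C] at hm
  split_ifs at hm with h
  · rw [← h]; simp
  · exact absurd rfl hm

lemma dg_X {i : Fin 3} (hi : i ≠ 0) : dg 0 (X i : MvPolynomial (Fin 3) F) := by
  classical
  intro m hm
  rw [MvPolynomial.coeff_X] at hm
  split_ifs at hm with h
  · rw [← h, Finsupp.single_apply, if_neg hi]
  · exact absurd rfl hm

/-- strict version -/
def dgs (n : ℕ) (P : MvPolynomial (Fin 3) F) : Prop := ∀ m, coeff m P ≠ 0 → m 0 < n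

lemma dgs_add {n : ℕ} {P Q : MvPolynomial (Fin 3) F} (hP : dgs n P) (hQ : dgs n Q) :
    dgs n (P + Q) := by
  intro m hm
  rw [coeff_add] at hm
  by_cases h : coeff m P = 0
  · rw [h, zero_add] at hm
    exact hQ m hm
  · exact hP m h

lemma dgs_mul {n k : ℕ} {P Q : MvPolynomial (Fin 3) F} (hP : dgs n P) (hQ : dg k Q) :
    dgs (n + k) (P * Q) := by
  classical
  intro m hm
  have h := support_mul P Q (mem_support_iff.2 hm)
  obtain ⟨a, ha, b, hb, rfl⟩ := Finset.mem_add.1 h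
  have h1 := hP a (mem_support_iff.1 ha)
  have h2 := hQ b (mem_support_iff.1 hb)
  rw [Finsupp.add_apply]
  omega

lemma dgs_dg {n : ℕ} {P : MvPolynomial (Fin 3) F} (hP : dgs n P) : dg n P :=
  fun m hm => (hP m hm).le

lemma monic_dg {P : MvPolynomial (Fin 3) F} {N : ℕ} (h : MonicM P N) : dg N P := by
  have h1 : P = (P - X 0 ^ N) + X 0 ^ N := by ring
  rw [h1]
  exact dg_add (dgs_dg h) (dg_pow N)

lemma monic_mul {P Q : MvPolynomial (Fin 3) F} {N K : ℕ} (hP : MonicM P N) (hQ : MonicM Q K) :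
    MonicM (P * Q) (N + K) := by
  have h1 : P * Q - X 0 ^ (N + K) = (P - X 0 ^ N) * Q + (Q - X 0 ^ K) * X 0 ^ N := by ring
  have h2 : dgs (N + K) (P * Q - X 0 ^ (N + K)) := by
    rw [h1]
    refine dgs_add (dgs_mul hP (monic_dg hQ)) ?_
    rw [add_comm N K]
    exact dgs_mul hQ (dg_pow N)
  exact h2

lemma monic_pow (N : ℕ) : MonicM ((X 0 : MvPolynomial (Fin 3) F) ^ N) N := by
  intro m hm
  rw [sub_self, coeff_zero] at hm
  exact absurd rfl hm

/-- the monic polynomials -/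
def Mo (F : Type) [CommRing F] : Submonoid (MvPolynomial (Fin 3) F) where
  carrier := {P | ∃ N, MonicM P N}
  mul_mem' := by
    rintro P Q ⟨N, hN⟩ ⟨K, hK⟩
    exact ⟨N + K, monic_mul hN hK⟩
  one_mem' := ⟨0, by
    have := monic_pow (F := F) 0
    rwa [pow_zero] at this⟩

end monic

theorem t : S_INT := by
  intro F _ _ Φ hΦ
  by_contra hcon
  -- disjointness
  have hdis : Disjoint (aI Φ : Set (MvPolynomial (Fin 3) F)) (Mo F) := by
    rw [Set.disjoint_left]
    rintro P hP ⟨N, hN⟩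
    apply hcon
    refine ⟨P * X 0, (aI Φ).mul_mem_right _ hP, N + 1, by omega, ?_⟩
    have h1 := monic_pow (F := F) 1
    rw [pow_one] at h1
    exact monic_mul hN h1
  obtain ⟨p, hp, hle, hpd⟩ := Ideal.exists_le_prime_disjoint (aI Φ) (Mo F) hdis
  have hpd' : ∀ P N, MonicM P N → P ∉ p := by
    intro P N hP h
    exact Set.disjoint_left.1 hpd h ⟨N, hP⟩
  let K := FractionRing (MvPolynomial (Fin 3) F ⧸ p)
  let ψ : MvPolynomial (Fin 3) F →ₐ[F] K :=
    (Algebra.ofId (MvPolynomial (Fin 3) F ⧸ p) K).restrictScalars F |>.comp (Ideal.Quotient.mkₐ F p)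
  have hψ : ∀ P, ψ P = 0 ↔ P ∈ p := by
    intro P
    change algebraMap (MvPolynomial (Fin 3) F ⧸ p) K (Ideal.Quotient.mk p P) = 0 ↔ _
    rw [map_eq_zero_iff _ (IsFractionRing.injective _ _), Ideal.Quotient.eq_zero_iff_mem]
  set m := ψ (X 0) with hm
  set l := ψ (X 1) with hl
  set r := ψ (X 2) with hr
  have hm0 : m ≠ 0 := by
    rw [hm, Ne, hψ]
    have h1 := monic_pow (F := F) 1
    rw [pow_one] at h1
    exact hpd' _ _ h1
  set w := m⁻¹ with hw
  let B : Subalgebra F K := Algebra.adjoin F ({l, r, w} : Set K)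
  have hlB : l ∈ B := Algebra.subset_adjoin (by simp)
  have hrB : r ∈ B := Algebra.subset_adjoin (by simp)
  have hwB : w ∈ B := Algebra.subset_adjoin (by simp)
  -- elements of `B`
  have hB : ∀ b ∈ B, ∃ (n : ℕ) (G : MvPolynomial (Fin 3) F), dg n G ∧ ψ G = m ^ n * b := by
    intro b hb
    induction hb using Algebra.adjoin_induction with
    | mem x hx =>
      rcases hx with rfl | rfl | hx
      · exact ⟨0, X 1, dg_X (by decide), by rw [pow_zero, one_mul]⟩
      · exact ⟨0, X 2, dg_X (by decide), by rw [pow_zero, one_mul]⟩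
      · rw [Set.mem_singleton_iff] at hx
        subst hx
        refine ⟨1, 1, dg_mono (Nat.zero_le 1) ?_, ?_⟩
        · have := dg_C (F := F) 1
          rwa [C_1] at this
        · rw [map_one, pow_one, mul_inv_cancel₀ hm0]
    | algebraMap c =>
      refine ⟨0, C c, dg_C c, ?_⟩
      rw [pow_zero, one_mul, ← MvPolynomial.algebraMap_eq]
      exact ψ.commutes c
    | add x y _ _ hx hy =>
      obtain ⟨n, G, hG, h1⟩ := hx
      obtain ⟨k, H, hH, h2⟩ := hy
      refine ⟨n + k, X 0 ^ k * G + X 0 ^ n * H, dg_add ?_ (dg_mul (dg_pow n) hH), ?_⟩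
      · rw [add_comm n k]
        exact dg_mul (dg_pow k) hG
      · rw [map_add, map_mul, map_mul, map_pow, map_pow, h1, h2, ← hm]
        ring
    | mul x y _ _ hx hy =>
      obtain ⟨n, G, hG, h1⟩ := hx
      obtain ⟨k, H, hH, h2⟩ := hy
      refine ⟨n + k, G * H, dg_mul hG hH, ?_⟩
      rw [map_mul, h1, h2]
      ring
  have hmB : m ∉ B := by
    intro h
    obtain ⟨n, G, hG, h1⟩ := hB m h
    have h2 : X 0 ^ (n + 1) - G ∈ p := by
      rw [← hψ, map_sub, map_pow, h1, ← hm]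
      ring
    refine hpd' _ (n + 1) ?_ h2
    intro k hk
    have h3 : X 0 ^ (n + 1) - G - X 0 ^ (n + 1) = -G := by ring
    rw [h3, coeff_neg, neg_ne_zero] at hk
    have := hG k hk
    omega
  -- the maximal ideal
  have hspan : Ideal.span {(⟨w, hwB⟩ : B)} ≠ ⊤ := by
    rw [Ne, Ideal.span_singleton_eq_top]
    intro h
    obtain ⟨c, hc⟩ := h.exists_right_inv
    apply hmB
    have h1 : w * c.1 = 1 := congrArg Subtype.val hc
    have h2 : c.1 = m := ((inv_mul_eq_one₀ hm0).1 h1).symm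
    rw [← h2]
    exact c.2
  obtain ⟨𝔫, h𝔫, hle𝔫⟩ := Ideal.exists_le_maximal _ hspan
  have hw𝔫 : (⟨w, hwB⟩ : B) ∈ 𝔫 := hle𝔫 (Ideal.subset_span rfl)
  let _ : Field (B ⧸ 𝔫) := Ideal.Quotient.field 𝔫
  have hft : Algebra.FiniteType F B :=
    (Subalgebra.fg_iff_finiteType B).1 (Subalgebra.fg_def.2 ⟨{l, r, w}, Set.toFinite _, rfl⟩)
  have hftZ' : Algebra.FiniteType ℤ B := Algebra.FiniteType.trans (S := F) inferInstance hft
  have hfin : Finite (B ⧸ 𝔫) := by
    have hsub : ∀ (R : Type) [CommRing R] (a b : Algebra ℤ R), a = b := by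
      intro R _ a b
      exact Subsingleton.elim _ _
    have key : ∀ (R : Type) [CommRing R] (a : Algebra ℤ R) (_ : @Algebra.FiniteType ℤ R _ _ a)
        (I : Ideal R) [I.IsMaximal], Finite (R ⧸ I) := by
      intro R _ a ha I _
      have hb : @Algebra.FiniteType ℤ R _ _ (Ring.toIntAlgebra R) := by
        rw [hsub R a (Ring.toIntAlgebra R)] at ha
        exact ha
      exact @Pool.Agent.H854R3.NE.residue_finite R _ hb I _
    exact key B _ hftZ' 𝔫
  let _ : Fintype (B ⧸ 𝔫) := Fintype.ofFinite _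
  set q := Fintype.card (B ⧸ 𝔫) with hq
  have hq2 : 2 ≤ q := Fintype.one_lt_card
  have hu𝔫 : ∀ b : B, b ^ q - b ∈ 𝔫 := by
    intro b
    rw [← Ideal.Quotient.eq_zero_iff_mem, map_sub, map_pow, hq, FiniteField.pow_card, sub_self]
  obtain ⟨O, hO1, hO2⟩ := Ideal.image_subset_nonunits_valuationSubring (A := B.toSubring) 𝔫
    h𝔫.ne_top
  have hv𝔫 : ∀ b : B, b ∈ 𝔫 → O.valuation b.1 < 1 := by
    intro b hb
    exact hO2 ⟨b, hb, rfl⟩
  have hvw : O.valuation w < 1 := hv𝔫 _ hw𝔫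
  have hvm : 1 < O.valuation m := by
    rw [hw, map_inv₀] at hvw
    have h0 : O.valuation m ≠ 0 := (Valuation.ne_zero_iff _).2 hm0
    exact (inv_lt_one₀ (zero_lt_iff.2 h0)).1 hvw
  have hΦ' : (mid Φ).map (algebraMap F K) ≠ 0 := by
    intro h0
    have h1 : Ideal.span (Set.range (mid Φ).coeff) ≤ RingHom.ker (algebraMap F K) := by
      rw [Ideal.span_le]
      rintro _ ⟨j, rfl⟩
      show algebraMap F K ((mid Φ).coeff j) = 0
      rw [← Polynomial.coeff_map, h0, Polynomial.coeff_zero]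
    have h2 : Ideal.span (Set.range (mid Φ).coeff) = ⊤ := hΦ
    rw [h2] at h1
    have h3 : (1 : F) ∈ RingHom.ker (algebraMap F K) := h1 trivial
    rw [RingHom.mem_ker, map_one] at h3
    exact one_ne_zero h3
  refine val_core (F := F) O.valuation m l r q hq2 hvm (hv𝔫 _ (hu𝔫 ⟨l, hlB⟩))
    (hv𝔫 _ (hu𝔫 ⟨r, hrB⟩)) Φ hΦ' ?_
  intro g hg
  have h1 : sb g Φ ∈ p := hle (Ideal.subset_span ⟨g, hg, rfl⟩)
  rw [← hψ] at h1
  rw [← h1]
  unfold sb
  rw [MvPolynomial.comp_aeval_apply]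
  congr 1
  congr 1
  funext i
  rw [← Polynomial.aeval_algHom_apply]
  congr 2
  fin_cases i
  · rfl
  · rfl
  · rfl

end Pool.Agent.N62.RK.INT

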