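import Pool.Agent.N62.RK.Stm

/-!
Task LAW0: from an identity failing in `B0` to the coefficient of `x y^k z`.
-/

set_option autoImplicit false
set_option linter.all false

namespace Pool.Agent.N62.RK.LAW0

open Pool.Agent.N62.RK

/-! ### homomorphisms from the free ring -/

/-- ring homomorphisms are homomorphisms of algebras over the integers -/
def toA {R S : Type} [NonUnitalRing R] [NonUnitalRing S] (φ : R →ₙ+* S) : R →ₙₐ[ℤ] S :=
  { toFun := φ
    map_smul' := fun n x => map_zsmul φ n x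
    map_zero' := map_zero φ
    map_add' := map_add φ
    map_mul' := map_mul φ }

theorem toA_apply {R S : Type} [NonUnitalRing R] [NonUnitalRing S] (φ : R →ₙ+* S) (x : R) :
    toA φ x = φ x := rfl

section free
variable {A : Type} [NonUnitalRing A]

theorem hom_ext {φ₁ φ₂ : FreeR →ₙ+* A}
    (h : ∀ i : ℕ, φ₁ (MonoidAlgebra.single (FreeSemigroup.of i) 1) =
      φ₂ (MonoidAlgebra.single (FreeSemigroup.of i) 1)) : φ₁ = φ₂ := by
  have e0 : toA φ₁ = toA φ₂ := by
    refine MonoidAlgebra.nonUnitalAlgHom_ext ℤ fun x => ?_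
    induction x using FreeSemigroup.recOnMul with
    | ih1 x => exact h x
    | ih2 x y h1 h2 =>
      have e : (MonoidAlgebra.single (FreeSemigroup.of x * y) 1 : FreeR) =
          MonoidAlgebra.single (FreeSemigroup.of x) 1 * MonoidAlgebra.single y 1 := by
        rw [MonoidAlgebra.single_mul_single, mul_one]
      rw [e, map_mul, map_mul, h1, h2]
  ext x
  exact DFunLike.congr_fun e0 x

/-- the homomorphism with given values on the free generators -/
noncomputable def hh (a : ℕ → A) : FreeR →ₙ+* A :=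
  ((MonoidAlgebra.liftMagma ℤ (FreeSemigroup.lift a) : FreeR →ₙₐ[ℤ] A) : FreeR →ₙ+* A)

theorem hh_single (a : ℕ → A) (i : ℕ) :
    hh a (MonoidAlgebra.single (FreeSemigroup.of i) 1) = a i := by
  show (MonoidAlgebra.liftMagma ℤ (FreeSemigroup.lift a) : FreeR →ₙₐ[ℤ] A) _ = _
  simp [MonoidAlgebra.liftMagma_apply_apply]

end free

/-! ### words -/

section word
variable {F : Type} [CommRing F] {U : Type} [Ring U] [Algebra F U]

theorem ev_basis (x y z : U) (w : FreeMonoid (Fin 3)) :
    ev x y z (FreeAlgebra.basisFreeMonoid F (Fin 3) w) =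
      ((FreeMonoid.toList w).map ![x, y, z]).prod := by
  have h : FreeAlgebra.basisFreeMonoid F (Fin 3) w =
      FreeMonoid.lift (FreeAlgebra.ι F) w := by
    simp [FreeAlgebra.basisFreeMonoid, FreeAlgebra.equivMonoidAlgebraFreeMonoid]
  rw [h]
  induction w using FreeMonoid.recOn with
  | one => simp
  | of_mul a w ih =>
    rw [map_mul, map_mul, ih (by
      simp [FreeAlgebra.basisFreeMonoid, FreeAlgebra.equivMonoidAlgebraFreeMonoid])]
    simp [ev]

end word

/-- the three generators -/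
noncomputable abbrev x0 (p : ℕ) : Matrix (Fin 3) (Fin 3) (Polynomial (ZMod p)) :=
  Matrix.single 0 1 1
noncomputable abbrev y0 (p : ℕ) : Matrix (Fin 3) (Fin 3) (Polynomial (ZMod p)) :=
  Matrix.single 1 1 Polynomial.X
noncomputable abbrev z0 (p : ℕ) : Matrix (Fin 3) (Fin 3) (Polynomial (ZMod p)) :=
  Matrix.single 1 2 1

theorem words (p : ℕ) (w : List (Fin 3)) :
    (((w.map ![x0 p, y0 p, z0 p]).prod 2 2 ≠ 0 → w = []) ∧
    ((w.map ![x0 p, y0 p, z0 p]).prod 1 2 ≠ 0 → ∃ k, w = List.replicate k 1 ++ [2])) ∧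
    ((w.map ![x0 p, y0 p, z0 p]).prod 0 2 ≠ 0 → ∃ k, w = xyz k) := by
  induction w with
  | nil => simp
  | cons a w ih =>
    rw [List.map_cons, List.prod_cons]
    set P := (w.map ![x0 p, y0 p, z0 p]).prod with hP
    obtain ⟨⟨i1, i2⟩, i3⟩ := ih
    fin_cases a
    · refine ⟨⟨?_, ?_⟩, ?_⟩
      · intro h; exfalso; apply h
        simp [Matrix.mul_apply, Fin.sum_univ_three]
      · intro h; exfalso; apply h
        simp [Matrix.mul_apply, Fin.sum_univ_three]
      · intro h
        have : P 1 2 ≠ 0 := by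
          intro h'; apply h
          simp [Matrix.mul_apply, Fin.sum_univ_three, h']
        obtain ⟨k, hk⟩ := i2 this
        exact ⟨k, by rw [hk]; rfl⟩
    · refine ⟨⟨?_, ?_⟩, ?_⟩
      · intro h; exfalso; apply h
        simp [Matrix.mul_apply, Fin.sum_univ_three]
      · intro h
        have : P 1 2 ≠ 0 := by
          intro h'; apply h
          simp [Matrix.mul_apply, Fin.sum_univ_three, h']
        obtain ⟨k, hk⟩ := i2 this
        exact ⟨k + 1, by rw [hk]; rfl⟩
      · intro h; exfalso; apply h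
        simp [Matrix.mul_apply, Fin.sum_univ_three]
    · refine ⟨⟨?_, ?_⟩, ?_⟩
      · intro h; exfalso; apply h
        simp [Matrix.mul_apply, Fin.sum_univ_three]
      · intro h
        have : P 2 2 ≠ 0 := by
          intro h'; apply h
          simp [Matrix.mul_apply, Fin.sum_univ_three, h']
        exact ⟨0, by rw [i1 this]; rfl⟩
      · intro h; exfalso; apply h
        simp [Matrix.mul_apply, Fin.sum_univ_three]

/-- a nonzero entry gives a coefficient not divisible by `p` -/
theorem coef (p : ℕ) (f : FreeAlgebra ℤ (Fin 3))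
    (h : (ev (x0 p) (y0 p) (z0 p) f) 0 2 ≠ 0) : ∃ k, ¬ (p : ℤ) ∣ cf f (xyz k) := by
  by_contra hno
  push Not at hno
  apply h
  rw [← (FreeAlgebra.basisFreeMonoid ℤ (Fin 3)).linearCombination_repr f,
    Finsupp.linearCombination_apply, Finsupp.sum, map_sum, Matrix.sum_apply]
  refine Finset.sum_eq_zero fun w _ => ?_
  rw [map_smul, ev_basis, Matrix.smul_apply]
  by_cases hw : ((FreeMonoid.toList w).map ![x0 p, y0 p, z0 p]).prod 0 2 = 0
  · rw [hw, smul_zero]
  · obtain ⟨k, hk⟩ := (words p _).2 hw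
    obtain ⟨m, hm⟩ := hno k
    unfold cf at hm
    rw [← hk, FreeMonoid.ofList_toList] at hm
    rw [hm, mul_comm, mul_smul, zsmul_eq_mul (_ : Polynomial (ZMod p)) (p : ℤ), Int.cast_natCast,
      CharP.cast_eq_zero, zero_mul, smul_zero]

/-! ### the ring `B0` -/

theorem supp (p : ℕ) (b : Matrix (Fin 3) (Fin 3) (Polynomial (ZMod p))) (hb : b ∈ B0 p) :
    (∀ i, b i 0 = 0) ∧ ∀ j, b 2 j = 0 := by
  unfold B0 at hb
  induction hb using NonUnitalSubring.closure_induction with
  | mem x hx =>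
    simp only [Set.mem_insert_iff, Set.mem_singleton_iff] at hx
    rcases hx with rfl | rfl | rfl
    · exact ⟨fun i => by simp, fun j => by simp⟩
    · exact ⟨fun i => by simp, fun j => by simp⟩
    · exact ⟨fun i => by simp, fun j => by simp⟩
  | zero => exact ⟨fun i => rfl, fun j => rfl⟩
  | add x y _ _ hx hy =>
    exact ⟨fun i => by rw [Matrix.add_apply, hx.1, hy.1, add_zero],
      fun j => by rw [Matrix.add_apply, hx.2, hy.2, add_zero]⟩
  | neg x _ hx =>
    exact ⟨fun i => by rw [Matrix.neg_apply, hx.1, neg_zero],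
      fun j => by rw [Matrix.neg_apply, hx.2, neg_zero]⟩
  | mul x y _ _ hx hy =>
    exact ⟨fun i => by
        rw [Matrix.mul_apply]
        exact Finset.sum_eq_zero fun k _ => by rw [hy.1, mul_zero],
      fun j => by
        rw [Matrix.mul_apply]
        exact Finset.sum_eq_zero fun k _ => by rw [hx.2, zero_mul]⟩

/-- the augmentation ideal of the free ring (as a ring without one) -/
noncomputable def NN : NonUnitalSubring (FreeAlgebra ℤ (Fin 3)) :=
  NonUnitalSubring.closure (Set.range (FreeAlgebra.ι ℤ))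

theorem pre (p : ℕ) (b : Matrix (Fin 3) (Fin 3) (Polynomial (ZMod p))) (hb : b ∈ B0 p) :
    ∃ h ∈ NN, ev (x0 p) (y0 p) (z0 p) h = b := by
  unfold B0 at hb
  induction hb using NonUnitalSubring.closure_induction with
  | mem x hx =>
    have hm : ∀ i, FreeAlgebra.ι ℤ i ∈ NN := fun i =>
      NonUnitalSubring.subset_closure ⟨i, rfl⟩
    simp only [Set.mem_insert_iff, Set.mem_singleton_iff] at hx
    rcases hx with rfl | rfl | rfl
    · exact ⟨_, hm 0, by simp [ev]⟩
    · exact ⟨_, hm 1, by simp [ev]⟩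
    · exact ⟨_, hm 2, by simp [ev]⟩
  | zero => exact ⟨0, NN.zero_mem, map_zero _⟩
  | add x y _ _ hx hy =>
    obtain ⟨g, hg, rfl⟩ := hx
    obtain ⟨h, hh, rfl⟩ := hy
    exact ⟨g + h, NN.add_mem hg hh, map_add _ _ _⟩
  | neg x _ hx =>
    obtain ⟨g, hg, rfl⟩ := hx
    exact ⟨-g, NN.neg_mem hg, map_neg _ _⟩
  | mul x y _ _ hx hy =>
    obtain ⟨g, hg, rfl⟩ := hx
    obtain ⟨h, hh, rfl⟩ := hy
    exact ⟨g * h, NN.mul_mem hg hh, map_mul _ _ _⟩

theorem inA (A : Type) [NonUnitalRing A] (x y z : A) (h : FreeAlgebra ℤ (Fin 3)) (hh : h ∈ NN) :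
    ∃ a : A, ev (x : Unitization ℤ A) (y : Unitization ℤ A) (z : Unitization ℤ A) h =
      (a : Unitization ℤ A) := by
  unfold NN at hh
  induction hh using NonUnitalSubring.closure_induction with
  | mem u hu =>
    obtain ⟨i, rfl⟩ := hu
    fin_cases i
    · exact ⟨x, by simp [ev]⟩
    · exact ⟨y, by simp [ev]⟩
    · exact ⟨z, by simp [ev]⟩
  | zero => exact ⟨0, by simp⟩
  | add u v _ _ hu hv =>
    obtain ⟨a, ha⟩ := hu
    obtain ⟨b, hb⟩ := hv
    exact ⟨a + b, by rw [map_add, ha, hb, Unitization.inr_add]⟩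
  | neg u _ hu =>
    obtain ⟨a, ha⟩ := hu
    exact ⟨-a, by rw [map_neg, ha, Unitization.inr_neg]⟩
  | mul u v _ _ hu hv =>
    obtain ⟨a, ha⟩ := hu
    obtain ⟨b, hb⟩ := hv
    exact ⟨a * b, by rw [map_mul, ha, hb, Unitization.inr_mul]⟩

/-- the inclusion into the unitization -/
def iu (A : Type) [NonUnitalRing A] : A →ₙ+* Unitization ℤ A :=
  { toFun := fun a => (a : Unitization ℤ A)
    map_zero' := Unitization.inr_zero ℤ
    map_add' := Unitization.inr_add ℤ
    map_mul' := Unitization.inr_mul ℤ }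

theorem t : S_LAW0 := by
  intro p _ f0 hf0
  unfold Sat at hf0
  push Not at hf0
  obtain ⟨φ, hφ⟩ := hf0
  -- the substitution
  have hpre : ∀ i : ℕ, ∃ h ∈ NN, ev (x0 p) (y0 p) (z0 p) h =
      (φ (MonoidAlgebra.single (FreeSemigroup.of i) 1) :
        Matrix (Fin 3) (Fin 3) (Polynomial (ZMod p))) := fun i => pre p _ (φ _).2
  choose h hN he using hpre
  let Θ : FreeR →ₙ+* FreeAlgebra ℤ (Fin 3) := hh h
  set G := Θ f0 with hG
  -- the value in `B0`
  have hval : ev (x0 p) (y0 p) (z0 p) G =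
      (φ f0 : Matrix (Fin 3) (Fin 3) (Polynomial (ZMod p))) := by
    have e : (((ev (x0 p) (y0 p) (z0 p) : FreeAlgebra ℤ (Fin 3) →ₐ[ℤ] _) :
        FreeAlgebra ℤ (Fin 3) →+* Matrix (Fin 3) (Fin 3) (Polynomial (ZMod p))) :
        FreeAlgebra ℤ (Fin 3) →ₙ+* Matrix (Fin 3) (Fin 3) (Polynomial (ZMod p))).comp Θ =
        (NonUnitalSubringClass.subtype (B0 p)).comp φ := by
      apply hom_ext
      intro i
      simp only [NonUnitalRingHom.comp_apply]
      show ev (x0 p) (y0 p) (z0 p) (hh h _) =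
        (φ _ : Matrix (Fin 3) (Fin 3) (Polynomial (ZMod p)))
      rw [hh_single, he]
    exact DFunLike.congr_fun e f0
  -- the value in the rings of the variety
  have hlaw : ∀ (A : Type) [NonUnitalRing A], Sat A f0 → Law3 ℤ A G := by
    intro A _ hA x y z
    have hA' : ∀ i : ℕ, ∃ a : A, ev (x : Unitization ℤ A) (y : Unitization ℤ A)
        (z : Unitization ℤ A) (h i) = (a : Unitization ℤ A) := fun i => inA A x y z _ (hN i)
    choose a ha using hA'
    let E : FreeAlgebra ℤ (Fin 3) →ₙ+* Unitization ℤ A :=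
      { toFun := fun u => ev (x : Unitization ℤ A) (y : Unitization ℤ A) (z : Unitization ℤ A) u
        map_zero' := map_zero _
        map_add' := fun u v => map_add _ u v
        map_mul' := fun u v => map_mul _ u v }
    have e : E.comp Θ = (iu A).comp (hh a) := by
      refine hom_ext (A := Unitization ℤ A) fun i => ?_
      show ev _ _ _ (hh h _) = ((hh a _ : A) : Unitization ℤ A)
      rw [hh_single, hh_single, ha]
    have e2 := DFunLike.congr_fun e f0
    have e3 : ev (x : Unitization ℤ A) (y : Unitization ℤ A) (z : Unitization ℤ A) G =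
        ((hh a f0 : A) : Unitization ℤ A) := e2
    rw [e3, hA (hh a), Unitization.inr_zero]
  -- the matrix
  set b := (φ f0 : Matrix (Fin 3) (Fin 3) (Polynomial (ZMod p))) with hb
  have hb0 : b ≠ 0 := fun h' => hφ (Subtype.ext h')
  obtain ⟨s1, s2⟩ := supp p b (φ f0).2
  have fin : ∀ f : FreeAlgebra ℤ (Fin 3), (ev (x0 p) (y0 p) (z0 p) f) 0 2 ≠ 0 →
      (∀ (A : Type) [NonUnitalRing A], Law3 ℤ A G → Law3 ℤ A f) →
      ∃ (f : FreeAlgebra ℤ (Fin 3)) (k : ℕ), ¬ (p : ℤ) ∣ cf f (xyz k) ∧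
        ∀ (R : Type) [NonUnitalRing R], Sat R f0 → Law3 ℤ R f := by
    intro f hf hl
    obtain ⟨k, hk⟩ := coef p f hf
    exact ⟨f, k, hk, fun A _ hA => hl A (hlaw A hA)⟩
  have ex : ev (x0 p) (y0 p) (z0 p) (FreeAlgebra.ι ℤ 0) = x0 p := by simp [ev]
  have ez : ev (x0 p) (y0 p) (z0 p) (FreeAlgebra.ι ℤ 2) = z0 p := by simp [ev]
  by_cases c1 : b 1 1 = 0
  · by_cases c2 : b 0 1 = 0
    · by_cases c3 : b 1 2 = 0
      · by_cases c4 : b 0 2 = 0
        · exfalso
          apply hb0
          ext1 i j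
          fin_cases i <;> fin_cases j <;> simp [s1, s2, c1, c2, c3, c4]
        · refine fin G (by rw [hval]; exact c4) fun A _ hA => hA
      · refine fin (FreeAlgebra.ι ℤ 0 * G) ?_ fun A _ hA x y z => ?_
        · rw [map_mul, hval, ex]
          simpa [Matrix.mul_apply, Fin.sum_univ_three] using c3
        · rw [map_mul, hA, mul_zero]
    · refine fin (G * FreeAlgebra.ι ℤ 2) ?_ fun A _ hA x y z => ?_
      · rw [map_mul, hval, ez]
        simpa [Matrix.mul_apply, Fin.sum_univ_three] using c2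
      · rw [map_mul, hA, zero_mul]
  · refine fin (FreeAlgebra.ι ℤ 0 * G * FreeAlgebra.ι ℤ 2) ?_ fun A _ hA x y z => ?_
    · rw [map_mul, map_mul, hval, ex, ez]
      simpa [Matrix.mul_apply, Fin.sum_univ_three] using c1
    · rw [map_mul, map_mul, hA, mul_zero, zero_mul]

end Pool.Agent.N62.RK.LAW0
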