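import Pool.Agent.N62.RK.Stm

/-!
Task LAW1 of project RK: the ring `B0 p` violates every law for which the coefficients of the
monomials `x y^k z` generate the unit ideal (adapted from `Pool/Agent/N62/RF/LAW1.lean`).
-/

set_option autoImplicit false

namespace Pool.Agent.N62.RK.LAW1

open Polynomial

/-- the three matrices -/
noncomputable def mt (F : Type) [CommRing F] : Fin 3 → Matrix (Fin 3) (Fin 3) F[X] :=
  ![Matrix.single 0 1 1, Matrix.single 1 1 X, Matrix.single 1 2 1]

theorem basis_eq {F : Type} [CommRing F] (w : FreeMonoid (Fin 3)) :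
    FreeAlgebra.basisFreeMonoid F (Fin 3) w =
      ((FreeMonoid.toList w).map (FreeAlgebra.ι F)).prod := by
  have h1 : FreeAlgebra.basisFreeMonoid F (Fin 3) w =
      FreeAlgebra.equivMonoidAlgebraFreeMonoid.symm (MonoidAlgebra.single w (1 : F)) := by
    simp [FreeAlgebra.basisFreeMonoid]
  rw [h1]
  show MonoidAlgebra.lift F (FreeAlgebra F (Fin 3)) (FreeMonoid (Fin 3))
    (FreeMonoid.lift (FreeAlgebra.ι F)) (MonoidAlgebra.single w (1 : F)) = _
  rw [MonoidAlgebra.lift_single, one_smul, FreeMonoid.lift_apply]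

variable {F : Type} [Field F]

theorem single_mul' (i j : Fin 3) (c : F[X]) (P : Matrix (Fin 3) (Fin 3) F[X]) (r l : Fin 3) :
    (Matrix.single i j c * P) r l = if r = i then c * P j l else 0 := by
  by_cases h : r = i
  · subst h
    rw [if_pos rfl, Matrix.single_mul_apply_same]
  · rw [if_neg h, Matrix.single_mul_apply_of_ne _ _ _ _ _ h]

/-- column two of a product of matrices -/
theorem col (w : List (Fin 3)) :
    (((w.map (mt F)).prod) 2 2 = if w = [] then 1 else 0) ∧
    (∀ k, (((w.map (mt F)).prod) 1 2).coeff k = if w = List.replicate k 1 ++ [2] then 1 else 0) ∧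
    ∀ k, (((w.map (mt F)).prod) 0 2).coeff k = if w = xyz k then 1 else 0 := by
  induction w with
  | nil =>
    refine ⟨by simp, fun k => ?_, fun k => ?_⟩
    · simp
    · simp [xyz]
  | cons a w ih =>
    obtain ⟨i1, i2, i3⟩ := ih
    rw [List.map_cons, List.prod_cons]
    generalize (w.map (mt F)).prod = P at i1 i2 i3
    fin_cases a
    · -- the letter `x`
      show ((Matrix.single 0 1 1 * P : Matrix (Fin 3) (Fin 3) F[X]) 2 2 = _) ∧
        (∀ k, ((Matrix.single 0 1 1 * P : Matrix (Fin 3) (Fin 3) F[X]) 1 2).coeff k = _) ∧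
        ∀ k, ((Matrix.single 0 1 1 * P : Matrix (Fin 3) (Fin 3) F[X]) 0 2).coeff k = _
      simp only [single_mul']
      refine ⟨by simp, fun k => ?_, fun k => ?_⟩
      · rcases k with _ | k <;> simp [List.replicate_succ]
      · simp only [if_true, one_mul, i2]
        refine if_congr ?_ rfl rfl
        simp [xyz]
    · show ((Matrix.single 1 1 X * P : Matrix (Fin 3) (Fin 3) F[X]) 2 2 = _) ∧
        (∀ k, ((Matrix.single 1 1 X * P : Matrix (Fin 3) (Fin 3) F[X]) 1 2).coeff k = _) ∧
        ∀ k, ((Matrix.single 1 1 X * P : Matrix (Fin 3) (Fin 3) F[X]) 0 2).coeff k = _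
      simp only [single_mul']
      refine ⟨by simp, fun k => ?_, fun k => ?_⟩
      · rw [if_true]
        rcases k with _ | k
        · rw [coeff_X_mul_zero]
          simp
        · rw [coeff_X_mul, i2]
          refine if_congr ?_ rfl rfl
          simp [List.replicate_succ]
      · simp [xyz]
    · show ((Matrix.single 1 2 1 * P : Matrix (Fin 3) (Fin 3) F[X]) 2 2 = _) ∧
        (∀ k, ((Matrix.single 1 2 1 * P : Matrix (Fin 3) (Fin 3) F[X]) 1 2).coeff k = _) ∧
        ∀ k, ((Matrix.single 1 2 1 * P : Matrix (Fin 3) (Fin 3) F[X]) 0 2).coeff k = _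
      simp only [single_mul']
      refine ⟨by simp, fun k => ?_, fun k => ?_⟩
      · rw [if_true, one_mul, i1]
        rcases k with _ | k
        · by_cases hw : w = [] <;> simp [hw]
        · by_cases hw : w = []
          · simp [hw, List.replicate_succ, coeff_one]
          · simp [hw, List.replicate_succ]
      · simp [xyz]

/-- the entry `(0, 2)` of the value -/
theorem entry (f : FreeAlgebra ℤ (Fin 3)) (k : ℕ) :
    ((FreeAlgebra.lift ℤ (mt F) f) 0 2).coeff k = ((cf f (xyz k) : ℤ) : F) := by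
  let A : FreeAlgebra ℤ (Fin 3) →ₗ[ℤ] F :=
    AddMonoidHom.toIntLinearMap
      { toFun := fun f => ((FreeAlgebra.lift ℤ (mt F) f) 0 2).coeff k
        map_zero' := by simp
        map_add' := fun a b => by simp }
  let B : FreeAlgebra ℤ (Fin 3) →ₗ[ℤ] F :=
    AddMonoidHom.toIntLinearMap
      { toFun := fun f => ((cf f (xyz k) : ℤ) : F)
        map_zero' := by simp [cf]
        map_add' := fun a b => by simp [cf] }
  have hAB : A = B := by
    refine (FreeAlgebra.basisFreeMonoid ℤ (Fin 3)).ext fun w => ?_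
    have hA : A (FreeAlgebra.basisFreeMonoid ℤ (Fin 3) w) =
        ((((FreeMonoid.toList w).map (mt F)).prod) 0 2).coeff k := by
      show ((FreeAlgebra.lift ℤ (mt F) (FreeAlgebra.basisFreeMonoid ℤ (Fin 3) w)) 0 2).coeff k = _
      rw [basis_eq, map_list_prod, List.map_map]
      have e : (FreeAlgebra.lift ℤ (mt F)) ∘ (FreeAlgebra.ι ℤ) = mt F := by
        funext i
        exact FreeAlgebra.lift_ι_apply _ _
      rw [e]
    have hB : B (FreeAlgebra.basisFreeMonoid ℤ (Fin 3) w) =
        if FreeMonoid.toList w = xyz k then 1 else 0 := by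
      show (((FreeAlgebra.basisFreeMonoid ℤ (Fin 3)).repr
        (FreeAlgebra.basisFreeMonoid ℤ (Fin 3) w) (FreeMonoid.ofList (xyz k)) : ℤ) : F) = _
      rw [Module.Basis.repr_self]
      by_cases h : FreeMonoid.toList w = xyz k
      · have h' : w = FreeMonoid.ofList (xyz k) := by rw [← h]; rfl
        rw [if_pos h, ← h', Finsupp.single_eq_same, Int.cast_one]
      · rw [if_neg h]
        have h2 : (Finsupp.single w (1 : ℤ)) (FreeMonoid.ofList (xyz k)) = 0 := by
          refine Finsupp.single_eq_of_ne ?_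
          intro h'
          apply h
          rw [← h']
          rfl
        rw [h2, Int.cast_zero]
    exact hA.trans (((col _).2.2 k).trans hB.symm)
  exact LinearMap.congr_fun hAB f

/-- some coefficient is not divisible by `p` -/
theorem exists_coef {p : ℕ} (hp : p.Prime) {f : FreeAlgebra ℤ (Fin 3)} (hf : PrimF f) :
    ∃ k : ℕ, ((cf f (xyz k) : ℤ) : ZMod p) ≠ 0 := by
  by_contra hcon
  push Not at hcon
  have h1 : Ideal.span (Set.range fun k : ℕ => cf f (xyz k)) ≤ Ideal.span {(p : ℤ)} := by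
    rw [Ideal.span_le]
    rintro _ ⟨k, rfl⟩
    exact Ideal.mem_span_singleton.2 ((ZMod.intCast_zmod_eq_zero_iff_dvd _ _).1 (hcon k))
  have h2 : (1 : ℤ) ∈ Ideal.span {(p : ℤ)} := by
    apply h1
    rw [hf]
    trivial
  have h3 := Ideal.mem_span_singleton.1 h2
  have h4 : (p : ℤ) ∣ ((1 : ℕ) : ℤ) := by simpa using h3
  exact hp.one_lt.ne' (Nat.dvd_one.1 (Int.natCast_dvd_natCast.1 h4))

theorem t : S_LAW1 := by
  intro p hp f hf hl
  have : Fact p.Prime := ⟨hp⟩
  obtain ⟨k, hk⟩ := exists_coef hp hf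
  have hx : (Matrix.single 0 1 1 : Matrix (Fin 3) (Fin 3) (ZMod p)[X]) ∈ B0 p :=
    NonUnitalSubring.subset_closure (by simp)
  have hy : (Matrix.single 1 1 X : Matrix (Fin 3) (Fin 3) (ZMod p)[X]) ∈ B0 p :=
    NonUnitalSubring.subset_closure (by simp)
  have hz : (Matrix.single 1 2 1 : Matrix (Fin 3) (Fin 3) (ZMod p)[X]) ∈ B0 p :=
    NonUnitalSubring.subset_closure (by simp)
  have h1 := hl ⟨_, hx⟩ ⟨_, hy⟩ ⟨_, hz⟩
  let ι0 : B0 p →ₙₐ[ℤ] Matrix (Fin 3) (Fin 3) (ZMod p)[X] :=
    { toFun := fun a => a.1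
      map_smul' := fun n a => by simp
      map_zero' := rfl
      map_add' := fun a b => rfl
      map_mul' := fun a b => rfl }
  let θ : Unitization ℤ (B0 p) →ₐ[ℤ] Matrix (Fin 3) (Fin 3) (ZMod p)[X] := Unitization.lift ι0
  have h2 := congrArg θ h1
  rw [map_zero] at h2
  have h3 : ∀ g : FreeAlgebra ℤ (Fin 3),
      θ (ev (((⟨_, hx⟩ : B0 p)) : Unitization ℤ (B0 p)) ((⟨_, hy⟩ : B0 p)) ((⟨_, hz⟩ : B0 p)) g) =
        FreeAlgebra.lift ℤ (mt (ZMod p)) g := by
    intro g
    have h4 : θ.comp (ev (((⟨_, hx⟩ : B0 p)) : Unitization ℤ (B0 p)) ((⟨_, hy⟩ : B0 p))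
        ((⟨_, hz⟩ : B0 p))) = FreeAlgebra.lift ℤ (mt (ZMod p)) := by
      apply FreeAlgebra.hom_ext
      funext i
      simp only [Function.comp_apply, AlgHom.comp_apply, ev, FreeAlgebra.lift_ι_apply]
      fin_cases i <;> simp [θ, mt, ι0]
    exact AlgHom.congr_fun h4 g
  rw [h3] at h2
  apply hk
  rw [← entry f k, h2]
  simp

end Pool.Agent.N62.RK.LAW1
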