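import Pool.Agent.N62.RK.Defs

/-!
Locally residually finite varieties: the list of tasks (exact statements).
-/

set_option autoImplicit false

namespace Pool.Agent.N62.RK

open MvPolynomial

/-! ### Combinatorics and commutative algebra -/

/-- Task INT. -/
def S_INT : Prop := ∀ (F : Type) [CommRing F] [Algebra.FiniteType ℤ F] (Φ : MvPolynomial (Fin 3) F), Prim (mid Φ) →
  ∃ P ∈ aI Φ, ∃ N, 1 ≤ N ∧ MonicM P N

/-- value of a word in base `s` (for words of equal length this is the lexicographic order) -/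
def wval (s : ℕ) (w : List (Fin s)) : ℕ := w.foldl (fun a x => a * s + x) 0

/-- Task WORD. -/
def S_WORD : Prop := ∀ s d N : ℕ, ∃ β : ℕ, ∀ w : List (Fin s), β ≤ w.length →
  (∃ a v b : List (Fin s), w = a ++ (List.replicate N v).flatten ++ b ∧ v ≠ [] ∧ v.length ≤ d) ∨
  (∃ a b : List (Fin s), ∃ u : Fin d → List (Fin s), w = a ++ (List.ofFn u).flatten ++ b ∧
    (∀ i, u i ≠ []) ∧ ∀ π : Equiv.Perm (Fin d), π ≠ 1 →
      wval s (a ++ (List.ofFn fun i => u (π i)).flatten ++ b) < wval s w)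

/-- Task RW. -/
def S_RW : Prop := ∀ s d N : ℕ, ∃ β : ℕ, ∀ (F : Type) [CommRing F] (U : Type) [Ring U] [Algebra F U]
  (A : Submodule F U), Idl A → MPI A d → ∀ g : Fin s → U, (∀ i, g i ∈ A) →
  ∀ (φ : U →ₗ[F] U) (T : Submodule F U) (Q : List (Fin s) → Prop),
  (∀ w w', w.Perm w' → Q w → Q w') →
  (∀ a v b : List (Fin s), v ≠ [] → v.length ≤ d →
    Q (a ++ (List.replicate N v).flatten ++ b) →
    (∀ w' : List (Fin s), w'.length < (a ++ (List.replicate N v).flatten ++ b).length → Q w' →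
      φ (w'.map g).prod ∈ T) →
    φ ((a ++ (List.replicate N v).flatten ++ b).map g).prod ∈ T) →
  (∀ w : List (Fin s), w.length < β → Q w → φ (w.map g).prod ∈ T) →
  ∀ w : List (Fin s), Q w → φ (w.map g).prod ∈ T

/-- Task NOETH. -/
def S_NOETH : Prop := ∀ (R : Type) [CommRing R] [IsNoetherianRing R] (M : Type) [AddCommGroup M]
  [Module R M] [Module.Finite R M] (l r : R),
  (∃ m : ℕ, ∀ w v v' : M, w = l ^ m • v + r ^ m • v' → l • w = 0 → r • w = 0 → w = 0) ∧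
  (∀ K' : ℕ, ∃ K, K' ≤ K ∧ ∀ v v' : M, l ^ K • v + r ^ K • v' = 0 →
    ∃ u : M, l ^ (K - K') • v = r ^ K' • u ∧ r ^ (K - K') • v' = -(l ^ K' • u))

/-! ### The law -/

/-- Task TRI. -/
def S_TRI : Prop := ∀ (F : Type) [CommRing F] (U : Type) [Ring U] [Algebra F U] (A : Submodule F U)
  (Φ : MvPolynomial (Fin 3) F) (e : FreeAlgebra F (Fin 3)), Idl A → LawOn A Φ e →
  ∀ c ∈ A, ∀ x ∈ A, ∀ z ∈ A, ∀ (Q : Polynomial F) (T : Submodule F U),
  (∀ (a b l : ℕ) (p : Polynomial F), p.coeff 0 = 0 →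
    ev (c ^ a * x * c ^ b * Polynomial.aeval c Q) (Polynomial.aeval c p) (z * c ^ l) e ∈ T) →
  ∀ G ∈ aI Φ, tri c x z (Polynomial.aeval (X 0) Q * G) ∈ T

/-- Task LAWEXT. -/
def S_LAWEXT : Prop := ∀ (F : Type) [CommRing F] (f : FreeAlgebra F (Fin 3)),
  PrimF f → ∃ (Φ : MvPolynomial (Fin 3) F) (e : FreeAlgebra F (Fin 3)),
    Prim (mid Φ) ∧ Err e ∧ ∀ (U : Type) [Ring U] [Algebra F U] (A : Submodule F U),
      Idl A → On A f → LawOn A Φ e

/-- Task MPI. -/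
def S_MPI : Prop := ∀ (F : Type) [CommRing F] (f : FreeAlgebra F (Fin 3)), PrimF f →
  ∀ (U : Type) [Ring U] [Algebra F U] (A : Submodule F U), Idl A → On A f → ∃ d, MPI A d

/-- Task LIN. -/
def S_LIN : Prop := ∀ (F : Type) [CommRing F] (n : ℕ) (f : FreeAlgebra F (Fin n)) (q : Ideal F)
  (w0 : List (Fin n)),
  (∀ w : List (Fin n), w0.length < w.length →
    (FreeAlgebra.basisFreeMonoid F (Fin n)).repr f (FreeMonoid.ofList w) ∈ q) →
  ∀ (C : Type) [Ring C] [Algebra F C] (M : Type) [AddCommGroup M] [Module C M]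
    (S : Submodule F C), (∀ κ ∈ q, ∀ v : M, algebraMap F C κ • v = 0) →
  (∀ a : Fin n → C, (∀ i, a i ∈ S) → ∀ v : M, FreeAlgebra.lift F a f • v = 0) →
  ∀ a : Fin w0.length → C, (∀ i, a i ∈ S) → ∀ v : M,
    (∑ τ : Equiv.Perm (Fin w0.length), (FreeAlgebra.basisFreeMonoid F (Fin n)).repr f
      (FreeMonoid.ofList (List.ofFn fun k => w0.get (τ k))) •
        (List.ofFn fun k => a (τ k)).prod) • v = 0

/-- Task MAT. -/
def S_MAT : Prop := ∀ (C : Type) [Ring C] (I : TwoSidedIdeal C) (d : ℕ),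
  (∀ (M : Type) [AddCommGroup M] [Module (Polynomial C) M] [IsSimpleModule (Polynomial C) M],
    ∃ m, m ≤ d ∧ ∃ (c : Equiv.Perm (Fin m) → C) (π0 : Equiv.Perm (Fin m)),
      (∀ π, ∀ r : C, c π * r = r * c π) ∧
      (∀ v : M, (Polynomial.C (c π0) : Polynomial C) • v = 0 → v = 0) ∧
      ∀ a : Fin m → C, (∀ i, a i ∈ I) → ∀ v : M,
        (Polynomial.C (∑ π, c π * (List.ofFn fun k => a (π k)).prod) : Polynomial C) • v = 0) →
  ∀ β ∈ I, (∀ k, β ^ k ≠ 0) →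
    ∃ (K : Type) (_ : Field K) (s : ℕ) (Θ : C →+* Matrix (Fin s) (Fin s) K),
      s ≤ d ∧ ∀ k, Θ β ^ k ≠ 0

/-- the standard polynomial -/
def stdp {U : Type} [Ring U] {N : ℕ} (t : Fin N → U) : U :=
  ∑ π : Equiv.Perm (Fin N), ((Equiv.Perm.sign π : ℤˣ) : ℤ) • (List.ofFn fun k => t (π k)).prod

/-- Task STD. -/
def S_STD : Prop := ∀ (K : Type) [Field K] (s N : ℕ), s * s < N →
  ∀ t : Fin N → Matrix (Fin s) (Fin s) K, stdp t = 0

/-- Task PW. -/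
def S_PW : Prop := ∀ (F : Type) [CommRing F] (U : Type) [Ring U] [Algebra F U]
  (A : Submodule F U) (N m : ℕ), (∀ t : Fin N → U, (∀ i, t i ∈ A) → stdp t ^ m = 0) →
  MPI A (N * m)

/-- the standing hypotheses -/
structure Ctx {F : Type} [CommRing F] {U : Type} [Ring U] [Algebra F U] (A : Submodule F U)
    (Φ : MvPolynomial (Fin 3) F) (e : FreeAlgebra F (Fin 3)) (d : ℕ) {s : ℕ} (g : Fin s → U) :
    Prop where
  idl : Idl A
  law : LawOn A Φ e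
  err : Err e
  mid : Prim (mid Φ)
  mpi : MPI A d
  gA : ∀ i, g i ∈ A
  gen : Algebra.adjoin F (Set.range g) = ⊤

/-- Task RED. -/
def S_RED : Prop := ∀ (F : Type) [CommRing F] [Algebra.FiniteType ℤ F] (U : Type) [Ring U] [Algebra F U]
  (A : Submodule F U) (Φ : MvPolynomial (Fin 3) F) (e : FreeAlgebra F (Fin 3)) (d s : ℕ)
  (g : Fin s → U), Ctx A Φ e d g →
  ∃ B : Finset U, ∀ I : Submodule F U, Idl I → I ≤ A → ∀ i j, 1 ≤ i → 1 ≤ j →
    ∀ x ∈ ip I i, ∀ z ∈ ip I j, ∀ u : U,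
      x * u * z ∈ idg F {t | ∃ b ∈ B, t = x * b * z} ⊔ ip I (i + j + 1)

/-- Task GEN. -/
def S_GEN : Prop := ∀ (F : Type) [CommRing F] [Algebra.FiniteType ℤ F] (U : Type) [Ring U] [Algebra F U]
  (A : Submodule F U) (Φ : MvPolynomial (Fin 3) F) (e : FreeAlgebra F (Fin 3)) (d s : ℕ)
  (g : Fin s → U), Ctx A Φ e d g →
  ∀ S : Finset U, (S : Set U) ⊆ A →
    ∃ T : Finset U, (T : Set U) ⊆ idg F (S : Set U) ∧ ∀ n, 1 ≤ n →
      ip (idg F (S : Set U)) n ≤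
        idg F {t | ∃ l : List U, l.length = n ∧ (∀ a ∈ l, a ∈ T) ∧ t = l.prod} ⊔
          ip (idg F (S : Set U)) (n + 1)

/-- Task SW. -/
def S_SW : Prop := ∀ (F : Type) [CommRing F] [Algebra.FiniteType ℤ F] (U : Type) [Ring U] [Algebra F U]
  (A : Submodule F U) (Φ : MvPolynomial (Fin 3) F) (e : FreeAlgebra F (Fin 3)) (d s : ℕ)
  (g : Fin s → U), Ctx A Φ e d g →
  ∀ S : Finset U, (S : Set U) ⊆ A → (∀ t ∈ idg F (S : Set U), ∃ k, t ^ k = 0) →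
    ∃ n, ∀ Y : Submodule F U, Idl Y → Y ≤ A → ∀ x ∈ Y, ∀ z ∈ Y,
      ∀ t ∈ ip (idg F (S : Set U)) n, x * t * z ∈ ip Y 3

/-- Task K. -/
def S_K : Prop := ∀ (F : Type) [CommRing F] (U : Type) [Ring U] [Algebra F U]
  (A : Submodule F U) (d : ℕ), Idl A → MPI A d → ∀ S : Finset U, (S : Set U) ⊆ A →
  (∀ l : List U, l ≠ [] → (∀ a ∈ l, a ∈ S) → ∃ k, l.prod ^ k = 0) →
  ∃ n, ∀ l : List U, (∀ a ∈ l, a ∈ S) → n ≤ l.length → l.prod = 0

/-- Task NILP. -/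
def S_NILP : Prop := ∀ (F : Type) [CommRing F] [Algebra.FiniteType ℤ F] (U : Type) [Ring U] [Algebra F U]
  (A : Submodule F U) (Φ : MvPolynomial (Fin 3) F) (e : FreeAlgebra F (Fin 3)) (d s : ℕ)
  (g : Fin s → U), Ctx A Φ e d g →
  ∀ S : Finset U, (S : Set U) ⊆ A → (∀ t ∈ idg F (S : Set U), ∃ k, t ^ k = 0) →
    ∃ n, ip (idg F (S : Set U)) n = ⊥

/-- Task CLAIM. -/
def S_CLAIM : Prop := ∀ (F : Type) [CommRing F] (U : Type) [Ring U] [Algebra F U]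
  (A D : Submodule F U) (Φ : MvPolynomial (Fin 3) F) (e : FreeAlgebra F (Fin 3)),
  Idl A → Idl D → D ≤ A → (∀ u v : U, u * v - v * u ∈ D) → (∃ n, ip D n = ⊥) →
  LawOn A Φ e → Err e →
  ∀ P ∈ aI Φ, ∀ (π : Polynomial F) (a0 : ℕ), π.coeff 0 = 0 → mid P ∣ π ^ a0 →
  ∀ c ∈ A, ∀ m : ℕ, ∃ k : ℕ, ∀ u v : U, ∃ s t : U,
    u * (Polynomial.aeval c π) ^ k * v = c ^ m * s + t * c ^ m

/-! ### Layers -/

/-- Task LAYER. -/
def S_LAYER : Prop := ∀ (F : Type) [CommRing F] [IsNoetherianRing F] (U : Type) [Ring U] [Algebra F U]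
  (D V W : Submodule F U) (s : ℕ) (g : Fin s → U), Idl V → Idl W → W ≤ V →
  Algebra.adjoin F (Set.range g) = ⊤ → (∀ u v : U, u * v - v * u ∈ D) →
  (∀ d ∈ D, ∀ v ∈ V, d * v ∈ W ∧ v * d ∈ W) →
  ∀ G : Finset U, (G : Set U) ⊆ V → V ≤ idg F (G : Set U) ⊔ W → ∀ c : U, ARP c V W

/-- Task ARPX. -/
def S_ARPX : Prop := ∀ (F : Type) [CommRing F] (U : Type) [Ring U] [Algebra F U] (c : U)
  (V W Z : Submodule F U), Idl V → Idl W → Idl Z → ARP c V W → ARP c W Z → ARP c V Z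

/-! ### Rings generated by one element: quotients of `ℤ` -/

/-- `F` is a homomorphic image of `ℤ` -/
def Cyc (F : Type) [CommRing F] : Prop := Function.Surjective (Int.castRingHom F)

/-- Task HFIN. -/
def S_HFIN : Prop := ∀ (F : Type) [CommRing F], Cyc F → ∀ (U : Type) [Ring U] [Algebra F U]
  (D : Submodule F U) (s : ℕ) (g : Fin s → U), Idl D → Algebra.adjoin F (Set.range g) = ⊤ →
  (∀ u v : U, u * v - v * u ∈ D) → (∃ n, ip D n = ⊥) →
  ∀ w : U, w ≠ 0 → (∀ I : Submodule F U, Idl I → I ≠ ⊥ → w ∈ I) →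
  (∃ n : ℕ, 1 ≤ n ∧ n • w = 0) ∧
  ∀ a : U, ∃ ψ : Polynomial F, ψ.Monic ∧ ψ.coeff 0 = 0 ∧ Polynomial.aeval a ψ * w = 0 ∧
    w * Polynomial.aeval a ψ = 0

/-- Task FINU. -/
def S_FINU : Prop := ∀ (F : Type) [CommRing F], Cyc F → ∀ (U : Type) [Ring U] [Algebra F U]
  (D : Submodule F U) (s : ℕ) (g : Fin s → U), Idl D → Algebra.adjoin F (Set.range g) = ⊤ →
  (∀ u v : U, u * v - v * u ∈ D) → (∃ n, ip D n = ⊥) →
  (∀ n, 1 ≤ n → ∃ G : Finset U, (G : Set U) ⊆ ip D n ∧ ip D n ≤ idg F (G : Set U) ⊔ ip D (n + 1)) →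
  (∃ n : ℕ, 1 ≤ n ∧ n • (1 : U) = 0) →
  (∀ i, ∃ ψ : Polynomial F, ψ.Monic ∧ Polynomial.aeval (g i) ψ = 0) → Finite U

/-- Task BOUND. -/
def S_BOUND : Prop := ∀ (F : Type) [CommRing F] (f : FreeAlgebra F (Fin 3)),
  PrimF f → ∃ κ : ℕ, ∀ (U : Type) [Ring U] [Algebra F U] (A : Submodule F U),
    Idl A → On A f → ∀ (M : Type) [AddCommGroup M] [Module U M] [Finite M] [IsSimpleModule U M],
    (∃ a ∈ A, ∃ b ∈ A, ∃ v : M, (a * b - b * a) • v ≠ 0) → Nat.card M ≤ κ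

/-- Task FININT. -/
def S_FININT : Prop := ∀ (F : Type) [CommRing F], Cyc F → ∀ (A : Type) [NonUnitalRing A]
  [Module F A] [IsScalarTower F A A] [SMulCommClass F A A], FGA F A → ∀ n : ℕ,
  ∃ J : Submodule F A, NIdl F A J ∧ Finite (A ⧸ J) ∧
    ∀ J' : Submodule F A, NIdl F A J' → Finite (A ⧸ J') → Nat.card (A ⧸ J') ≤ n → J ≤ J'

/-- Task MAXL. -/
def S_MAXL : Prop := ∀ (F : Type) [CommRing F], Cyc F → ∀ (f : FreeAlgebra F (Fin 3)), PrimF f →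
  ∀ (A : Type) [NonUnitalRing A] [Module F A]
  [IsScalarTower F A A] [SMulCommClass F A A], FGA F A → Law3 F A f →
  ∃ J : Submodule F A, NIdl F A J ∧ Finite (A ⧸ J) ∧ ∀ δ ∈ J, InD F A δ → Nlp F A δ

/-- Task FI. -/
def S_FI : Prop := ∀ (F : Type) [CommRing F], Cyc F → ∀ (A : Type) [NonUnitalRing A] [Module F A]
  [IsScalarTower F A A] [SMulCommClass F A A], FGA F A → ∀ B : NonUnitalSubalgebra F A,
  NIdl F A B.toSubmodule → Finite (A ⧸ B.toSubmodule) → FGA F B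

/-- Task UP. -/
def S_UP : Prop := ∀ (F : Type) [CommRing F] (A : Type) [NonUnitalRing A] [Module F A]
  [IsScalarTower F A A] [SMulCommClass F A A] (B : NonUnitalSubalgebra F A),
  NIdl F A B.toSubmodule → Finite (A ⧸ B.toSubmodule) → RFi F B → RFi F A

/-- The case of a nil commutator ideal. -/
def S_NILCASE : Prop := ∀ (F : Type) [CommRing F], Cyc F → ∀ (f : FreeAlgebra F (Fin 3)),
  PrimF f → ∀ (A : Type) [NonUnitalRing A] [Module F A]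
  [IsScalarTower F A A] [SMulCommClass F A A], FGA F A → Law3 F A f →
  (∀ δ : A, InD F A δ → Nlp F A δ) → RFi F A

/-! ### Identities, the rings `B0 p` and the converse -/

/-- the free associative (nonunital) ring on `x_0, x_1, ...` -/
abbrev FreeR : Type := MonoidAlgebra ℤ (FreeSemigroup ℕ)

/-- the identity `f = 0` holds in the ring `R` -/
def Sat (R : Type) [NonUnitalRing R] (f : FreeR) : Prop := ∀ φ : FreeR →ₙ+* R, φ f = 0

/-- the ring generated by `e_12`, `t e_22`, `e_23` over the polynomial ring over `ZMod p` -/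
noncomputable def B0 (p : ℕ) :
    NonUnitalSubring (Matrix (Fin 3) (Fin 3) (Polynomial (ZMod p))) :=
  NonUnitalSubring.closure {Matrix.single 0 1 1, Matrix.single 1 1 Polynomial.X,
    Matrix.single 1 2 1}

/-- finitely generated rings -/
def FGR (R : Type) [NonUnitalRing R] : Prop :=
  ∃ S : Finset R, NonUnitalSubring.closure (S : Set R) = ⊤

/-- residually finite rings -/
def RFR (R : Type) [NonUnitalRing R] : Prop :=
  ∀ a : R, a ≠ 0 → ∃ (B : Type) (_ : NonUnitalRing B) (φ : R →ₙ+* B),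
    Function.Surjective φ ∧ Finite B ∧ φ a ≠ 0

/-- Task LAW0. -/
def S_LAW0 : Prop := ∀ (p : ℕ), p.Prime → ∀ f0 : FreeR, ¬ Sat (B0 p) f0 →
  ∃ (f : FreeAlgebra ℤ (Fin 3)) (k : ℕ), ¬ (p : ℤ) ∣ cf f (xyz k) ∧
    ∀ (R : Type) [NonUnitalRing R], Sat R f0 → Law3 ℤ R f

/-- Task COMB. -/
def S_COMB : Prop := ∀ E : Set FreeR,
  (∀ p : ℕ, p.Prime → ∃ (f : FreeAlgebra ℤ (Fin 3)) (k : ℕ), ¬ (p : ℤ) ∣ cf f (xyz k) ∧
    ∀ (R : Type) [NonUnitalRing R], (∀ g ∈ E, Sat R g) → Law3 ℤ R f) →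
  ∃ f : FreeAlgebra ℤ (Fin 3), PrimF f ∧
    ∀ (R : Type) [NonUnitalRing R], (∀ g ∈ E, Sat R g) → Law3 ℤ R f

/-- Task LAW1. -/
def S_LAW1 : Prop := ∀ (p : ℕ), p.Prime → ∀ f : FreeAlgebra ℤ (Fin 3), PrimF f →
  ¬ Law3 ℤ (B0 p) f

/-- Task CONV. -/
def S_CONV : Prop := ∀ (p : ℕ), p.Prime → ∃ (C : Type) (_ : NonUnitalRing C) (φ : B0 p →ₙ+* C),
  Function.Surjective φ ∧ FGR C ∧ ¬ RFR C

/-- Task QUOT. -/
def S_QUOT : Prop := ∀ (R : Type) [NonUnitalRing R], RFi ℤ R → RFR R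

end Pool.Agent.N62.RK
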