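import Pool.Agent.N62.RK.Stm

/-!
Locally residually finite varieties: the task LAYER (helper644 for helper62).
-/

set_option autoImplicit false

namespace Pool.Agent.N62.RK.LAYER

open MvPolynomial

section hom

variable {F : Type} [CommRing F]

/-- pairwise commuting elements are the values of the variables of a polynomial ring -/
lemma exists_hom {σ : Type} {E : Type} [Ring E] [Algebra F E] (a : σ → E)
    (h : ∀ i j, a i * a j = a j * a i) :
    ∃ φ : MvPolynomial σ F →ₐ[F] E, ∀ i, φ (X i) = a i := by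
  letI : CommRing (Algebra.adjoin F (Set.range a)) :=
    Algebra.adjoinCommRingOfComm F (by
      rintro _ ⟨i, rfl⟩ _ ⟨j, rfl⟩
      exact h i j)
  refine ⟨(Algebra.adjoin F (Set.range a)).val.comp
    (MvPolynomial.aeval (fun i => (⟨a i, Algebra.subset_adjoin ⟨i, rfl⟩⟩ :
      Algebra.adjoin F (Set.range a)))), fun i => ?_⟩
  rw [AlgHom.comp_apply, MvPolynomial.aeval_X]
  rfl

end hom

section layer

variable {F : Type} [CommRing F] {U : Type} [Ring U] [Algebra F U] {V W : Submodule F U}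

/-- the layer `V / W` -/
abbrev Q (V W : Submodule F U) : Type := V ⧸ W.comap V.subtype

/-- the class of an element of `V` -/
def mk (W : Submodule F U) (v : V) : Q V W := Submodule.Quotient.mk v

lemma mk_eq {v v' : V} : mk W v = mk W v' ↔ (v : U) - v' ∈ W :=
  Submodule.Quotient.eq _

lemma mk_zero {v : V} : mk W v = 0 ↔ (v : U) ∈ W :=
  Submodule.Quotient.mk_eq_zero _

/-- left multiplication on `V` -/
def lV (hV : Idl V) (u : U) : V →ₗ[F] V :=
  (LinearMap.mulLeft F u).restrict (fun x hx => (hV u x hx).1)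

/-- right multiplication on `V` -/
def rV (hV : Idl V) (u : U) : V →ₗ[F] V :=
  (LinearMap.mulRight F u).restrict (fun x hx => (hV u x hx).2)

/-- left multiplication on `V / W` -/
def lQ (hV : Idl V) (hW : Idl W) (u : U) : Module.End F (Q V W) :=
  (W.comap V.subtype).mapQ (W.comap V.subtype) (lV hV u) (fun x hx => (hW u _ hx).1)

/-- right multiplication on `V / W` -/
def rQ (hV : Idl V) (hW : Idl W) (u : U) : Module.End F (Q V W) :=
  (W.comap V.subtype).mapQ (W.comap V.subtype) (rV hV u) (fun x hx => (hW u _ hx).2)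

variable (hV : Idl V) (hW : Idl W)

lemma lQ_mk (u : U) (v : V) : lQ hV hW u (mk W v) = mk W (lV hV u v) := rfl

lemma rQ_mk (u : U) (v : V) : rQ hV hW u (mk W v) = mk W (rV hV u v) := rfl

lemma lV_coe (u : U) (v : V) : (lV hV u v : U) = u * v := rfl

lemma rV_coe (u : U) (v : V) : (rV hV u v : U) = v * u := rfl

lemma ext_end {f f' : Module.End F (Q V W)} (h : ∀ v : V, f (mk W v) = f' (mk W v)) : f = f' := by
  apply LinearMap.ext
  intro q
  obtain ⟨v, rfl⟩ := Submodule.Quotient.mk_surjective _ q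
  exact h v

lemma lQ_mul (u u' : U) : lQ hV hW (u * u') = lQ hV hW u * lQ hV hW u' := by
  apply ext_end
  intro v
  rw [Module.End.mul_apply, lQ_mk, lQ_mk, lQ_mk, mk_eq, lV_coe, lV_coe, lV_coe, mul_assoc, sub_self]
  exact W.zero_mem

lemma rQ_mul (u u' : U) : rQ hV hW (u * u') = rQ hV hW u' * rQ hV hW u := by
  apply ext_end
  intro v
  rw [Module.End.mul_apply, rQ_mk, rQ_mk, rQ_mk, mk_eq, rV_coe, rV_coe, rV_coe, mul_assoc, sub_self]
  exact W.zero_mem

lemma lQ_add (u u' : U) : lQ hV hW (u + u') = lQ hV hW u + lQ hV hW u' := by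
  apply ext_end
  intro v
  rw [LinearMap.add_apply, lQ_mk, lQ_mk, lQ_mk]
  have : mk W (lV hV u v) + mk W (lV hV u' v) = mk W (lV hV u v + lV hV u' v) := rfl
  rw [this, mk_eq, lV_coe, Submodule.coe_add, lV_coe, lV_coe, add_mul, sub_self]
  exact W.zero_mem

lemma rQ_add (u u' : U) : rQ hV hW (u + u') = rQ hV hW u + rQ hV hW u' := by
  apply ext_end
  intro v
  rw [LinearMap.add_apply, rQ_mk, rQ_mk, rQ_mk]
  have : mk W (rV hV u v) + mk W (rV hV u' v) = mk W (rV hV u v + rV hV u' v) := rfl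
  rw [this, mk_eq, rV_coe, Submodule.coe_add, rV_coe, rV_coe, mul_add, sub_self]
  exact W.zero_mem

lemma lQ_alg (r : F) : lQ hV hW (algebraMap F U r) = algebraMap F (Module.End F (Q V W)) r := by
  apply ext_end
  intro v
  rw [lQ_mk, Module.algebraMap_end_apply]
  have : r • mk W v = mk W (r • v) := rfl
  rw [this, mk_eq, lV_coe, Submodule.coe_smul, Algebra.smul_def, sub_self]
  exact W.zero_mem

lemma rQ_alg (r : F) : rQ hV hW (algebraMap F U r) = algebraMap F (Module.End F (Q V W)) r := by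
  apply ext_end
  intro v
  rw [rQ_mk, Module.algebraMap_end_apply]
  have : r • mk W v = mk W (r • v) := rfl
  rw [this, mk_eq, rV_coe, Submodule.coe_smul, Algebra.smul_def, Algebra.commutes, sub_self]
  exact W.zero_mem

lemma lr_comm (u u' : U) : lQ hV hW u * rQ hV hW u' = rQ hV hW u' * lQ hV hW u := by
  apply ext_end
  intro v
  rw [Module.End.mul_apply, Module.End.mul_apply, lQ_mk, rQ_mk, lQ_mk, rQ_mk, mk_eq, lV_coe, rV_coe,
    rV_coe, lV_coe, mul_assoc, sub_self]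
  exact W.zero_mem

lemma ll_comm {D : Submodule F U} (hD : ∀ u v : U, u * v - v * u ∈ D)
    (hDV : ∀ d ∈ D, ∀ v ∈ V, d * v ∈ W ∧ v * d ∈ W) (u u' : U) :
    lQ hV hW u * lQ hV hW u' = lQ hV hW u' * lQ hV hW u := by
  rw [← lQ_mul, ← lQ_mul]
  apply ext_end
  intro v
  rw [lQ_mk, lQ_mk, mk_eq, lV_coe, lV_coe, ← sub_mul]
  exact (hDV _ (hD u u') v v.2).1

lemma rr_comm {D : Submodule F U} (hD : ∀ u v : U, u * v - v * u ∈ D)
    (hDV : ∀ d ∈ D, ∀ v ∈ V, d * v ∈ W ∧ v * d ∈ W) (u u' : U) :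
    rQ hV hW u * rQ hV hW u' = rQ hV hW u' * rQ hV hW u := by
  rw [← rQ_mul, ← rQ_mul]
  apply ext_end
  intro v
  rw [rQ_mk, rQ_mk, mk_eq, rV_coe, rV_coe, ← mul_sub]
  exact (hDV _ (hD u' u) v v.2).2

lemma lQ_pow (u : U) (m : ℕ) (v : V) (hv : u ^ m * (v : U) ∈ V) :
    (lQ hV hW u ^ m) (mk W v) = mk W ⟨u ^ m * v, hv⟩ := by
  have h : lQ hV hW u ^ m = lQ hV hW (u ^ m) := by
    clear hv
    induction m with
    | zero =>
      rw [pow_zero, pow_zero, ← map_one (algebraMap F U), lQ_alg, map_one]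
    | succ m ih => rw [pow_succ, pow_succ, lQ_mul, ih]
  rw [h]
  rfl

lemma rQ_pow (u : U) (m : ℕ) (v : V) (hv : (v : U) * u ^ m ∈ V) :
    (rQ hV hW u ^ m) (mk W v) = mk W ⟨v * u ^ m, hv⟩ := by
  have h : rQ hV hW u ^ m = rQ hV hW (u ^ m) := by
    clear hv
    induction m with
    | zero =>
      rw [pow_zero, pow_zero, ← map_one (algebraMap F U), rQ_alg, map_one]
    | succ m ih => rw [pow_succ', pow_succ, rQ_mul, ih]
  rw [h]
  rfl

end layer

theorem t (hN : S_NOETH) : S_LAYER := by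
  intro F _ _ U _ _ D V W s g hV hW hWV hg hD hDV G hGV hG c
  -- the action of the polynomial ring
  obtain ⟨φ, hφ⟩ := exists_hom (F := F)
    (Sum.elim (fun i => lQ hV hW (g i)) (fun i => rQ hV hW (g i)) :
      Fin s ⊕ Fin s → Module.End F (Q V W)) (by
    rintro (i | i) (j | j)
    · exact ll_comm hV hW hD hDV _ _
    · exact lr_comm hV hW _ _
    · exact (lr_comm hV hW _ _).symm
    · exact rr_comm hV hW hD hDV _ _)
  have hl : ∀ u : U, ∃ p, φ p = lQ hV hW u := by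
    intro u
    have hu : u ∈ Algebra.adjoin F (Set.range g) := by rw [hg]; exact Algebra.mem_top
    induction hu using Algebra.adjoin_induction with
    | mem x hx =>
      obtain ⟨i, rfl⟩ := hx
      exact ⟨X (Sum.inl i), hφ _⟩
    | algebraMap r => exact ⟨C r, by rw [lQ_alg]; exact φ.commutes r⟩
    | add x y _ _ hx hy =>
      obtain ⟨p, hp⟩ := hx
      obtain ⟨q, hq⟩ := hy
      exact ⟨p + q, by rw [map_add, hp, hq, lQ_add]⟩
    | mul x y _ _ hx hy =>
      obtain ⟨p, hp⟩ := hx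
      obtain ⟨q, hq⟩ := hy
      exact ⟨p * q, by rw [map_mul, hp, hq, lQ_mul]⟩
  have hr : ∀ u : U, ∃ p, φ p = rQ hV hW u := by
    intro u
    have hu : u ∈ Algebra.adjoin F (Set.range g) := by rw [hg]; exact Algebra.mem_top
    induction hu using Algebra.adjoin_induction with
    | mem x hx =>
      obtain ⟨i, rfl⟩ := hx
      exact ⟨X (Sum.inr i), hφ _⟩
    | algebraMap r => exact ⟨C r, by rw [rQ_alg]; exact φ.commutes r⟩
    | add x y _ _ hx hy =>
      obtain ⟨p, hp⟩ := hx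
      obtain ⟨q, hq⟩ := hy
      exact ⟨p + q, by rw [map_add, hp, hq, rQ_add]⟩
    | mul x y _ _ hx hy =>
      obtain ⟨p, hp⟩ := hx
      obtain ⟨q, hq⟩ := hy
      exact ⟨q * p, by rw [map_mul, hp, hq, rQ_mul]⟩
  letI : Module (MvPolynomial (Fin s ⊕ Fin s) F) (Q V W) := Module.compHom _ φ.toRingHom
  have hsm : ∀ (p : MvPolynomial (Fin s ⊕ Fin s) F) (q : Q V W), p • q = φ p q := fun p q => rfl
  -- finiteness
  have hfin : Module.Finite (MvPolynomial (Fin s ⊕ Fin s) F) (Q V W) := by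
    have hfs : Set.Finite {q : Q V W | ∃ v : V, (v : U) ∈ G ∧ q = mk W v} := by
      have h1 : {q : Q V W | ∃ v : V, (v : U) ∈ G ∧ q = mk W v} =
          mk W '' ((fun v : V => (v : U)) ⁻¹' (G : Set U)) := by
        ext q
        constructor
        · rintro ⟨v, h1, h2⟩
          exact ⟨v, h1, h2.symm⟩
        · rintro ⟨v, h1, h2⟩
          exact ⟨v, h1, h2.symm⟩
      rw [h1]
      exact (G.finite_toSet.preimage (Set.injOn_of_injective Subtype.val_injective)).image _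
    refine ⟨⟨hfs.toFinset, ?_⟩⟩
    rw [Set.Finite.coe_toFinset, eq_top_iff]
    intro q _
    obtain ⟨N, hN'⟩ : ∃ N : Submodule (MvPolynomial (Fin s ⊕ Fin s) F) (Q V W),
        N = Submodule.span _ {q : Q V W | ∃ v : V, (v : U) ∈ G ∧ q = mk W v} := ⟨_, rfl⟩
    rw [← hN']
    have hNF : ∀ (r : F) (q : Q V W), q ∈ N → r • q ∈ N := by
      intro r q hq
      have h1 : r • q = (C r : MvPolynomial (Fin s ⊕ Fin s) F) • q := by
        rw [hsm]
        have : φ (C r) = algebraMap F _ r := φ.commutes r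
        rw [this, Module.algebraMap_end_apply]
      rw [h1]
      exact N.smul_mem _ hq
    let P : Submodule F U :=
      { carrier := {x | ∃ v : V, (v : U) = x ∧ mk W v ∈ N}
        zero_mem' := ⟨0, rfl, N.zero_mem⟩
        add_mem' := by
          rintro x y ⟨v, h1, h2⟩ ⟨v', h1', h2'⟩
          refine ⟨v + v', by rw [Submodule.coe_add, h1, h1'], ?_⟩
          exact N.add_mem h2 h2'
        smul_mem' := by
          rintro r x ⟨v, h1, h2⟩
          refine ⟨r • v, by rw [Submodule.coe_smul, h1], ?_⟩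
          exact hNF r _ h2 }
    have hP : idg F (G : Set U) ≤ P := by
      refine Submodule.span_le.2 ?_
      rintro x ⟨u, v, a, ha, rfl⟩
      refine ⟨rV hV v (lV hV u ⟨a, hGV ha⟩), rfl, ?_⟩
      rw [← rQ_mk hV hW, ← lQ_mk hV hW]
      obtain ⟨p, hp⟩ := hl u
      obtain ⟨q, hq⟩ := hr v
      rw [← hp, ← hq, ← hsm, ← hsm]
      refine N.smul_mem _ (N.smul_mem _ ?_)
      rw [hN']
      exact Submodule.subset_span ⟨⟨a, hGV ha⟩, ha, rfl⟩
    obtain ⟨v, rfl⟩ := Submodule.Quotient.mk_surjective _ q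
    obtain ⟨x, hx, w, hw, hxw⟩ := Submodule.mem_sup.1 (hG v.2)
    obtain ⟨v', h1, h2⟩ := hP hx
    have h3 : mk W v = mk W v' := by
      rw [mk_eq, h1, ← hxw, add_sub_cancel_left]
      exact hw
    change mk W v ∈ N
    rw [h3]
    exact h2
  obtain ⟨l, hl'⟩ := hl c
  obtain ⟨r, hr'⟩ := hr c
  have hlm : ∀ (m : ℕ) (v : V) (hv : c ^ m * (v : U) ∈ V), l ^ m • mk W v = mk W ⟨c ^ m * v, hv⟩ := by
    intro m v hv
    rw [hsm, map_pow, hl', lQ_pow]
  have hrm : ∀ (m : ℕ) (v : V) (hv : (v : U) * c ^ m ∈ V), r ^ m • mk W v = mk W ⟨v * c ^ m, hv⟩ := by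
    intro m v hv
    rw [hsm, map_pow, hr', rQ_pow]
  have hadd : ∀ v v' : V, mk W v + mk W v' = mk W (v + v') := fun _ _ => rfl
  have hneg : ∀ v : V, -mk W v = mk W (-v) := fun _ => rfl
  obtain ⟨h1, h2⟩ := hN (MvPolynomial (Fin s ⊕ Fin s) F) (Q V W) l r
  refine ⟨hWV, ?_, ?_⟩
  · obtain ⟨m, hm⟩ := h1
    refine ⟨m, fun w hw v hv v' hv' e1 e2 e3 => ?_⟩
    have a1 := (hV (c ^ m) v hv).1
    have a2 := (hV (c ^ m) v' hv').2
    have h3 := hm (mk W ⟨w, hw⟩) (mk W ⟨v, hv⟩) (mk W ⟨v', hv'⟩) (by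
      rw [hlm m ⟨v, hv⟩ a1, hrm m ⟨v', hv'⟩ a2, hadd, mk_eq]
      exact e1) (by
      rw [hsm, hl', lQ_mk, mk_zero]
      exact e2) (by
      rw [hsm, hr', rQ_mk, mk_zero]
      exact e3)
    exact mk_zero.1 h3
  · intro K'
    obtain ⟨K, hK, h3⟩ := h2 K'
    refine ⟨K, hK, fun v hv v' hv' e1 => ?_⟩
    have a1 := (hV (c ^ K) v hv).1
    have a2 := (hV (c ^ K) v' hv').2
    obtain ⟨u, hu1, hu2⟩ := h3 (mk W ⟨v, hv⟩) (mk W ⟨v', hv'⟩) (by
      rw [hlm K ⟨v, hv⟩ a1, hrm K ⟨v', hv'⟩ a2, hadd, mk_zero]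
      exact e1)
    obtain ⟨⟨u, hu⟩, rfl⟩ := Submodule.Quotient.mk_surjective _ u
    change l ^ (K - K') • mk W ⟨v, hv⟩ = r ^ K' • mk W ⟨u, hu⟩ at hu1
    change r ^ (K - K') • mk W ⟨v', hv'⟩ = -(l ^ K' • mk W ⟨u, hu⟩) at hu2
    rw [hlm _ ⟨v, hv⟩ (hV _ v hv).1, hrm _ ⟨u, hu⟩ (hV _ u hu).2, mk_eq] at hu1
    rw [hrm _ ⟨v', hv'⟩ (hV _ v' hv').2, hlm _ ⟨u, hu⟩ (hV _ u hu).1, hneg, mk_eq] at hu2
    refine ⟨u, hu, hu1, ?_⟩
    have h4 : v' * c ^ (K - K') + c ^ K' * u = v' * c ^ (K - K') - -(c ^ K' * u) := by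
      rw [sub_neg_eq_add]
    rw [h4]
    exact hu2

end Pool.Agent.N62.RK.LAYER
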