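import Pool.Agent.N62.RK.Stm
import Pool.Agent.H66R3.CR.Mat
import Pool.Agent.H428R3.CRLeft

/-!
Task MAXL (helper946, adapted by helper801): an ideal of finite index whose elements in the commutator ideal are nilpotent.
-/

set_option autoImplicit false

namespace Pool.Agent.N62.RK.MAXL

open Pool.Agent.N62.RK Pool.Agent.H854R3.CR Pool.Agent.H854R3.NE

section

variable {F : Type} [CommRing F] {A : Type} [NonUnitalRing A] [Module F A]
  [IsScalarTower F A A] [SMulCommClass F A A]

/-- the ideal `A` of the unitization, as a subspace -/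
def IA (F A : Type) [CommRing F] [NonUnitalRing A] [Module F A] [IsScalarTower F A A]
    [SMulCommClass F A A] : Submodule F (Unitization F A) where
  carrier := {x | x.fst = 0}
  add_mem' := by
    intro x y hx hy
    simp only [Set.mem_ofPred_eq] at *
    rw [Unitization.fst_add, hx, hy, add_zero]
  zero_mem' := by simp
  smul_mem' := by
    intro c x hx
    simp only [Set.mem_ofPred_eq] at *
    rw [Unitization.fst_smul, hx, smul_zero]

theorem mem_IA (x : Unitization F A) : x ∈ IA F A ↔ x.fst = 0 := Iff.rfl

theorem inr_mem_IA (a : A) : (a : Unitization F A) ∈ IA F A := by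
  rw [mem_IA]; simp

theorem eq_inr (x : Unitization F A) (hx : x ∈ IA F A) : x = (x.snd : Unitization F A) := by
  rw [mem_IA] at hx
  ext
  · rw [hx]; simp
  · simp

theorem idl_IA : Idl (IA F A) := by
  intro u x hx
  rw [mem_IA] at hx
  constructor
  · rw [mem_IA, Unitization.fst_mul, hx, mul_zero]
  · rw [mem_IA, Unitization.fst_mul, hx, zero_mul]

theorem on_IA (f : FreeAlgebra F (Fin 3)) (h : Law3 F A f) : On (IA F A) f := by
  intro x hx y hy z hz
  rw [eq_inr x hx, eq_inr y hy, eq_inr z hz]
  exact h _ _ _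

/-- the ideal `A` of the unitization, as a two-sided ideal -/
def TI (F A : Type) [CommRing F] [NonUnitalRing A] [Module F A] [IsScalarTower F A A]
    [SMulCommClass F A A] : TwoSidedIdeal (Unitization F A) :=
  TwoSidedIdeal.mk' {x : Unitization F A | x ∈ IA F A} (IA F A).zero_mem
    (fun hx hy => (IA F A).add_mem hx hy) (fun hx => (IA F A).neg_mem hx)
    (fun {x y} hy => (idl_IA x y hy).1) (fun {x y} hx => (idl_IA y x hx).2)

theorem mem_TI (x : Unitization F A) : x ∈ TI F A ↔ x ∈ IA F A := by
  unfold TI
  rw [TwoSidedIdeal.mem_mk']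
  rfl

/-- finitely generated algebras over quotients of `ℤ` are finitely generated rings -/
theorem fgen (hC : Cyc F) (h : FGA F A) : FGen A := by
  obtain ⟨S, hS⟩ := h
  refine ⟨(S : Set A), S.finite_toSet, ?_⟩
  have hsm : ∀ (c : F) (x : A), x ∈ NonUnitalSubring.closure (S : Set A) →
      c • x ∈ NonUnitalSubring.closure (S : Set A) := by
    intro c x hx
    obtain ⟨n, rfl⟩ := hC c
    have e : (Int.castRingHom F n) • x = n • x := by
      rw [eq_intCast, Int.cast_smul_eq_zsmul]
    rw [e]
    exact zsmul_mem hx n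
  let B : NonUnitalSubalgebra F A :=
    { carrier := NonUnitalSubring.closure (S : Set A)
      add_mem' := fun hx hy => add_mem hx hy
      zero_mem' := zero_mem _
      mul_mem' := fun hx hy => mul_mem hx hy
      smul_mem' := fun c x hx => hsm c x hx }
  have hB : NonUnitalAlgebra.adjoin F (S : Set A) ≤ B := by
    rw [NonUnitalAlgebra.adjoin_le_iff]
    intro s hs
    exact NonUnitalSubring.subset_closure hs
  rw [hS] at hB
  rw [eq_top_iff]
  intro x _
  exact hB (NonUnitalAlgebra.mem_top (x := x))

/-- the left ideal `L` as a left ideal of the unitization -/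
def LC (L : AddSubgroup A) (hL : LeftId L) (hc : ∀ (c : F), ∀ x ∈ L, c • x ∈ L) :
    Submodule (Unitization F A) (Unitization F A) where
  carrier := {x | x.fst = 0 ∧ x.snd ∈ L}
  add_mem' := by
    rintro x y ⟨hx, hx'⟩ ⟨hy, hy'⟩
    refine ⟨by rw [Unitization.fst_add, hx, hy, add_zero], ?_⟩
    rw [Unitization.snd_add]
    exact add_mem hx' hy'
  zero_mem' := ⟨by simp, by simp⟩
  smul_mem' := by
    rintro c x ⟨hx, hx'⟩
    refine ⟨by rw [smul_eq_mul, Unitization.fst_mul, hx, mul_zero], ?_⟩
    rw [smul_eq_mul, Unitization.snd_mul, hx, zero_smul, add_zero]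
    exact add_mem (hc _ _ hx') (hL _ _ hx')

/-- the left ideal `A` of the unitization -/
def AC (F A : Type) [CommRing F] [NonUnitalRing A] [Module F A] [IsScalarTower F A A]
    [SMulCommClass F A A] : Submodule (Unitization F A) (Unitization F A) where
  carrier := {x | x.fst = 0}
  add_mem' := fun hx hy => (IA F A).add_mem hx hy
  zero_mem' := (IA F A).zero_mem
  smul_mem' := fun c x hx => (idl_IA c x hx).1

theorem mem_LC (L : AddSubgroup A) (hL : LeftId L) (hc : ∀ (c : F), ∀ x ∈ L, c • x ∈ L)
    (x : Unitization F A) : x ∈ LC L hL hc ↔ x.fst = 0 ∧ x.snd ∈ L := Iff.rfl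

theorem mem_AC (x : Unitization F A) : x ∈ AC F A ↔ x.fst = 0 := Iff.rfl

theorem LC_le (L : AddSubgroup A) (hL : LeftId L) (hc : ∀ (c : F), ∀ x ∈ L, c • x ∈ L) :
    LC L hL hc ≤ AC F A := fun _ hx => hx.1

theorem LC_covBy (L : AddSubgroup A) (hM : MaxL L) (hc : ∀ (c : F), ∀ x ∈ L, c • x ∈ L) :
    LC L hM.1 hc ⋖ AC F A := by
  obtain ⟨hL, htop, _, hmax⟩ := hM
  constructor
  · refine lt_of_le_of_ne (LC_le L hL hc) ?_
    intro h
    apply htop
    rw [eq_top_iff]
    intro a _
    have : (a : Unitization F A) ∈ LC L hL hc := by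
      rw [h, mem_AC]; simp
    have := this.2
    simpa using this
  · intro N h1 h2
    let L' : AddSubgroup A :=
      { carrier := {a | (a : Unitization F A) ∈ N}
        add_mem' := by
          intro a b ha hb
          simp only [Set.mem_ofPred_eq] at *
          rw [Unitization.inr_add]
          exact N.add_mem ha hb
        zero_mem' := by
          simp only [Set.mem_ofPred_eq]
          rw [Unitization.inr_zero]
          exact N.zero_mem
        neg_mem' := by
          intro a ha
          simp only [Set.mem_ofPred_eq] at *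
          rw [Unitization.inr_neg]
          exact N.neg_mem ha }
    have hL' : LeftId L' := by
      intro r x hx
      change ((r * x : A) : Unitization F A) ∈ N
      rw [Unitization.inr_mul]
      exact N.smul_mem _ hx
    have hLL' : L ≤ L' := by
      intro x hx
      change (x : Unitization F A) ∈ N
      apply h1.le
      exact ⟨by simp, by simpa using hx⟩
    rcases hmax L' hL' hLL' with h | h
    · apply h1.not_ge
      intro x hx
      have hx0 : x.fst = 0 := h2.le hx
      refine ⟨hx0, ?_⟩
      rw [← h]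
      change (x.snd : Unitization F A) ∈ N
      rw [← eq_inr x hx0]
      exact hx
    · apply h2.not_ge
      intro x hx
      rw [eq_inr x hx]
      have : x.snd ∈ L' := by rw [h]; trivial
      exact this

theorem max_smul (L : AddSubgroup A) (hM : MaxL L) (δ : A) (hδ : δ * δ ∉ L) (c : F) :
    ∀ x ∈ L, c • x ∈ L := by
  obtain ⟨hL, htop, _, hmax⟩ := hM
  let L' : AddSubgroup A :=
    { carrier := {a | ∀ b : A, b * a ∈ L}
      add_mem' := by
        intro a a' ha ha' b
        rw [mul_add]
        exact add_mem (ha b) (ha' b)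
      zero_mem' := by
        intro b
        rw [mul_zero]
        exact zero_mem _
      neg_mem' := by
        intro a ha b
        rw [mul_neg]
        exact neg_mem (ha b) }
  have hL' : LeftId L' := by
    intro r x hx b
    rw [← mul_assoc]
    exact hx _
  have hLL' : L ≤ L' := fun x hx b => hL b x hx
  have hEq : L' = L := by
    rcases hmax L' hL' hLL' with h | h
    · exact h
    · exfalso
      apply hδ
      have : δ ∈ L' := by rw [h]; trivial
      exact this δ
  intro x hx
  rw [← hEq]
  intro b
  rw [mul_smul_comm, ← smul_mul_assoc]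
  exact hL _ _ hx

end

theorem t (hB : S_BOUND) (hF : S_FININT) (hM : S_MPI) : S_MAXL := by
  intro F _ hC f hf A _ _ _ _ hFG hLaw
  obtain ⟨κ, hκ⟩ := hB F f hf
  obtain ⟨J, hJ, hJfin, hJle⟩ := hF F hC A hFG (κ ^ κ)
  refine ⟨J, hJ, hJfin, ?_⟩
  intro δ hδJ hδD
  by_contra hnil
  have hnil' : ∀ k, (δ : Unitization F A) ^ k ≠ 0 := by
    intro k hk
    exact hnil ⟨k, hk⟩
  have hOn : On (IA F A) f := on_IA f hLaw
  obtain ⟨d, nn, hnn, hid⟩ := hM F f hf (Unitization F A) (IA F A) idl_IA hOn
  have hPI : PIOn ((TI F A : TwoSidedIdeal (Unitization F A)) : Set (Unitization F A)) :=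
    ⟨d, nn, 1, hnn, fun a ha => hid a fun i => (mem_TI _).1 (ha i)⟩
  obtain ⟨K, iK, s, Θ, hΘ⟩ := Pool.Agent.H66R3.CR.taskMat (Unitization F A) (TI F A) hPI
    (δ : Unitization F A) ((mem_TI _).2 (inr_mem_IA δ)) hnil'
  let Θ' : A →ₙ+* Matrix (Fin s) (Fin s) K :=
    (Θ : Unitization F A →ₙ+* Matrix (Fin s) (Fin s) K).comp
      ((Unitization.inrNonUnitalAlgHom F A : A →ₙₐ[F] Unitization F A) :
        A →ₙ+* Unitization F A)
  have hΘ' : ∀ a : A, Θ' a = Θ (a : Unitization F A) := fun a => rfl
  have hβ : ∀ k, npw (Θ' (δ * δ)) k ≠ 0 := by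
    intro k
    have e : npw (Θ' (δ * δ)) k = Θ (δ : Unitization F A) ^ (2 * (k + 1)) := by
      have e1 : ∀ (x : Matrix (Fin s) (Fin s) K) (k : ℕ), npw x k = x ^ (k + 1) := by
        intro x k
        induction k with
        | zero => simp [npw]
        | succ k ih => rw [npw, ih, ← pow_succ]
      rw [e1, hΘ', Unitization.inr_mul, map_mul, ← pow_two, ← pow_mul]
    rw [e]
    exact hΘ _
  obtain ⟨L, hL, hδL⟩ := Pool.Agent.H428R3.CRLeft.left A (fgen hC hFG) K s Θ' (δ * δ) hβ
  have hc : ∀ (c : F), ∀ x ∈ L, c • x ∈ L := fun c => max_smul L hL δ hδL c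
  have hcov := LC_covBy L hL hc
  let P : Submodule F A :=
    { carrier := {a | ∀ x : A, a * x ∈ L}
      add_mem' := by
        intro a a' ha ha' x
        rw [add_mul]
        exact add_mem (ha x) (ha' x)
      zero_mem' := by
        intro x
        rw [zero_mul]
        exact zero_mem _
      smul_mem' := by
        intro c a ha x
        rw [smul_mul_assoc]
        exact hc c _ (ha x) }
  have hP : NIdl F A P := by
    intro u x hx
    refine ⟨fun y => ?_, fun y => ?_⟩
    · rw [mul_assoc]
      exact hL.1 u _ (hx y)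
    · rw [mul_assoc]
      exact hx _
  have hδP : δ ∉ P := fun h => hδL (h δ)
  -- the simple module
  let M : Type := ↥(AC F A) ⧸ Submodule.comap (AC F A).subtype (LC L hL.1 hc)
  have hsimple : IsSimpleModule (Unitization F A) M :=
    (covBy_iff_quot_is_simple (LC_le L hL.1 hc)).1 hcov
  let q : A → M := fun a => Submodule.Quotient.mk ⟨(a : Unitization F A), by rw [mem_AC]; simp⟩
  have hq0 : ∀ a, q a = 0 ↔ a ∈ L := by
    intro a
    simp only [q]
    rw [Submodule.Quotient.mk_eq_zero, Submodule.mem_comap, Submodule.subtype_apply, mem_LC]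
    simp
  have hqsub : ∀ a b, q (a - b) = q a - q b := by
    intro a b
    simp only [q]
    rw [← Submodule.Quotient.mk_sub]
    congr 1
    ext1
    simp
  have hqsurj : Function.Surjective q := by
    intro m
    obtain ⟨⟨x, hx⟩, rfl⟩ := Submodule.Quotient.mk_surjective _ m
    refine ⟨x.snd, ?_⟩
    simp only [q]
    congr 1
    ext1
    exact (eq_inr x hx).symm
  have hqsmul : ∀ a b : A, (a : Unitization F A) • q b = q (a * b) := by
    intro a b
    simp only [q]
    rw [← Submodule.Quotient.mk_smul]
    congr 1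
    ext1
    simp
  have hMfin : Finite M := by
    have hLfin : Finite (A ⧸ L) := by
      have := hL.2.2.1
      exact AddSubgroup.finite_quotient_of_finiteIndex
    let φ : M → A ⧸ L := fun m => QuotientAddGroup.mk (Function.surjInv hqsurj m)
    apply Finite.of_injective φ
    intro m m' h
    simp only [φ] at h
    rw [QuotientAddGroup.eq] at h
    rw [← Function.surjInv_eq hqsurj m, ← Function.surjInv_eq hqsurj m']
    have h2 := (hq0 _).2 h
    rw [neg_add_eq_sub, hqsub, sub_eq_zero] at h2
    exact h2.symm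
  -- nontrivial commutators
  have hcomm : ∃ a ∈ IA F A, ∃ b ∈ IA F A, ∃ v : M, (a * b - b * a) • v ≠ 0 := by
    by_contra hcon
    push Not at hcon
    apply hδP
    apply hδD P hP
    intro x y z
    have h1 := hcon (x : Unitization F A) (inr_mem_IA x) (y : Unitization F A) (inr_mem_IA y) (q z)
    rw [← Unitization.inr_mul, ← Unitization.inr_mul, ← Unitization.inr_sub, hqsmul, hq0] at h1
    exact h1
  have hcard : Nat.card M ≤ κ := hκ (Unitization F A) (IA F A) idl_IA hOn M hcomm
  -- the quotient by `P`
  let ψ : A ⧸ P → (M → M) := fun a => fun m => ((Quotient.out a : A) : Unitization F A) • m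
  have hψ : Function.Injective ψ := by
    intro a b hab
    have h1 : (Quotient.out a : A) - Quotient.out b ∈ P := by
      intro x
      have h2 := congrFun hab (q x)
      simp only [ψ] at h2
      rw [hqsmul, hqsmul, ← sub_eq_zero, ← hqsub, hq0, ← sub_mul] at h2
      exact h2
    have h3 := (Submodule.Quotient.eq P).2 h1
    have e1 : (Submodule.Quotient.mk (Quotient.out a : A) : A ⧸ P) = a := Quotient.out_eq a
    have e2 : (Submodule.Quotient.mk (Quotient.out b : A) : A ⧸ P) = b := Quotient.out_eq b
    rw [e1, e2] at h3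
    exact h3
  have hPfin : Finite (A ⧸ P) := Finite.of_injective ψ hψ
  have hPcard : Nat.card (A ⧸ P) ≤ κ ^ κ := by
    have h1 : Nat.card (A ⧸ P) ≤ Nat.card (M → M) := Nat.card_le_card_of_injective ψ hψ
    have h2 : Nat.card (M → M) = Nat.card M ^ Nat.card M := by
      rw [Nat.card_fun]
    rw [h2] at h1
    have hpos : 0 < Nat.card M := Nat.card_pos
    calc Nat.card (A ⧸ P) ≤ Nat.card M ^ Nat.card M := h1
      _ ≤ κ ^ Nat.card M := Nat.pow_le_pow_left hcard _
      _ ≤ κ ^ κ := Nat.pow_le_pow_right (lt_of_lt_of_le hpos hcard) hcard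
  exact hδP (hJle P hP hPfin hPcard hδJ)

end Pool.Agent.N62.RK.MAXL
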