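import Pool.Agent.N62.RK.Stm

/-!
Task MPI (helper897): from an identity with coprime coefficients at the words `x y^k z` to a
multilinear identity with integer coefficients, one of them `1` (Amitsur's trick: the generic values
of the standard polynomial generate a nil ideal).
-/

set_option autoImplicit false

namespace Pool.Agent.N62.RK.MPI

open Finset

/-- The standard polynomial commutes with ring homomorphisms. -/
lemma map_stdp {R S : Type} [Ring R] [Ring S] (φ : R →+* S) {N : ℕ} (t : Fin N → R) :
    φ (stdp t) = stdp (fun i => φ (t i)) := by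
  unfold stdp
  rw [map_sum]
  refine Finset.sum_congr rfl fun π _ => ?_
  rw [map_zsmul, map_list_prod, List.map_ofFn]
  rfl

section

variable {F : Type} [CommRing F] {U : Type} [Ring U] [Algebra F U]

lemma stdp_mem {A : Submodule F U} (hA : Idl A) {n : ℕ} (t : Fin (n + 1) → U)
    (ht : ∀ i, t i ∈ A) : stdp t ∈ A := by
  unfold stdp
  refine Submodule.sum_mem _ fun π _ => ?_
  refine zsmul_mem ?_ _
  rw [List.ofFn_succ, List.prod_cons]
  exact (hA _ _ (ht _)).2

/-- the ideal of the functions with values in an ideal -/
def funI (A : Submodule F U) (hA : Idl A) (T : Type) : TwoSidedIdeal (T → U) :=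
  TwoSidedIdeal.mk' {g : T → U | ∀ t, g t ∈ A} (fun _ => A.zero_mem)
    (fun {_ _} hx hy t => A.add_mem (hx t) (hy t)) (fun {_} hx t => A.neg_mem (hx t))
    (fun {x _} hy t => (hA (x t) _ (hy t)).1) (fun {_ y} hx t => (hA (y t) _ (hx t)).2)

lemma mem_funI {A : Submodule F U} {hA : Idl A} {T : Type} (g : T → U) :
    g ∈ funI A hA T ↔ ∀ t, g t ∈ A := by
  unfold funI
  rw [TwoSidedIdeal.mem_mk']
  rfl

/-- the submodule of the functions with values in a submodule -/
def funS (A : Submodule F U) (T : Type) : Submodule F (T → U) where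
  carrier := {g | ∀ t, g t ∈ A}
  zero_mem' := fun _ => A.zero_mem
  add_mem' := fun hx hy t => A.add_mem (hx t) (hy t)
  smul_mem' := fun c _ hx t => A.smul_mem c (hx t)

end

theorem t (hL : S_LIN) (hM : S_MAT) (hS : S_STD) (hP : S_PW) : S_MPI := by
  classical
  intro F _ f hf U _ _ A hA hon
  set b := FreeAlgebra.basisFreeMonoid F (Fin 3) with hb
  set d := (b.repr f).support.sup (fun w => (FreeMonoid.toList w).length) with hd
  have hsup : ∀ w : FreeMonoid (Fin 3), b.repr f w ≠ 0 → (FreeMonoid.toList w).length ≤ d := by
    intro w hw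
    exact Finset.le_sup (f := fun w => (FreeMonoid.toList w).length) (Finsupp.mem_support_iff.2 hw)
  let T : Type := Fin (d * d + 1) → A
  let β : T → U := fun t => stdp (fun i => (t i : U))
  have hβ : β ∈ funI A hA T := by
    rw [mem_funI]
    intro t
    exact stdp_mem hA _ fun i => (t i).2
  by_cases hk : ∃ k, β ^ k = 0
  · obtain ⟨k, hk⟩ := hk
    refine ⟨(d * d + 1) * k, hP F U A _ k fun t ht => ?_⟩
    have := congrFun hk (fun i => (⟨t i, ht i⟩ : A))
    exact this
  exfalso
  have hk' : ∀ k, β ^ k ≠ 0 := fun k h => hk ⟨k, h⟩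
  have hyp : ∀ (M : Type) [AddCommGroup M] [Module (Polynomial (T → U)) M]
      [IsSimpleModule (Polynomial (T → U)) M],
      ∃ m, m ≤ d ∧ ∃ (c : Equiv.Perm (Fin m) → (T → U)) (π0 : Equiv.Perm (Fin m)),
      (∀ π, ∀ r : T → U, c π * r = r * c π) ∧
      (∀ v : M, (Polynomial.C (c π0) : Polynomial (T → U)) • v = 0 → v = 0) ∧
      ∀ a : Fin m → (T → U), (∀ i, a i ∈ funI A hA T) → ∀ v : M,
        (Polynomial.C (∑ π, c π * (List.ofFn fun k => a (π k)).prod) : Polynomial (T → U)) • v
          = 0 := by
    intro M iM1 iM2 iM3
    -- the annihilator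
    let q : Ideal F :=
      { carrier := {κ | ∀ v : M, (Polynomial.C (algebraMap F (T → U) κ) : Polynomial (T → U)) • v = 0}
        zero_mem' := by
          intro v
          rw [map_zero, map_zero, zero_smul]
        add_mem' := by
          intro x y hx hy v
          rw [map_add, map_add, add_smul, hx v, hy v, add_zero]
        smul_mem' := by
          intro c x hx v
          rw [smul_eq_mul, map_mul, map_mul, mul_smul, hx v, smul_zero] }
    have hq : ∀ κ, κ ∈ q ↔ ∀ v : M,
        (Polynomial.C (algebraMap F (T → U) κ) : Polynomial (T → U)) • v = 0 := fun κ => Iff.rfl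
    have hnt : Nontrivial M := IsSimpleModule.nontrivial (Polynomial (T → U)) M
    have hq1 : q ≠ ⊤ := by
      intro h
      have h1 : (1 : F) ∈ q := by rw [h]; trivial
      obtain ⟨v, hv⟩ := exists_ne (0 : M)
      apply hv
      have h2 := (hq 1).1 h1 v
      rwa [map_one, map_one, one_smul] at h2
    -- Schur
    have hschur : ∀ κ, κ ∉ q → ∀ v : M,
        (Polynomial.C (algebraMap F (T → U) κ) : Polynomial (T → U)) • v = 0 → v = 0 := by
      intro κ hκ
      let N : Submodule (Polynomial (T → U)) M :=
        { carrier := {v | (Polynomial.C (algebraMap F (T → U) κ) : Polynomial (T → U)) • v = 0}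
          zero_mem' := smul_zero _
          add_mem' := by
            intro x y hx hy
            rw [Set.mem_ofPred_eq] at *
            rw [smul_add, hx, hy, add_zero]
          smul_mem' := by
            intro c x hx
            rw [Set.mem_ofPred_eq] at *
            rw [smul_smul, ← Polynomial.algebraMap_apply, Algebra.commutes, mul_smul,
              Polynomial.algebraMap_apply, hx, smul_zero] }
      rcases eq_bot_or_eq_top N with h | h
      · intro v hv
        have h1 : v ∈ N := hv
        rw [h, Submodule.mem_bot] at h1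
        exact h1
      · exfalso
        apply hκ
        rw [hq]
        intro v
        have h1 : v ∈ N := by rw [h]; trivial
        exact h1
    -- a word of maximal length whose coefficient is not in `q`
    obtain ⟨k, hk0⟩ : ∃ k, cf f (xyz k) ∉ q := by
      by_contra hcon
      push Not at hcon
      apply hq1
      rw [eq_top_iff, ← hf]
      refine Ideal.span_le.2 ?_
      rintro _ ⟨k, rfl⟩
      exact hcon k
    have hne : ((b.repr f).support.filter fun w => b.repr f w ∉ q).Nonempty := by
      refine ⟨FreeMonoid.ofList (xyz k), ?_⟩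
      rw [Finset.mem_filter, Finsupp.mem_support_iff]
      refine ⟨?_, hk0⟩
      intro h
      apply hk0
      change b.repr f (FreeMonoid.ofList (xyz k)) ∈ q
      rw [h]
      exact q.zero_mem
    obtain ⟨w1, hw1, hmax⟩ := Finset.exists_max_image _
      (fun w : FreeMonoid (Fin 3) => (FreeMonoid.toList w).length) hne
    rw [Finset.mem_filter, Finsupp.mem_support_iff] at hw1
    set w0 : List (Fin 3) := FreeMonoid.toList w1 with hw0
    have hw01 : FreeMonoid.ofList w0 = w1 := FreeMonoid.ofList_toList w1
    have hlin := hL F 3 f q w0 (by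
      intro w hw
      by_contra hcon
      have h1 : FreeMonoid.ofList w ∈ (b.repr f).support.filter fun w => b.repr f w ∉ q := by
        rw [Finset.mem_filter, Finsupp.mem_support_iff]
        refine ⟨?_, hcon⟩
        intro h
        apply hcon
        rw [h]
        exact q.zero_mem
      have h2 := hmax _ h1
      rw [FreeMonoid.toList_ofList] at h2
      omega)
    let _ : Module (T → U) M := Module.compHom M (Polynomial.C : (T → U) →+* Polynomial (T → U))
    have hsm : ∀ (c : T → U) (v : M), c • v = (Polynomial.C c : Polynomial (T → U)) • v :=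
      fun _ _ => rfl
    have hlin2 := hlin (T → U) M (funS A T) (by
      intro κ hκ v
      rw [hsm]
      exact (hq κ).1 hκ v) (by
      intro a ha v
      have h1 : FreeAlgebra.lift F a f = 0 := by
        funext t
        have h2 : (FreeAlgebra.lift F a f) t = FreeAlgebra.lift F (fun i => a i t) f := by
          have h3 : ((Pi.evalAlgHom F (fun _ : T => U) t).comp (FreeAlgebra.lift F a)) =
              FreeAlgebra.lift F (fun i => a i t) := by
            apply FreeAlgebra.hom_ext
            funext i
            simp
          rw [← h3]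
          rfl
        rw [h2]
        have h4 := hon (a 0 t) (ha 0 t) (a 1 t) (ha 1 t) (a 2 t) (ha 2 t)
        unfold ev at h4
        have e : ![a 0 t, a 1 t, a 2 t] = fun i => a i t := by
          funext i
          fin_cases i <;> rfl
        rw [e] at h4
        exact h4
      rw [h1, zero_smul])
    refine ⟨w0.length, hsup w1 hw1.1, fun τ => algebraMap F (T → U)
      (b.repr f (FreeMonoid.ofList (List.ofFn fun k => w0.get (τ k)))), 1, ?_, ?_, ?_⟩
    · intro π r
      exact Algebra.commutes _ _
    · apply hschur
      have h1 : (List.ofFn fun k => w0.get ((1 : Equiv.Perm (Fin w0.length)) k)) = w0 := by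
        simp only [Equiv.Perm.coe_one, id_eq]
        exact List.ofFn_get w0
      rw [h1, hw01]
      exact hw1.2
    · intro a ha v
      have h1 := hlin2 a (fun i => (mem_funI (hA := hA) (a i)).1 (ha i)) v
      rw [hsm] at h1
      rw [← h1]
      congr 2
      refine Finset.sum_congr rfl fun τ _ => ?_
      rw [Algebra.smul_def]
  obtain ⟨K, _, s, Θ, hsd, hΘ⟩ := hM (T → U) (funI A hA T) d hyp β hβ hk'
  refine hΘ 1 ?_
  rw [pow_one]
  have h1 : β = stdp (fun (i : Fin (d * d + 1)) (t : T) => (t i : U)) := by
    funext t
    have h2 := map_stdp (Pi.evalRingHom (fun _ : T => U) t)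
      (fun (i : Fin (d * d + 1)) (t : T) => (t i : U))
    exact h2.symm
  rw [h1, map_stdp]
  exact hS K s _ (Nat.lt_succ_of_le (Nat.mul_le_mul hsd hsd)) _

end Pool.Agent.N62.RK.MPI
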