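import Pool.Agent.N62.RK.Stm
import Pool.Agent.N62.RK.Base
import Pool.Agent.H214R3.CR.Nil

/-!
Task NILP (helper562): nil finitely generated ideals are nilpotent.
-/

set_option autoImplicit false

namespace Pool.Agent.N62.RK.NILP

open Pool.Agent.N62.RK

section
variable {F : Type} [CommRing F] {U : Type} [Ring U] [Algebra F U]

theorem ip_ip {I : Submodule F U} (hI : Idl I) (m n : ℕ) : ip (ip I m) n = ip I (m * n) := by
  induction n with
  | zero => rfl
  | succ n ih => rw [ip_succ, ih, ip_mul hI, Nat.mul_succ]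

/-- (2): all nilpotent ideals in `E` have index at most `7` -/
theorem seven {E : Submodule F U} (hE : ∀ Y : Submodule F U, Idl Y → Y ≤ E → ∀ x ∈ Y, ∀ z ∈ Y,
    ∀ t ∈ E, x * t * z ∈ ip Y 3) (Y : Submodule F U) (hY : Idl Y) (hYE : Y ≤ E) :
    ∀ k, ip Y k = ⊥ → ip Y 7 = ⊥ := by
  intro k
  induction k using Nat.strong_induction_on with
  | _ k ih =>
    intro hk
    by_cases h7 : k ≤ 7
    · rw [eq_bot_iff]
      exact (ip_le hY h7).trans hk.le
    · set m := (k + 2) / 3 with hm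
      have hm1 : 1 ≤ m := by omega
      have hZ : Idl (ip Y m) := idl_ip hY m
      have hZE : ip Y m ≤ E := (ip_le_self hY hm1).trans hYE
      have h3 : ip (ip Y m) 3 = ⊥ := by
        rw [ip_ip hY, eq_bot_iff]
        exact (ip_le hY (by omega)).trans hk.le
      apply ih (m + 1 + m) (by omega)
      rw [eq_bot_iff, ← ip_mul hY, ip_succ, Submodule.mul_le]
      intro x hx z hz
      induction hx using Submodule.mul_induction_on' with
      | mem_mul_mem a ha t ht =>
        rw [← h3]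
        exact hE (ip Y m) hZ hZE a ha z hz t (hYE ht)
      | add a _ b _ ha hb =>
        rw [add_mul]
        exact add_mem ha hb

/-- the sum of two nilpotent ideals -/
theorem sup_nilp {Y1 Y2 : Submodule F U} (h1 : Idl Y1) (h2 : Idl Y2) (n1 : ip Y1 7 = ⊥)
    (n2 : ip Y2 7 = ⊥) : ip (Y1 ⊔ Y2) (7 * 7) = ⊥ := by
  have h : ∀ i, ip (Y1 ⊔ Y2) i ≤ ip Y1 i ⊔ Y2 := by
    intro i
    induction i with
    | zero =>
      rw [ip_zero, ip_zero]
      exact le_sup_left
    | succ i ih =>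
      rw [ip_succ, Submodule.mul_le]
      intro x hx y hy
      obtain ⟨a, ha, b, hb, rfl⟩ := Submodule.mem_sup.1 (ih hx)
      obtain ⟨c, hc, d, hd, rfl⟩ := Submodule.mem_sup.1 hy
      have e : (a + b) * (c + d) = a * c + (a * d + b * (c + d)) := by noncomm_ring
      rw [e]
      refine Submodule.add_mem_sup (Submodule.mul_mem_mul ha hc) ?_
      exact add_mem (h2 a d hd).1 (h2 (c + d) b hb).2
  have h7 := h 7
  rw [n1, bot_sup_eq] at h7
  rw [← ip_ip (h1.sup h2), eq_bot_iff]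
  exact (ip_mono h7 7).trans n2.le

/-- nilpotent ideals in `E` -/
def Gd (E Y : Submodule F U) : Prop := Idl Y ∧ Y ≤ E ∧ ip Y 7 = ⊥

theorem gd_bot (E : Submodule F U) : Gd E ⊥ := by
  refine ⟨idl_bot, bot_le, ?_⟩
  rw [eq_bot_iff]
  exact ip_le_self idl_bot (by norm_num)

theorem gd_sup {E : Submodule F U} (hE : ∀ Y : Submodule F U, Idl Y → Y ≤ E → ∀ x ∈ Y, ∀ z ∈ Y,
    ∀ t ∈ E, x * t * z ∈ ip Y 3) {Y1 Y2 : Submodule F U} (h1 : Gd E Y1) (h2 : Gd E Y2) :
    Gd E (Y1 ⊔ Y2) :=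
  ⟨h1.1.sup h2.1, sup_le h1.2.1 h2.2.1, seven hE _ (h1.1.sup h2.1) (sup_le h1.2.1 h2.2.1) _
    (sup_nilp h1.1 h2.1 h1.2.2 h2.2.2)⟩

/-- the largest nilpotent ideal in `E` -/
theorem exists_W {E : Submodule F U} (hE : ∀ Y : Submodule F U, Idl Y → Y ≤ E → ∀ x ∈ Y, ∀ z ∈ Y,
    ∀ t ∈ E, x * t * z ∈ ip Y 3) : ∃ W : Submodule F U, Gd E W ∧ ∀ Y, Gd E Y → Y ≤ W := by
  let W : Submodule F U :=
    { carrier := {w | ∃ Y, Gd E Y ∧ w ∈ Y}
      add_mem' := by
        rintro a b ⟨Y1, h1, ha⟩ ⟨Y2, h2, hb⟩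
        exact ⟨Y1 ⊔ Y2, gd_sup hE h1 h2, Submodule.add_mem_sup ha hb⟩
      zero_mem' := ⟨⊥, gd_bot E, zero_mem _⟩
      smul_mem' := by
        rintro c a ⟨Y, h, ha⟩
        exact ⟨Y, h, Submodule.smul_mem _ _ ha⟩ }
  have hW : ∀ w, w ∈ W ↔ ∃ Y, Gd E Y ∧ w ∈ Y := fun w => Iff.rfl
  have hWI : Idl W := by
    intro u x hx
    obtain ⟨Y, h, hxY⟩ := (hW x).1 hx
    exact ⟨(hW _).2 ⟨Y, h, (h.1 u x hxY).1⟩, (hW _).2 ⟨Y, h, (h.1 u x hxY).2⟩⟩
  have hWE : W ≤ E := by
    intro x hx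
    obtain ⟨Y, h, hxY⟩ := (hW x).1 hx
    exact h.2.1 hxY
  have hp : ∀ n, ∀ x ∈ ip W n, ∃ Y, Gd E Y ∧ x ∈ ip Y n := by
    intro n
    induction n with
    | zero => intro x _; exact ⟨⊥, gd_bot E, trivial⟩
    | succ n ih =>
      intro x hx
      rw [ip_succ] at hx
      induction hx using Submodule.mul_induction_on' with
      | mem_mul_mem a ha b hb =>
        obtain ⟨Y1, h1, ha1⟩ := ih a ha
        obtain ⟨Y2, h2, hb2⟩ := (hW b).1 hb
        exact ⟨Y1 ⊔ Y2, gd_sup hE h1 h2, Submodule.mul_mem_mul (ip_mono le_sup_left n ha1)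
          (le_sup_right (a := Y1) hb2)⟩
      | add a _ b _ ha hb =>
        obtain ⟨Y1, h1, ha1⟩ := ha
        obtain ⟨Y2, h2, hb2⟩ := hb
        exact ⟨Y1 ⊔ Y2, gd_sup hE h1 h2, add_mem (ip_mono le_sup_left _ ha1)
          (ip_mono le_sup_right _ hb2)⟩
  refine ⟨W, ⟨hWI, hWE, ?_⟩, ?_⟩
  · rw [eq_bot_iff]
    intro x hx
    obtain ⟨Y, h, hxY⟩ := hp 7 x hx
    rw [h.2.2] at hxY
    exact hxY
  · intro Y h x hx
    exact (hW x).2 ⟨Y, h, hx⟩

/-- quotient by an ideal -/
theorem exists_quot (p : Submodule F U) (hp : Idl p) :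
    ∃ (Q : Type) (_ : Ring Q) (φ : U →+* Q), Function.Surjective φ ∧ ∀ x, φ x = 0 ↔ x ∈ p := by
  let p' : TwoSidedIdeal U := TwoSidedIdeal.mk' (p : Set U) (zero_mem p)
    (fun hx hy => add_mem hx hy) (fun hx => neg_mem hx)
    (fun {x y} hy => (hp x y hy).1) (fun {x y} hx => (hp y x hx).2)
  have hp' : ∀ x, x ∈ p' ↔ x ∈ p := fun x => TwoSidedIdeal.mem_mk' _ _ _ _ _ _ x
  refine ⟨p'.ringCon.Quotient, inferInstance, p'.ringCon.mk', ?_, ?_⟩
  · intro x
    obtain ⟨y, rfl⟩ := Quotient.exists_rep x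
    exact ⟨y, rfl⟩
  · intro x
    rw [← hp', TwoSidedIdeal.mem_iff]
    exact RingCon.eq p'.ringCon

/-- (4): an ideal that is nil and not nilpotent modulo the largest nilpotent ideal -/
theorem prime_quot {E W : Submodule F U} (hE : Idl E) (hW : Idl W) (a : ℕ → U) (u : ℕ → U)
    (ha : ∀ k, a k ∈ E) (haW : ∀ k, a k ∉ W) (hau : ∀ k, a (k + 1) = a k * u k * a k) :
    ∃ (Q : Type) (_ : Ring Q) (φ : U →+* Q), Function.Surjective φ ∧ Pool.Agent.H854R3.CR.PrimeU Q ∧
      φ (a 0) ≠ 0 := by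
  obtain ⟨p, hpW, hp⟩ := zorn_le_nonempty₀ {I : Submodule F U | Idl I ∧ ∀ k, a k ∉ I}
    (fun c hc hchain y hy => by
      have hdir : DirectedOn (· ≤ ·) c := hchain.directedOn
      refine ⟨sSup c, ⟨?_, ?_⟩, fun I hI => le_sSup hI⟩
      · intro v x hx
        obtain ⟨I, hI, hxI⟩ := (Submodule.mem_sSup_of_directed ⟨y, hy⟩ hdir).1 hx
        exact ⟨le_sSup hI ((hc hI).1 v x hxI).1, le_sSup hI ((hc hI).1 v x hxI).2⟩
      · intro k hk
        obtain ⟨I, hI, hxI⟩ := (Submodule.mem_sSup_of_directed ⟨y, hy⟩ hdir).1 hk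
        exact (hc hI).2 k hxI) W ⟨hW, haW⟩
  have hpI : Idl p := hp.1.1
  have hpa : ∀ k, a k ∉ p := hp.1.2
  have hmono : ∀ (I : Submodule F U), Idl I → ∀ k l, k ≤ l → a k ∈ I → a l ∈ I := by
    intro I hI k l hkl hk
    induction l, hkl using Nat.le_induction with
    | base => exact hk
    | succ l _ ih =>
      rw [hau]
      exact (hI _ _ ih).1
  have hbig : ∀ x, x ∉ p → ∃ k, a k ∈ p ⊔ idg F {x} := by
    intro x hx
    by_contra hno
    push Not at hno
    have h1 : p ⊔ idg F {x} ≤ p := hp.2 ⟨hpI.sup (idl_idg _), hno⟩ le_sup_left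
    exact hx (h1 (le_sup_right (a := p) (subset_idg {x} rfl)))
  obtain ⟨Q, iQ, φ, hφ, hker⟩ := exists_quot p hpI
  refine ⟨Q, iQ, φ, hφ, ?_, fun h => hpa 0 ((hker _).1 h)⟩
  intro x y hxy
  obtain ⟨x, rfl⟩ := hφ x
  obtain ⟨y, rfl⟩ := hφ y
  have hxy' : ∀ r, x * r * y ∈ p := by
    intro r
    rw [← hker, map_mul, map_mul]
    exact hxy (φ r)
  rw [hker, hker]
  by_contra hno
  push Not at hno
  obtain ⟨k, hk⟩ := hbig x hno.1
  obtain ⟨l, hl⟩ := hbig y hno.2
  have hk' := hmono _ (hpI.sup (idl_idg _)) k (max k l) (le_max_left _ _) hk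
  have hl' := hmono _ (hpI.sup (idl_idg _)) l (max k l) (le_max_right _ _) hl
  apply hpa (max k l + 1)
  rw [hau]
  -- the product of the two ideals lies in `p`
  have h1 : ∀ s ∈ idg F {x}, ∀ r, ∀ t ∈ idg F {y}, s * r * t ∈ p := by
    intro s hs r t ht
    induction hs using Submodule.span_induction with
    | mem s h =>
      obtain ⟨v1, v2, x', hx', rfl⟩ := h
      rw [Set.mem_singleton_iff] at hx'
      subst hx'
      induction ht using Submodule.span_induction with
      | mem t h =>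
        obtain ⟨w1, w2, y', hy', rfl⟩ := h
        rw [Set.mem_singleton_iff] at hy'
        subst hy'
        have e : v1 * x' * v2 * r * (w1 * y' * w2) = v1 * (x' * (v2 * r * w1) * y') * w2 := by
          noncomm_ring
        rw [e]
        exact (hpI w2 _ (hpI v1 _ (hxy' _)).1).2
      | zero => rw [mul_zero]; exact zero_mem _
      | add t t' _ _ h h' => rw [mul_add]; exact add_mem h h'
      | smul c t _ h => rw [mul_smul_comm]; exact Submodule.smul_mem _ _ h
    | zero => rw [zero_mul, zero_mul]; exact zero_mem _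
    | add s s' _ _ h h' => rw [add_mul, add_mul]; exact add_mem h h'
    | smul c s _ h => rw [smul_mul_assoc, smul_mul_assoc]; exact Submodule.smul_mem _ _ h
  obtain ⟨p1, hp1, s, hs, e1⟩ := Submodule.mem_sup.1 hk'
  obtain ⟨p2, hp2, t, ht, e2⟩ := Submodule.mem_sup.1 hl'
  have e3 : a (max k l) * u (max k l) * a (max k l) = p1 * (u (max k l) * (p2 + t)) +
      (s * u (max k l) * p2 + s * u (max k l) * t) := by
    conv_lhs => rw [← e1]
    have : p1 + s = p2 + t := e1.trans e2.symm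
    calc (p1 + s) * u (max k l) * (p1 + s) = (p1 + s) * u (max k l) * (p2 + t) := by rw [this]
      _ = _ := by noncomm_ring
  rw [e3]
  exact add_mem (hpI _ _ hp1).2 (add_mem (hpI _ _ hp2).1 (h1 s hs _ t ht))

end

theorem t (hG : S_GEN) (hS : S_SW) (hK : S_K) : S_NILP := by
  intro F _ _ U _ _ A Φ e d s g hctx S hSA hnil
  set D := idg F (S : Set U) with hD
  have hDI : Idl D := idl_idg _
  have hDA : D ≤ A := idg_le hctx.idl hSA
  obtain ⟨T, hT, hgen⟩ := hG F U A Φ e d s g hctx S hSA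
  obtain ⟨n1, hn1⟩ := hK F U A d hctx.idl hctx.mpi T (fun x hx => hDA (hT hx))
    (fun l hl hl' => hnil _ (hDI.prod_mem hl fun a ha => hT (hl' a ha)))
  obtain ⟨nS, hnS⟩ := hS F U A Φ e d s g hctx S hSA hnil
  have hstep : ∀ n, n1 + 1 ≤ n → ip D n ≤ ip D (n + 1) := by
    intro n hn
    refine (hgen n (by omega)).trans (sup_le ?_ le_rfl)
    refine (idg_le idl_bot ?_).trans bot_le
    rintro t ⟨l, hl1, hl2, rfl⟩
    rw [hn1 l hl2 (by omega)]
    exact zero_mem _
  have hall : ∀ n m, n1 + 1 ≤ n → n ≤ m → ip D n ≤ ip D m := by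
    intro n m hn hnm
    induction m, hnm using Nat.le_induction with
    | base => exact le_rfl
    | succ m hm ih => exact ih.trans (hstep m (by omega))
  set n2 := n1 + 1 + nS with hn2
  set E := ip D n2 with hEdef
  have hEI : Idl E := idl_ip hDI n2
  have hED : E ≤ D := ip_le_self hDI (by omega)
  have hEA : E ≤ A := hED.trans hDA
  have hE3 : ∀ Y : Submodule F U, Idl Y → Y ≤ E → ∀ x ∈ Y, ∀ z ∈ Y, ∀ t ∈ E,
      x * t * z ∈ ip Y 3 := by
    intro Y hY hYE x hx z hz t ht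
    exact hnS Y hY (hYE.trans hEA) x hx z hz t (ip_le hDI (by omega) ht)
  obtain ⟨W, hWg, hWmax⟩ := exists_W hE3
  refine ⟨n2, ?_⟩
  show E = ⊥
  by_cases hEW : E ≤ W
  · -- E = E ^ 7
    have h1 : E ≤ ip E 7 := by
      rw [hEdef, ip_ip hDI]
      exact hall n2 (n2 * 7) (by omega) (by omega)
    rw [eq_bot_iff]
    exact h1.trans ((ip_mono hEW 7).trans hWg.2.2.le)
  · exfalso
    have hex : ∃ a0 ∈ E, a0 ∉ W := by
      by_contra hno
      push Not at hno
      exact hEW hno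
    have hnext : ∀ a ∈ E, a ∉ W → ∃ u, a * u * a ∉ W := by
      intro a haE haW
      by_contra hno
      push Not at hno
      apply haW
      have hI : Idl (idg F ({a} : Set U)) := idl_idg _
      have hIE : idg F ({a} : Set U) ≤ E := idg_le hEI (by
        intro x hx
        rw [Set.mem_singleton_iff] at hx
        subst hx
        exact haE)
      have h2 : ip (idg F ({a} : Set U)) 2 ≤ W := by
        rw [show (2 : ℕ) = 1 + 1 by rfl, ip_succ, ip_one hI, Submodule.mul_le]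
        intro x hx y hy
        induction hx using Submodule.span_induction with
        | mem x h =>
          obtain ⟨v1, v2, x', hx', rfl⟩ := h
          rw [Set.mem_singleton_iff] at hx'
          subst hx'
          induction hy using Submodule.span_induction with
          | mem y h =>
            obtain ⟨w1, w2, y', hy', rfl⟩ := h
            rw [Set.mem_singleton_iff] at hy'
            subst hy'
            have e : v1 * y' * v2 * (w1 * y' * w2) = v1 * (y' * (v2 * w1) * y') * w2 := by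
              noncomm_ring
            rw [e]
            exact (hWg.1 w2 _ (hWg.1 v1 _ (hno _)).1).2
          | zero => rw [mul_zero]; exact zero_mem _
          | add y y' _ _ h h' => rw [mul_add]; exact add_mem h h'
          | smul c y _ h => rw [mul_smul_comm]; exact Submodule.smul_mem _ _ h
        | zero => rw [zero_mul]; exact zero_mem _
        | add x x' _ _ h h' => rw [add_mul]; exact add_mem h h'
        | smul c x _ h => rw [smul_mul_assoc]; exact Submodule.smul_mem _ _ h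
      have h14 : ip (idg F ({a} : Set U)) 14 = ⊥ := by
        rw [show (14 : ℕ) = 2 * 7 by rfl, ← ip_ip hI, eq_bot_iff]
        exact (ip_mono h2 7).trans hWg.2.2.le
      exact hWmax _ ⟨hI, hIE, seven hE3 _ hI hIE 14 h14⟩ (subset_idg {a} rfl)
    obtain ⟨a0, ha0, ha0W⟩ := hex
    choose! uu huu using hnext
    let a : ℕ → U := fun k => Nat.rec a0 (fun _ x => x * uu x * x) k
    have hasucc : ∀ k, a (k + 1) = a k * uu (a k) * a k := fun k => rfl
    have ha : ∀ k, a k ∈ E ∧ a k ∉ W := by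
      intro k
      induction k with
      | zero => exact ⟨ha0, ha0W⟩
      | succ k ih =>
        rw [hasucc]
        exact ⟨(hEI _ _ ih.1).1, huu _ ih.1 ih.2⟩
    obtain ⟨Q, iQ, φ, hφ, hprime, hne⟩ := prime_quot hEI hWg.1 a (fun k => uu (a k))
      (fun k => (ha k).1) (fun k => (ha k).2) hasucc
    let N : TwoSidedIdeal Q := TwoSidedIdeal.mk' {x | ∃ y ∈ E, φ y = x}
      ⟨0, zero_mem _, map_zero φ⟩
      (by rintro x y ⟨x', hx', rfl⟩ ⟨y', hy', rfl⟩; exact ⟨x' + y', add_mem hx' hy', map_add φ _ _⟩)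
      (by rintro x ⟨x', hx', rfl⟩; exact ⟨-x', neg_mem hx', map_neg φ _⟩)
      (by
        rintro x y ⟨y', hy', rfl⟩
        obtain ⟨x', rfl⟩ := hφ x
        exact ⟨x' * y', (hEI x' y' hy').1, map_mul φ _ _⟩)
      (by
        rintro x y ⟨x', hx', rfl⟩
        obtain ⟨y', rfl⟩ := hφ y
        exact ⟨x' * y', (hEI y' x' hx').2, map_mul φ _ _⟩)
    have hN : ∀ x, x ∈ N ↔ ∃ y ∈ E, φ y = x := fun x => TwoSidedIdeal.mem_mk' _ _ _ _ _ _ x
    have hNil : ∀ x ∈ N, ∃ k, x ^ k = 0 := by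
      intro x hx
      obtain ⟨y, hy, rfl⟩ := (hN x).1 hx
      obtain ⟨k, hk⟩ := hnil y (hED hy)
      exact ⟨k, by rw [← map_pow, hk, map_zero]⟩
    have hPI : Pool.Agent.H854R3.CR.PIOn (N : Set Q) := by
      obtain ⟨nn, hnn1, hnn⟩ := hctx.mpi
      refine ⟨d, nn, 1, hnn1, ?_⟩
      intro b hb
      choose y hyE hyb using fun i => (hN (b i)).1 (hb i)
      have h1 := congrArg φ (hnn y fun i => hEA (hyE i))
      rw [map_sum, map_zero] at h1
      rw [← h1]
      refine Finset.sum_congr rfl fun π _ => ?_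
      rw [map_zsmul, map_list_prod, List.map_ofFn]
      congr 3
      funext k
      exact (hyb (π k)).symm
    have hbot := Pool.Agent.H214R3.CR.taskNil Q hprime N hNil hPI
    have h0 : φ (a 0) ∈ N := (hN _).2 ⟨a 0, (ha 0).1, rfl⟩
    rw [hbot, TwoSidedIdeal.mem_bot] at h0
    exact hne h0

end Pool.Agent.N62.RK.NILP
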