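import Pool.Agent.N62.RK.Stm

/-!
Artin-Rees for two commuting elements.
-/

set_option autoImplicit false

namespace Pool.Agent.N62.RK.NOETH

/-- the pairs `(r^k u, - l^k u)` -/
def B {R M : Type} [CommRing R] [AddCommGroup M] [Module R M] (a b : R) : Submodule R (M × M) where
  carrier := {p | ∃ u : M, p.1 = b • u ∧ p.2 = -(a • u)}
  add_mem' := by
    rintro p q ⟨u, h1, h2⟩ ⟨u', h3, h4⟩
    refine ⟨u + u', ?_, ?_⟩
    · rw [Prod.fst_add, h1, h3, smul_add]
    · rw [Prod.snd_add, h2, h4, smul_add, neg_add]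
  zero_mem' := ⟨0, by simp, by simp⟩
  smul_mem' := by
    rintro c p ⟨u, h1, h2⟩
    refine ⟨c • u, ?_, ?_⟩
    · rw [Prod.smul_fst, h1, smul_comm]
    · rw [Prod.smul_snd, h2, smul_neg, smul_comm]

/-- the syzygies -/
def N {R M : Type} [CommRing R] [AddCommGroup M] [Module R M] (a b : R) : Submodule R (M × M) where
  carrier := {p | a • p.1 + b • p.2 = 0}
  add_mem' := by
    intro p q h1 h2
    have h3 : a • (p.1 + q.1) + b • (p.2 + q.2) =
        (a • p.1 + b • p.2) + (a • q.1 + b • q.2) := by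
      rw [smul_add, smul_add]; abel
    change a • (p.1 + q.1) + b • (p.2 + q.2) = 0
    rw [h3, h1, h2, add_zero]
  zero_mem' := by
    change a • (0 : M) + b • (0 : M) = 0
    simp
  smul_mem' := by
    intro c p h
    change a • (c • p.1) + b • (c • p.2) = 0
    rw [smul_comm a c, smul_comm b c, ← smul_add, h, smul_zero]

/-- the elements killed by both -/
def Z {R M : Type} [CommRing R] [AddCommGroup M] [Module R M] (a b : R) : Submodule R M where
  carrier := {w | a • w = 0 ∧ b • w = 0}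
  add_mem' := by
    rintro p q ⟨h1, h2⟩ ⟨h3, h4⟩
    exact ⟨by rw [smul_add, h1, h3, add_zero], by rw [smul_add, h2, h4, add_zero]⟩
  zero_mem' := ⟨smul_zero _, smul_zero _⟩
  smul_mem' := by
    rintro c p ⟨h1, h2⟩
    exact ⟨by rw [smul_comm, h1, smul_zero], by rw [smul_comm, h2, smul_zero]⟩

theorem t : S_NOETH := by
  intro R _ _ M _ _ _ l r
  constructor
  · obtain ⟨k, hk⟩ := Ideal.exists_pow_inf_eq_pow_smul (Ideal.span {l, r}) (Z (M := M) l r)
    refine ⟨k + 1, ?_⟩
    intro w v v' hw hl hr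
    have hlI : l ∈ Ideal.span {l, r} := Ideal.subset_span (by simp)
    have hrI : r ∈ Ideal.span {l, r} := Ideal.subset_span (by simp)
    have h1 : w ∈ Ideal.span {l, r} ^ (k + 1) • (⊤ : Submodule R M) ⊓ Z l r := by
      refine ⟨?_, hl, hr⟩
      rw [hw]
      exact Submodule.add_mem _ (Submodule.smul_mem_smul (Ideal.pow_mem_pow hlI _) trivial)
        (Submodule.smul_mem_smul (Ideal.pow_mem_pow hrI _) trivial)
    rw [hk (k + 1) (Nat.le_succ k), Nat.add_sub_cancel_left, pow_one] at h1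
    have h2 : Ideal.span {l, r} • (Ideal.span {l, r} ^ k • (⊤ : Submodule R M) ⊓ Z l r) ≤ ⊥ := by
      rw [Submodule.smul_le]
      intro c hc x hx
      obtain ⟨α, β, rfl⟩ := Ideal.mem_span_pair.1 hc
      obtain ⟨h3, h4⟩ := hx.2
      rw [Submodule.mem_bot, add_smul, mul_smul, mul_smul, h3, h4, smul_zero, smul_zero, add_zero]
    exact (Submodule.mem_bot R).1 (h2 h1)
  · intro K'
    obtain ⟨k, hk⟩ := Ideal.exists_pow_inf_eq_pow_smul (Ideal.span {l ^ K', r ^ K'})
      (N (M := M) (l ^ K') (r ^ K'))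
    refine ⟨K' + K' * (k + 1), Nat.le_add_right _ _, ?_⟩
    intro v v' hv
    rw [Nat.add_sub_cancel_left]
    have hlI : l ^ K' ∈ Ideal.span {l ^ K', r ^ K'} := Ideal.subset_span (by simp)
    have hrI : r ^ K' ∈ Ideal.span {l ^ K', r ^ K'} := Ideal.subset_span (by simp)
    have h1 : ((l ^ (K' * (k + 1)) • v, r ^ (K' * (k + 1)) • v') : M × M) ∈
        Ideal.span {l ^ K', r ^ K'} ^ (k + 1) • (⊤ : Submodule R (M × M)) ⊓
          N (l ^ K') (r ^ K') := by
      constructor
      · have h2 : ((l ^ (K' * (k + 1)) • v, r ^ (K' * (k + 1)) • v') : M × M) =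
            (l ^ K') ^ (k + 1) • ((v, 0) : M × M) + (r ^ K') ^ (k + 1) • ((0, v') : M × M) := by
          rw [← pow_mul, ← pow_mul]
          ext <;> simp
        rw [h2]
        exact Submodule.add_mem _ (Submodule.smul_mem_smul (Ideal.pow_mem_pow hlI _) trivial)
          (Submodule.smul_mem_smul (Ideal.pow_mem_pow hrI _) trivial)
      · change l ^ K' • l ^ (K' * (k + 1)) • v + r ^ K' • r ^ (K' * (k + 1)) • v' = 0
        rw [smul_smul, smul_smul, ← pow_add, ← pow_add]
        exact hv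
    rw [hk (k + 1) (Nat.le_succ k), Nat.add_sub_cancel_left, pow_one] at h1
    have h2 : Ideal.span {l ^ K', r ^ K'} • (Ideal.span {l ^ K', r ^ K'} ^ k •
        (⊤ : Submodule R (M × M)) ⊓ N (l ^ K') (r ^ K')) ≤ B (l ^ K') (r ^ K') := by
      rw [Submodule.smul_le]
      intro c hc x hx
      obtain ⟨α, β, rfl⟩ := Ideal.mem_span_pair.1 hc
      have h3 : l ^ K' • x.1 + r ^ K' • x.2 = 0 := hx.2
      have h4 : l ^ K' • x.1 = -(r ^ K' • x.2) := eq_neg_of_add_eq_zero_left h3
      have h5 : r ^ K' • x.2 = -(l ^ K' • x.1) := eq_neg_of_add_eq_zero_right h3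
      refine ⟨β • x.1 - α • x.2, ?_, ?_⟩
      · rw [Prod.smul_fst, add_smul, mul_smul, mul_smul, h4, smul_sub, smul_neg,
          smul_comm (r ^ K') β, smul_comm (r ^ K') α]
        abel
      · rw [Prod.smul_snd, add_smul, mul_smul, mul_smul, h5, smul_sub, smul_neg,
          smul_comm (l ^ K') β, smul_comm (l ^ K') α]
        abel
    obtain ⟨u, h3, h4⟩ := h2 h1
    exact ⟨u, h3, h4⟩

end Pool.Agent.N62.RK.NOETH
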