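import Pool.Agent.N62.RK.Stm

/-!
Project RK, task PW (helper647): from `stdp ^ m = 0` to a multilinear identity with coefficient 1.
-/

set_option autoImplicit false

namespace Pool.Agent.N62.RK.PW

open Pool.Agent.N62.RK

variable {N : ℕ}

/-- coefficient of a word -/
noncomputable def cn (f : FreeAlgebra ℤ (Fin N)) (w : List (Fin N)) : ℤ :=
  (FreeAlgebra.basisFreeMonoid ℤ (Fin N)).repr f (FreeMonoid.ofList w)

/-- the element given by a word -/
noncomputable def wn (w : List (Fin N)) : FreeAlgebra ℤ (Fin N) :=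
  (w.map (FreeAlgebra.ι ℤ)).prod

lemma wn_append (w w' : List (Fin N)) : wn (w ++ w') = wn w * wn w' := by simp [wn]

lemma basis_eq (w : FreeMonoid (Fin N)) :
    FreeAlgebra.basisFreeMonoid ℤ (Fin N) w = wn w.toList := by
  have h1 : FreeAlgebra.basisFreeMonoid ℤ (Fin N) w =
      FreeAlgebra.equivMonoidAlgebraFreeMonoid.symm
        (MonoidAlgebra.of ℤ (FreeMonoid (Fin N)) w) := by
    rfl
  rw [h1]
  induction w using FreeMonoid.recOn with
  | one => rw [map_one, map_one]; simp [wn]
  | of_mul a w ih =>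
    have h3 : wn (FreeMonoid.of a * w).toList = FreeAlgebra.ι ℤ a * wn w.toList := by
      simp [wn]
    rw [h3, map_mul, map_mul, ih rfl]
    congr 1
    rw [AlgEquiv.symm_apply_eq]
    simp [FreeAlgebra.equivMonoidAlgebraFreeMonoid]

lemma cn_wn (w w' : List (Fin N)) : cn (wn w) w' = if w = w' then 1 else 0 := by
  classical
  have h : wn w = FreeAlgebra.basisFreeMonoid ℤ (Fin N) (FreeMonoid.ofList w) := by
    rw [basis_eq]; rfl
  rw [cn, h, Module.Basis.repr_self, Finsupp.single_apply]
  by_cases hw : w = w'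
  · rw [if_pos hw, if_pos (by rw [hw])]
  · rw [if_neg hw, if_neg (fun h' => hw (FreeMonoid.ofList.injective h'))]

lemma cn_add (f g : FreeAlgebra ℤ (Fin N)) (w : List (Fin N)) :
    cn (f + g) w = cn f w + cn g w := by simp [cn]

lemma cn_zsmul (a : ℤ) (f : FreeAlgebra ℤ (Fin N)) (w : List (Fin N)) :
    cn (a • f) w = a * cn f w := by
  rw [cn, cn, map_zsmul]
  rfl

lemma cn_zero (w : List (Fin N)) : cn (0 : FreeAlgebra ℤ (Fin N)) w = 0 := by simp [cn]

lemma cn_sum {α : Type} (s : Finset α) (f : α → FreeAlgebra ℤ (Fin N)) (w : List (Fin N)) :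
    cn (∑ i ∈ s, f i) w = ∑ i ∈ s, cn (f i) w := by
  classical
  induction s using Finset.induction_on with
  | empty => simp [cn_zero]
  | insert a s ha ih => rw [Finset.sum_insert ha, Finset.sum_insert ha, cn_add, ih]

/-- induction on elements of the free algebra -/
lemma ind {p : FreeAlgebra ℤ (Fin N) → Prop} (h0 : p 0) (ha : ∀ f g, p f → p g → p (f + g))
    (hs : ∀ (a : ℤ) w, p (a • wn w)) (f : FreeAlgebra ℤ (Fin N)) : p f := by
  have h := (FreeAlgebra.basisFreeMonoid ℤ (Fin N)).linearCombination_repr f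
  rw [Finsupp.linearCombination_apply, Finsupp.sum] at h
  rw [← h]
  refine Finset.sum_induction _ p ha h0 ?_
  intro w _
  rw [basis_eq]
  exact hs _ _

lemma cn_mul (u w : List (Fin N)) (g : FreeAlgebra ℤ (Fin N)) :
    cn (wn u * g) (u ++ w) = cn g w := by
  refine ind (p := fun g => cn (wn u * g) (u ++ w) = cn g w) ?_ ?_ ?_ g
  · simp [cn_zero]
  · intro f g hf hg
    rw [mul_add, cn_add, cn_add, hf, hg]
  · intro a v
    rw [mul_smul_comm, cn_zsmul, cn_zsmul, ← wn_append, cn_wn, cn_wn]
    simp

lemma cn_mul_zero (u w : List (Fin N)) (g : FreeAlgebra ℤ (Fin N)) (h : ¬ u <+: w) :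
    cn (wn u * g) w = 0 := by
  refine ind (p := fun g => cn (wn u * g) w = 0) ?_ ?_ ?_ g
  · simp [cn_zero]
  · intro f g hf hg
    rw [mul_add, cn_add, hf, hg, add_zero]
  · intro a v
    rw [mul_smul_comm, cn_zsmul, ← wn_append, cn_wn, if_neg, mul_zero]
    rintro rfl
    exact h (List.prefix_append _ _)

/-- the standard polynomial in the free algebra -/
lemma stdp_eq : stdp (fun i : Fin N => FreeAlgebra.ι ℤ i) =
    ∑ π : Equiv.Perm (Fin N), ((Equiv.Perm.sign π : ℤˣ) : ℤ) • wn (List.ofFn fun k => π k) := by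
  unfold stdp
  refine Finset.sum_congr rfl fun π _ => ?_
  rw [wn, List.map_ofFn]
  rfl

lemma cn_stdp_mul (g : FreeAlgebra ℤ (Fin N)) (w : List (Fin N)) :
    cn (stdp (fun i : Fin N => FreeAlgebra.ι ℤ i) * g) w =
      ∑ π : Equiv.Perm (Fin N), ((Equiv.Perm.sign π : ℤˣ) : ℤ) *
        cn (wn (List.ofFn fun k => π k) * g) w := by
  rw [stdp_eq, Finset.sum_mul, cn_sum]
  refine Finset.sum_congr rfl fun π _ => ?_
  rw [smul_mul_assoc, cn_zsmul]

lemma main_coeff (m : ℕ) :
    cn (stdp (fun i : Fin N => FreeAlgebra.ι ℤ i) ^ m)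
      (List.replicate m (List.finRange N)).flatten = 1 ∧
    ∀ w, cn (stdp (fun i : Fin N => FreeAlgebra.ι ℤ i) ^ m) w ≠ 0 → w.length = N * m := by
  induction m with
  | zero =>
    have h1 : (1 : FreeAlgebra ℤ (Fin N)) = wn [] := by simp [wn]
    refine ⟨?_, ?_⟩
    · rw [pow_zero, h1, cn_wn]
      simp
    · intro w hw
      rw [pow_zero, h1, cn_wn] at hw
      by_cases h : [] = w
      · subst h; simp
      · rw [if_neg h] at hw
        exact absurd rfl hw
  | succ m ih =>
    obtain ⟨ih1, ih2⟩ := ih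
    rw [pow_succ']
    refine ⟨?_, ?_⟩
    · rw [cn_stdp_mul, List.replicate_succ, List.flatten_cons]
      rw [Finset.sum_eq_single (1 : Equiv.Perm (Fin N))]
      · have h1 : (List.ofFn fun k => (1 : Equiv.Perm (Fin N)) k) = List.finRange N := by
          rw [← List.ofFn_id]
          rfl
        rw [h1, cn_mul, ih1]
        simp
      · intro π _ hπ
        rw [cn_mul_zero, mul_zero]
        intro hp
        apply hπ
        have h1 : (List.ofFn fun k => π k) <+: List.finRange N := by
          refine List.prefix_of_prefix_length_le hp (List.prefix_append _ _) ?_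
          simp
        have h2 : (List.ofFn fun k => π k) = List.finRange N :=
          h1.eq_of_length (by simp)
        rw [← List.ofFn_id] at h2
        have h3 := List.ofFn_injective h2
        ext k
        rw [congrFun h3 k]
        rfl
      · intro h
        exact absurd (Finset.mem_univ _) h
    · intro w hw
      rw [cn_stdp_mul] at hw
      obtain ⟨π, _, hπ⟩ := Finset.exists_ne_zero_of_sum_ne_zero hw
      have h1 : cn (wn (List.ofFn fun k => π k) * stdp (fun i : Fin N => FreeAlgebra.ι ℤ i) ^ m) w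
          ≠ 0 := right_ne_zero_of_mul hπ
      have h2 : (List.ofFn fun k => π k) <+: w := by
        by_contra h
        exact h1 (cn_mul_zero _ _ _ h)
      obtain ⟨v, rfl⟩ := h2
      rw [cn_mul] at h1
      rw [List.length_append, List.length_ofFn, ih2 v h1]
      ring

theorem t (hL : S_LIN) : S_PW := by
  intro F _ U _ _ A N m h
  obtain ⟨h1, h2⟩ := main_coeff (N := N) m
  have hlen : ((List.replicate m (List.finRange N)).flatten).length = N * m := by
    apply h2
    rw [h1]
    exact one_ne_zero
  rw [← hlen]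
  generalize (List.replicate m (List.finRange N)).flatten = w0 at h1 hlen ⊢
  refine ⟨fun τ => cn (stdp (fun i : Fin N => FreeAlgebra.ι ℤ i) ^ m)
    (List.ofFn fun k => w0.get (τ k)), ?_, ?_⟩
  · change cn _ (List.ofFn fun k => w0.get k) = 1
    rw [List.ofFn_get]
    exact h1
  · intro a ha
    have key := hL ℤ N (stdp (fun i : Fin N => FreeAlgebra.ι ℤ i) ^ m) ⊥ w0 ?_ U U
      (A.toAddSubgroup.toIntSubmodule) ?_ ?_ a ha (1 : U)
    · rw [smul_eq_mul, mul_one] at key
      exact key
    · intro w hw
      rw [Ideal.mem_bot]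
      by_contra h3
      have h4 := h2 w h3
      omega
    · intro κ hκ v
      rw [Ideal.mem_bot] at hκ
      rw [hκ, map_zero, zero_smul]
    · intro b hb v
      have h3 : FreeAlgebra.lift ℤ b (stdp (fun i : Fin N => FreeAlgebra.ι ℤ i) ^ m) =
          stdp b ^ m := by
        rw [map_pow]
        congr 1
        unfold stdp
        rw [map_sum]
        refine Finset.sum_congr rfl fun π _ => ?_
        rw [map_zsmul, map_list_prod, List.map_ofFn]
        congr 3
        funext k
        simp
      rw [h3, h b hb, zero_smul]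

end Pool.Agent.N62.RK.PW
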