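import Pool.Agent.N62.RK.Stm2
import Pool.Agent.N62.RK.Base

/-! Locally residually finite varieties, task RED: reduction of the middle factor (helper426). -/

set_option autoImplicit false

namespace Pool.Agent.N62.RK.RED

open Pool.Agent.N62.RK

theorem val_rep {U : Type} [Ring U] {s : ℕ} (g : Fin s → U) (v : List (Fin s)) (n : ℕ) :
    ((List.replicate n v).flatten.map g).prod = ((v.map g).prod) ^ n := by
  induction n with
  | zero => simp
  | succ n ih =>
    rw [List.replicate_succ, List.flatten_cons, List.map_append, List.prod_append, ih, pow_succ']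

theorem val_word {U : Type} [Ring U] {s : ℕ} (g : Fin s → U) (a v b : List (Fin s)) (n : ℕ) :
    ((a ++ (List.replicate n v).flatten ++ b).map g).prod =
      (a.map g).prod * ((v.map g).prod) ^ n * (b.map g).prod := by
  rw [List.map_append, List.map_append, List.prod_append, List.prod_append, val_rep]

theorem len_word {s : ℕ} (a v b : List (Fin s)) (n : ℕ) :
    (a ++ (List.replicate n v).flatten ++ b).length = a.length + n * v.length + b.length := by
  rw [List.length_append, List.length_append, List.length_flatten, List.map_replicate,
    List.sum_replicate, smul_eq_mul]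

theorem t (hR : S_RW) (hP : S_PN) : S_RED := by
  classical
  intro F _ _ U _ _ A Φ e d s g hC
  obtain ⟨N, hN⟩ := hP F U A Φ e hC.idl hC.law hC.err hC.mid
  obtain ⟨β, hβ⟩ := hR s d N
  let B : Finset U := (Finset.range β).biUnion fun n =>
    (Finset.univ : Finset (Fin n → Fin s)).image fun f => ((List.ofFn f).map g).prod
  have hB : ∀ w : List (Fin s), w.length < β → (w.map g).prod ∈ B := by
    intro w hw
    refine Finset.mem_biUnion.2 ⟨w.length, Finset.mem_range.2 hw, ?_⟩
    refine Finset.mem_image.2 ⟨w.get, Finset.mem_univ _, ?_⟩
    rw [List.ofFn_get]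
  refine ⟨B, ?_⟩
  intro I hI hIA i j hi hj x hx z hz u
  set T : Submodule F U := idg F {t | ∃ b ∈ B, t = x * b * z} ⊔ ip I (i + j + 1) with hT
  have hTi : Idl T := (idl_idg _).sup (idl_ip hI _)
  let φ : U →ₗ[F] U := (LinearMap.mulRight F z).comp (LinearMap.mulLeft F x)
  have hφ : ∀ u, φ u = x * u * z := fun u => rfl
  have hw : ∀ w : List (Fin s), φ (w.map g).prod ∈ T := by
    intro w
    refine hβ F U A hC.idl hC.mpi g hC.gA φ T (fun _ => True) (fun _ _ _ _ => trivial) ?_ ?_ w
      trivial
    · intro a v b hv _ _ hsh
      rw [hφ, val_word]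
      have hc : (v.map g).prod ∈ A := by
        apply hC.idl.prod_mem
        · simpa using hv
        · intro y hy
          obtain ⟨k, -, rfl⟩ := List.mem_map.1 hy
          exact hC.gA k
      have h := hN N le_rfl I hI hIA i j hi hj (x * (a.map g).prod)
        ((idl_ip hI i _ x hx).2) ((b.map g).prod * z) ((idl_ip hI j _ z hz).1) _ hc T hTi
        le_sup_right (by
          intro k hk
          have h1 := hsh (a ++ (List.replicate k v).flatten ++ b) (by
            rw [len_word, len_word]
            have h2 : 0 < v.length := List.length_pos_iff.2 hv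
            have h3 : k * v.length < N * v.length := Nat.mul_lt_mul_of_pos_right hk h2
            omega) trivial
          rw [hφ, val_word] at h1
          have h4 : x * (a.map g).prod * (v.map g).prod ^ k * ((b.map g).prod * z) =
              x * ((a.map g).prod * (v.map g).prod ^ k * (b.map g).prod) * z := by noncomm_ring
          rw [h4]
          exact h1)
      have h5 : x * ((a.map g).prod * (v.map g).prod ^ N * (b.map g).prod) * z =
          x * (a.map g).prod * (v.map g).prod ^ N * ((b.map g).prod * z) := by noncomm_ring
      rw [h5]
      exact h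
    · intro w hwl _
      rw [hφ]
      exact Submodule.mem_sup_left (subset_idg _ ⟨_, hB w hwl, rfl⟩)
  have hu := mem_span_words hC.gen u
  have hle : Submodule.span F {t | ∃ w : List (Fin s), t = (w.map g).prod} ≤ T.comap φ := by
    rw [Submodule.span_le]
    rintro _ ⟨w, rfl⟩
    exact hw w
  exact hle hu

end Pool.Agent.N62.RK.RED
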