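import Pool.Agent.N62.RK.Stm

/-!
Task RW: rewriting with a multilinear identity.
-/

set_option autoImplicit false

namespace Pool.Agent.N62.RK.RW

section

variable {F : Type} [CommRing F] {U : Type} [Ring U] [Algebra F U]

lemma prod_mem {A : Submodule F U} (hA : Idl A) {s : ℕ} (g : Fin s → U) (hg : ∀ i, g i ∈ A) :
    ∀ w : List (Fin s), w ≠ [] → (w.map g).prod ∈ A := by
  intro w hw
  cases w with
  | nil => exact absurd rfl hw
  | cons x w =>
    rw [List.map_cons, List.prod_cons]
    exact (hA _ _ (hg x)).2

end

lemma flat_prod {U : Type} [Ring U] {s d : ℕ} (g : Fin s → U) (u : Fin d → List (Fin s)) :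
    (((List.ofFn u).flatten).map g).prod = (List.ofFn fun k => ((u k).map g).prod).prod := by
  rw [List.map_flatten, List.prod_flatten, List.map_map, List.map_ofFn]
  rfl

lemma perm_flat {s d : ℕ} (u : Fin d → List (Fin s)) (π : Equiv.Perm (Fin d)) :
    ((List.ofFn u).flatten).Perm ((List.ofFn fun i => u (π i)).flatten) :=
  List.Perm.flatten (Equiv.Perm.ofFn_comp_perm π u).symm

theorem t (hW : S_WORD) : S_RW := by
  intro s d N
  obtain ⟨β, hβ⟩ := hW s d N
  refine ⟨β, ?_⟩
  intro F _ U _ _ A hA hM g hg φ T Q hQ h2 h3
  obtain ⟨nn, hn1, hnn⟩ := hM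
  have key : ∀ n : ℕ, ∀ m : ℕ, ∀ w : List (Fin s), w.length = n → wval s w = m → Q w →
      φ (w.map g).prod ∈ T := by
    intro n
    induction n using Nat.strong_induction_on with
    | _ n ihn =>
      intro m
      induction m using Nat.strong_induction_on with
      | _ m ihm =>
        intro w hwn hwm hw
        by_cases hl : w.length < β
        · exact h3 w hl hw
        push Not at hl
        rcases hβ w hl with ⟨a, v, b, hwe, hv, hvd⟩ | ⟨a, b, u, hwe, hu, hlt⟩
        · subst hwe
          exact h2 a v b hv hvd hw
            (fun w' hw' hq => ihn w'.length (hwn ▸ hw') _ w' rfl rfl hq)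
        · have e := hnn (fun k => ((u k).map g).prod) (fun i => prod_mem hA g hg _ (hu i))
          have hterm : ∀ π : Equiv.Perm (Fin d),
              ((a ++ (List.ofFn fun i => u (π i)).flatten ++ b).map g).prod =
                (a.map g).prod * (List.ofFn fun k => ((u (π k)).map g).prod).prod *
                  (b.map g).prod := by
            intro π
            rw [List.map_append, List.map_append, List.prod_append, List.prod_append,
              flat_prod g fun i => u (π i)]
          have hsum : ∑ π : Equiv.Perm (Fin d),
              nn π • φ ((a ++ (List.ofFn fun i => u (π i)).flatten ++ b).map g).prod = 0 := by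
            have h : ∑ π : Equiv.Perm (Fin d),
                nn π • φ ((a ++ (List.ofFn fun i => u (π i)).flatten ++ b).map g).prod =
                φ ((a.map g).prod * (∑ π : Equiv.Perm (Fin d),
                  nn π • (List.ofFn fun k => ((u (π k)).map g).prod).prod) * (b.map g).prod) := by
              rw [Finset.mul_sum, Finset.sum_mul, map_sum]
              refine Finset.sum_congr rfl fun π _ => ?_
              rw [mul_smul_comm, smul_mul_assoc, map_zsmul, hterm π]
            rw [h, e, mul_zero, zero_mul, map_zero]
          rw [← Finset.add_sum_erase _ _ (Finset.mem_univ (1 : Equiv.Perm (Fin d)))] at hsum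
          have h1 : nn 1 • φ ((a ++ (List.ofFn fun i => u ((1 : Equiv.Perm (Fin d)) i)).flatten ++
              b).map g).prod = φ (w.map g).prod := by
            rw [hn1, one_smul, hwe]
            rfl
          rw [h1] at hsum
          rw [eq_neg_of_add_eq_zero_left hsum]
          refine T.neg_mem (T.sum_mem fun π hπ => zsmul_mem ?_ _)
          have hπ1 : π ≠ 1 := (Finset.mem_erase.1 hπ).1
          have hp : w.Perm (a ++ (List.ofFn fun i => u (π i)).flatten ++ b) := by
            rw [hwe]
            exact ((perm_flat u π).append_left a).append_right b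
          exact ihm _ (hwm ▸ hlt π hπ1) _ (hp.length_eq.symm.trans hwn) rfl (hQ _ _ hp hw)
  intro w hw
  exact key _ _ w rfl rfl hw

end Pool.Agent.N62.RK.RW
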