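import Pool.Agent.N62.RK.Stm

/-!
Task STD of project RK (helper62): the standard identity of matrices (helper701).
-/

namespace Pool.Agent.N62.RK.STD

open Pool.Agent.N62.RK

theorem t : S_STD := by
  intro K _ s N hN t
  have h1 : stdp t = MultilinearMap.alternatization
      (MultilinearMap.mkPiAlgebraFin K N (Matrix (Fin s) (Fin s) K)) t := by
    rw [MultilinearMap.alternatization_apply]
    unfold stdp
    refine Finset.sum_congr rfl fun π _ => ?_
    rw [MultilinearMap.domDomCongr_apply, MultilinearMap.mkPiAlgebraFin_apply]
    rfl
  rw [h1]
  apply AlternatingMap.map_linearDependent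
  intro hli
  have h2 := hli.fintype_card_le_finrank
  rw [Fintype.card_fin, Module.finrank_matrix, Fintype.card_fin, Module.finrank_self] at h2
  omega

end Pool.Agent.N62.RK.STD
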