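import Pool.Agent.N62.RK.Stm

/-!
# Task UP (rings, helper558): residual finiteness passes up from an ideal of finite index
-/

set_option autoImplicit false

namespace Pool.Agent.N62.RK.UP

open Pool.Agent.N62.RK

section

variable {F : Type} [CommRing F] {A : Type} [NonUnitalRing A] [Module F A] [IsScalarTower F A A]
  [SMulCommClass F A A]

/-- left multiplication, or the identity -/
def Lf (E : Finset A) : Option E → A →ₗ[F] A
  | none => LinearMap.id
  | some e => LinearMap.mulLeft F (e : A)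

/-- right multiplication, or the identity -/
def Rt (E : Finset A) : Option E → A →ₗ[F] A
  | none => LinearMap.id
  | some e => LinearMap.mulRight F (e : A)

theorem Lf_mul (E : Finset A) (o : Option E) (x y : A) :
    Lf (F := F) E o (x * y) = Lf (F := F) E o x * y := by
  cases o with
  | none => rfl
  | some e => exact (mul_assoc _ _ _).symm

theorem Rt_mul (E : Finset A) (o : Option E) (x y : A) :
    Rt (F := F) E o (x * y) = x * Rt (F := F) E o y := by
  cases o with
  | none => rfl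
  | some e => exact mul_assoc _ _ _

/-- the ideal -/
def Jp (Jm : Submodule F A) (E : Finset A) : Submodule F A :=
  LinearMap.ker (LinearMap.pi (fun i : Option E × Option E =>
    Jm.mkQ ∘ₗ (Lf (F := F) E i.1 ∘ₗ Rt (F := F) E i.2)))

theorem mem_Jp (Jm : Submodule F A) (E : Finset A) (x : A) :
    x ∈ Jp Jm E ↔ ∀ o o' : Option E, Lf (F := F) E o (Rt (F := F) E o' x) ∈ Jm := by
  unfold Jp
  rw [LinearMap.mem_ker]
  constructor
  · intro h o o'
    have h1 := congrFun h (o, o')
    rw [← Submodule.ker_mkQ Jm, LinearMap.mem_ker]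
    exact h1
  · intro h
    funext i
    have h1 := h i.1 i.2
    rw [← Submodule.ker_mkQ Jm, LinearMap.mem_ker] at h1
    exact h1

theorem finite_Jp (Jm : Submodule F A) (E : Finset A) [Finite (A ⧸ Jm)] :
    Finite (A ⧸ Jp Jm E) :=
  Finite.of_equiv _ (LinearMap.quotKerEquivRange (LinearMap.pi (fun i : Option E × Option E =>
    Jm.mkQ ∘ₗ (Lf (F := F) E i.1 ∘ₗ Rt (F := F) E i.2)))).symm.toEquiv

theorem nidl_Jp (Bs Jm : Submodule F A) (E : Finset A) (hE : ∀ u : A, ∃ e ∈ E, u - e ∈ Bs)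
    (hJ : ∀ b ∈ Bs, ∀ x ∈ Jm, b * x ∈ Jm ∧ x * b ∈ Jm) : NIdl F A (Jp Jm E) := by
  intro u x hx
  rw [mem_Jp] at hx
  rw [mem_Jp, mem_Jp]
  constructor
  · intro o o'
    rw [Rt_mul, Lf_mul]
    obtain ⟨e, he, heB⟩ := hE (Lf (F := F) E o u)
    have h1 : Lf (F := F) E o u * Rt (F := F) E o' x =
        e * Rt (F := F) E o' x + (Lf (F := F) E o u - e) * Rt (F := F) E o' x := by
      rw [sub_mul, add_sub_cancel]
    rw [h1]
    exact Jm.add_mem (hx (some ⟨e, he⟩) o') (hJ _ heB _ (hx none o')).1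
  · intro o o'
    rw [Rt_mul, Lf_mul]
    obtain ⟨e, he, heB⟩ := hE (Rt (F := F) E o' u)
    have h0 : ∀ y : A, Lf (F := F) E o (Rt (F := F) E (some ⟨e, he⟩) y) =
        Lf (F := F) E o y * e := fun y => Lf_mul E o y e
    have h1 : Lf (F := F) E o x * Rt (F := F) E o' u =
        Lf (F := F) E o x * e + Lf (F := F) E o x * (Rt (F := F) E o' u - e) := by
      rw [mul_sub, add_sub_cancel]
    rw [h1, ← h0]
    exact Jm.add_mem (hx o (some ⟨e, he⟩)) (hJ _ heB _ (hx o none)).2

theorem exists_E (Bs : Submodule F A) [Finite (A ⧸ Bs)] :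
    ∃ E : Finset A, ∀ u : A, ∃ e ∈ E, u - e ∈ Bs := by
  classical
  haveI := Fintype.ofFinite (A ⧸ Bs)
  refine ⟨Finset.univ.image (fun q : A ⧸ Bs => Quotient.out q), fun u => ?_⟩
  refine ⟨Quotient.out (Bs.mkQ u), Finset.mem_image_of_mem _ (Finset.mem_univ _), ?_⟩
  rw [← Submodule.Quotient.eq]
  exact (Quotient.out_eq (Bs.mkQ u)).symm

theorem finite_trans (B : NonUnitalSubalgebra F A) (J : Submodule F B)
    [Finite (A ⧸ B.toSubmodule)] [Finite (B ⧸ J)] :
    Finite (A ⧸ J.map (B.toSubmodule.subtype)) := by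
  refine Finite.of_surjective
    (fun p : (A ⧸ B.toSubmodule) × (B ⧸ J) =>
      (J.map (B.toSubmodule.subtype)).mkQ (Quotient.out p.1 + ((Quotient.out p.2 : B) : A))) ?_
  intro y
  obtain ⟨x, rfl⟩ := Submodule.mkQ_surjective _ y
  set q := B.toSubmodule.mkQ x with hq
  have h1 : x - Quotient.out q ∈ B.toSubmodule := by
    rw [← Submodule.Quotient.eq]
    exact (Quotient.out_eq q).symm
  set b : B := ⟨x - Quotient.out q, h1⟩ with hb
  set r := J.mkQ b with hr
  have h2 : b - Quotient.out r ∈ J := by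
    rw [← Submodule.Quotient.eq]
    exact (Quotient.out_eq r).symm
  refine ⟨(q, r), ?_⟩
  show (J.map (B.toSubmodule.subtype)).mkQ (Quotient.out q + ((Quotient.out r : B) : A)) =
    (J.map (B.toSubmodule.subtype)).mkQ x
  symm
  rw [← sub_eq_zero, ← map_sub, Submodule.mkQ_apply, Submodule.Quotient.mk_eq_zero]
  refine ⟨b - Quotient.out r, h2, ?_⟩
  show (x - Quotient.out q) - ((Quotient.out r : B) : A) = _
  abel

end

theorem t : S_UP := by
  intro F _ A _ _ _ _ B hB hfin hR a ha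
  by_cases haB : a ∈ B
  · have hb : (⟨a, haB⟩ : B) ≠ 0 := fun h => ha (congrArg Subtype.val h)
    obtain ⟨J, hJ1, hJ2, hJ3⟩ := hR ⟨a, haB⟩ hb
    obtain ⟨E, hE⟩ := exists_E B.toSubmodule
    haveI := finite_trans B J
    refine ⟨Jp (J.map (B.toSubmodule.subtype)) E, ?_, finite_Jp _ _, ?_⟩
    · refine nidl_Jp B.toSubmodule _ E hE ?_
      rintro b hb _ ⟨x, hx, rfl⟩
      have h1 := hJ1 ⟨b, hb⟩ x hx
      exact ⟨⟨_, h1.1, rfl⟩, ⟨_, h1.2, rfl⟩⟩
    · rw [mem_Jp]
      intro h
      obtain ⟨x, hx, hxa⟩ := h none none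
      apply hJ3
      have h1 : (⟨a, haB⟩ : B) = x := Subtype.ext hxa.symm
      rw [h1]
      exact hx
  · exact ⟨B.toSubmodule, hB, hfin, haB⟩

end Pool.Agent.N62.RK.UP
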