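import Pool.Agent.N62.RK.Stm
import Pool.Agent.N62.RF.WORD

set_option autoImplicit false

namespace Pool.Agent.N62.RK.WORD

theorem t : S_WORD := Pool.Agent.N62.RF.WORD.t

end Pool.Agent.N62.RK.WORD
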